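import Pool.Agent.Q62.DN.Gron

/-!
Growth of `∂ₜu` in terms of a Galerkin solution.
-/

set_option autoImplicit false
set_option linter.unusedSectionVars false

open MeasureTheory Set Filter Topology
open scoped InnerProductSpace

namespace Pool.Agent.Q62.DN

open H772R2.NSR (Frame prim_cont grad_unique ae_deriv_of_prim memLp_ii)
open H772R2.NSG (by_parts ii_of_int int_inner norm_m_le mem_cont)
open Pool.Agent.W795.TQ
open Pool.Agent.W790.TQ (toSt sq_prim)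
open Pool.Agent.W795.ES (Tri Smo S_gr)

section

variable {H K : Type} [NormedAddCommGroup H] [InnerProductSpace ℝ H] [CompleteSpace H]
  [NormedAddCommGroup K] [InnerProductSpace ℝ K] [CompleteSpace K]
  {W E : Submodule ℝ (H × K)} {m : H → K} {C c ν : ℝ}
  {T : ℝ} {F F1 Fa : ℝ → K} {u u1 v : ℝ → H} {z z1 y : ℝ → K}

/-- strong solutions with their derivatives -/
theorem canon (Fr : Frame W m C) {v : ℝ → H} {t : ℝ} (ht : 0 < t)
    (S : Str W m ν t F u u1 z z1) (hv : ∀ s ∈ Icc 0 t, v s = u s) :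
    Str W m ν t F v (deriv v) (gz W v) (deriv (gz W v)) := by
  have hz : ∀ s ∈ Icc 0 t, gz W v s = z s := fun s hs => gz_eq Fr (by
    rw [hv s hs]
    exact S.mem s hs)
  have hne : ∀ᵐ s ∂(volume.restrict (Ioc 0 t)), s ≠ t := by
    refine ae_restrict_of_ae ?_
    simp [ae_iff, measure_singleton]
  have hd : ∀ᵐ s ∂(volume.restrict (Ioc 0 t)), deriv v s = u1 s ∧ deriv (gz W v) s = z1 s := by
    filter_upwards [ae_deriv_of_prim ht (memLp_ii ht.le S.u1m) S.pu,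
      ae_deriv_of_prim ht (memLp_ii ht.le S.z1m) S.pz, hne, ae_restrict_mem measurableSet_Ioc]
      with s k1 k2 k3 hs
    have hs' : s < t := lt_of_le_of_ne hs.2 k3
    have e1 : v =ᶠ[𝓝 s] u := by
      filter_upwards [Icc_mem_nhds hs.1 hs'] with r hr
      exact hv r hr
    have e2 : gz W v =ᶠ[𝓝 s] z := by
      filter_upwards [Icc_mem_nhds hs.1 hs'] with r hr
      exact hz r hr
    exact ⟨(k1.congr_of_eventuallyEq e1).deriv, (k2.congr_of_eventuallyEq e2).deriv⟩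
  have hd1 : deriv v =ᵐ[volume.restrict (Ioc 0 t)] u1 := by
    filter_upwards [hd] with s hs
    exact hs.1
  have hd2 : deriv (gz W v) =ᵐ[volume.restrict (Ioc 0 t)] z1 := by
    filter_upwards [hd] with s hs
    exact hs.2
  obtain ⟨b, hb⟩ := S.bd
  refine ⟨fun s hs => ?_, ?_, ⟨b, ?_⟩, S.u1m.ae_eq hd1.symm, S.z1m.ae_eq hd2.symm, ?_, ?_, ?_, ?_⟩
  · rw [hv s hs, hz s hs]
    exact S.mem s hs
  · filter_upwards [S.mem1, hd] with s k1 k2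
    rw [k2.1, k2.2]
    exact k1
  · filter_upwards [hb, hd] with s k1 k2
    rw [k2.1]
    exact k1
  · intro a b ha hab hbt
    rw [hv a ⟨ha, hab.trans hbt⟩, hv b ⟨ha.trans hab, hbt⟩, S.pu a b ha hab hbt,
      intervalIntegral.integral_of_le hab, intervalIntegral.integral_of_le hab]
    exact integral_congr_ae (ae_mono (Measure.restrict_mono (Ioc_subset_Ioc ha hbt) le_rfl)
      hd1.symm)
  · intro a b ha hab hbt
    rw [hz a ⟨ha, hab.trans hbt⟩, hz b ⟨ha.trans hab, hbt⟩, S.pz a b ha hab hbt,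
      intervalIntegral.integral_of_le hab, intervalIntegral.integral_of_le hab]
    exact integral_congr_ae (ae_mono (Measure.restrict_mono (Ioc_subset_Ioc ha hbt) le_rfl)
      hd2.symm)
  · intro p hp s hs
    rw [hv s hs, hv 0 ⟨le_rfl, ht.le⟩, S.weak p hp s hs]
    refine intervalIntegral.integral_congr fun r hr => ?_
    rw [uIcc_of_le hs.1] at hr
    rw [hv r ⟨hr.1, hr.2.trans hs.2⟩, hz r ⟨hr.1, hr.2.trans hs.2⟩]
  · intro s hs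
    have h1 := S.energy s hs
    rw [hv s hs, hv 0 ⟨le_rfl, ht.le⟩]
    have e1 : ∫ r in (0 : ℝ)..s, ‖gz W v r‖ ^ 2 = ∫ r in (0 : ℝ)..s, ‖z r‖ ^ 2 := by
      refine intervalIntegral.integral_congr fun r hr => ?_
      rw [uIcc_of_le hs.1] at hr
      rw [hz r ⟨hr.1, hr.2.trans hs.2⟩]
    have e2 : ∫ r in (0 : ℝ)..s, ⟪F r, gz W v r⟫_ℝ = ∫ r in (0 : ℝ)..s, ⟪F r, z r⟫_ℝ := by
      refine intervalIntegral.integral_congr fun r hr => ?_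
      rw [uIcc_of_le hs.1] at hr
      rw [hz r ⟨hr.1, hr.2.trans hs.2⟩]
    rw [e1, e2]
    exact h1

/-- the gradient in terms of the time derivative -/
theorem z_le (Fr : Frame W m C) (hν : 0 < ν) {u u1 : H} {z f : K} {M Φ : ℝ} (hu : (u, z) ∈ W)
    (hw : ∀ p ∈ W, ⟪u1, p.1⟫_ℝ = ⟪f - ν • z + m u, p.2⟫_ℝ) (hM : ‖u‖ ≤ M) (hΦ : ‖f‖ ≤ Φ) :
    ‖z‖ ^ 2 ≤ Φ ^ 2 / ν ^ 2 + 2 * M * ‖u1‖ / ν := by
  have e1 := hw _ hu
  simp only at e1
  rw [inner_add_left, inner_sub_left, real_inner_smul_left, real_inner_self_eq_norm_sq,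
    Fr.ortho _ hu, add_zero] at e1
  have h1 : ⟪f, z⟫_ℝ ≤ Φ * ‖z‖ :=
    (real_inner_le_norm _ _).trans (mul_le_mul_of_nonneg_right hΦ (norm_nonneg _))
  have h2 : -⟪u1, u⟫_ℝ ≤ ‖u1‖ * M := by
    have h3 := abs_real_inner_le_norm u1 u
    have h4 : ‖u1‖ * ‖u‖ ≤ ‖u1‖ * M := by gcongr
    linarith [neg_abs_le ⟪u1, u⟫_ℝ]
  have h3 : ν * ‖z‖ ^ 2 ≤ Φ * ‖z‖ + ‖u1‖ * M := by linarith
  have h4 : Φ * ‖z‖ ≤ Φ ^ 2 / (2 * ν) + ν * ‖z‖ ^ 2 / 2 := by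
    have h5 : 0 ≤ (Φ - ν * ‖z‖) ^ 2 / (2 * ν) := by positivity
    have h6 : (Φ - ν * ‖z‖) ^ 2 / (2 * ν)
        = Φ ^ 2 / (2 * ν) + ν * ‖z‖ ^ 2 / 2 - Φ * ‖z‖ := by field_simp; ring
    linarith
  have h7 : ν * ‖z‖ ^ 2 ≤ ν * (Φ ^ 2 / ν ^ 2 + 2 * M * ‖u1‖ / ν) := by
    have h8 : ν * (Φ ^ 2 / ν ^ 2 + 2 * M * ‖u1‖ / ν) = 2 * (Φ ^ 2 / (2 * ν) + ‖u1‖ * M) := by
      field_simp
    rw [h8]
    linarith
  exact le_of_mul_le_mul_left h7 hν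

/-- smallness of the distance at the end point, in terms of a bound `X` of `∂ₜu` -/
theorem small_dist (Fr : Frame W m C) (U : Univ W m c) (hν : 0 < ν) (hEW : E ≤ W) (hT : 0 < T)
    (hE : IsClosed (E : Set (H × K)))
    (hF : FH T F F1) (S : Str W m ν T F u u1 z z1) (L : App E m ν T Fa v y)
    {h ε : ℝ} (hhε : h ≤ ε ^ 4) (hε : 0 < ε)
    (hε1 : ε ≤ 1) (hh : ∀ p ∈ W, (∀ e ∈ E, ⟪p.2, e.2⟫_ℝ = 0) → ‖p.1‖ ≤ h * ‖p.2‖)
    (hFa : ∫ s in (0 : ℝ)..T, ‖Fa s - F s‖ ^ 2 ≤ ε ^ 2) (h0 : ‖v 0 - u 0‖ ≤ ε)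
    {g : ℝ → ℝ} (hg0 : ∀ s, 0 ≤ g s) (hgi : IntervalIntegrable g volume 0 T)
    (hg : ∀ᵐ s ∂(volume.restrict (Ioc 0 T)),
      27 / 4 * c ^ 4 / ν ^ 3 * ‖z s‖ ^ 4 ≤ g s ∨ 27 / 4 * c ^ 4 / ν ^ 3 * ‖y s‖ ^ 4 ≤ g s)
    {X P1 P3 T0 J : ℝ} (hX : 1 ≤ X) (hP1 : 0 ≤ P1) (hP3 : 0 ≤ P3) (hT0 : T ≤ T0)
    (hz : ∀ᵐ s ∂(volume.restrict (Ioc 0 T)), ‖z s‖ ^ 2 ≤ P1 * X) (hzT : ‖z T‖ ^ 2 ≤ P1 * X)
    (hz1 : ∫ s in (0 : ℝ)..T, ‖z1 s‖ ^ 2 ≤ P3 * X ^ 4)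
    (hJ : Real.exp (∫ s in (0 : ℝ)..T, g s) ≤ J * X) (hJ0 : 0 ≤ J) :
    ‖u T - v T‖ * ‖z T‖ ≤ ε * ((P1 + Real.sqrt ((1 + ‖z 0‖) ^ 2 + 4 / ν * (1 + 4 * Real.sqrt C
      * (T0 * P1 ^ 2) + C ^ 2 * P3)) * J * Real.sqrt P1) * X ^ 4) := by
  obtain ⟨ρ, hρE, hρo, hρn⟩ := exists_ritz Fr hE hEW
  have hC := Fr.C0
  have hd := App.dist Fr U hν hEW hT hF S L hρE hρo hρn hhε hε hε1 hh hFa h0 hg0 hgi hg
  have hX0 : 0 < X := by linarith
  have hzc : ContinuousOn z (Icc 0 T) := prim_cont S.z1m S.pz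
  have hz4 : ∫ s in (0 : ℝ)..T, ‖z s‖ ^ 4 ≤ T0 * P1 ^ 2 * X ^ 4 := by
    have e1 : ∫ s in (0 : ℝ)..T, ‖z s‖ ^ 4 ≤ ∫ s in (0 : ℝ)..T, P1 ^ 2 * X ^ 2 := by
      refine intervalIntegral.integral_mono_ae_restrict hT.le
        (((hzc.norm.pow 4)).intervalIntegrable_of_Icc hT.le) intervalIntegrable_const ?_
      rw [Filter.EventuallyLE, ← restrict_Ioc_eq_restrict_Icc]
      filter_upwards [hz] with s hs
      calc ‖z s‖ ^ 4 = (‖z s‖ ^ 2) ^ 2 := by ring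
        _ ≤ (P1 * X) ^ 2 := pow_le_pow_left₀ (by positivity) hs 2
        _ = P1 ^ 2 * X ^ 2 := by ring
    rw [intervalIntegral.integral_const, smul_eq_mul, sub_zero] at e1
    refine e1.trans ?_
    have e2 : X ^ 2 ≤ X ^ 4 := pow_le_pow_right₀ hX (by norm_num)
    have e3 : 0 ≤ P1 ^ 2 := by positivity
    calc T * (P1 ^ 2 * X ^ 2) ≤ T0 * (P1 ^ 2 * X ^ 4) := by gcongr; exact hT.le.trans hT0
      _ = T0 * P1 ^ 2 * X ^ 4 := by ring
  set P4 : ℝ := (1 + ‖z 0‖) ^ 2 + 4 / ν * (1 + 4 * Real.sqrt C * (T0 * P1 ^ 2) + C ^ 2 * P3) with hP4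
  have hT00 : 0 ≤ T0 := hT.le.trans hT0
  have hP40 : 0 ≤ P4 := by positivity
  have hX4 : 1 ≤ X ^ 4 := one_le_pow₀ hX
  have hQ : (1 + ‖z 0‖) ^ 2 + 4 / ν * (1 + 4 * Real.sqrt C
      * (∫ s in (0 : ℝ)..T, ‖z s‖ ^ 4) + C ^ 2 * ∫ s in (0 : ℝ)..T, ‖z1 s‖ ^ 2) ≤ P4 * X ^ 4 := by
    have e1 : 4 / ν * (1 + 4 * Real.sqrt C
      * (∫ s in (0 : ℝ)..T, ‖z s‖ ^ 4) + C ^ 2 * ∫ s in (0 : ℝ)..T, ‖z1 s‖ ^ 2)
        ≤ 4 / ν * (X ^ 4 + 4 * Real.sqrt C * (T0 * P1 ^ 2 * X ^ 4) + C ^ 2 * (P3 * X ^ 4)) := by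
      gcongr
    have e2 : (1 + ‖z 0‖) ^ 2 ≤ (1 + ‖z 0‖) ^ 2 * X ^ 4 := le_mul_of_one_le_right (by positivity) hX4
    have e3 : P4 * X ^ 4 = (1 + ‖z 0‖) ^ 2 * X ^ 4
        + 4 / ν * (X ^ 4 + 4 * Real.sqrt C * (T0 * P1 ^ 2 * X ^ 4) + C ^ 2 * (P3 * X ^ 4)) := by
      rw [hP4]; ring
    linarith
  -- the distance
  have hw : ‖v T - (ρ (z T)).1‖ ≤ ε * (Real.sqrt P4 * J * X ^ 3) := by
    refine abs_le_of_sq_le_sq' ?_ (by positivity) |>.2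
    refine hd.trans ?_
    have e1 : Real.exp (2 * ∫ s in (0 : ℝ)..T, g s) ≤ (J * X) ^ 2 := by
      rw [two_mul, Real.exp_add, sq]
      exact mul_le_mul hJ hJ (Real.exp_pos _).le (by positivity)
    calc ε ^ 2 * ((1 + ‖z 0‖) ^ 2 + 4 / ν * (1 + 4 * Real.sqrt C
      * (∫ s in (0 : ℝ)..T, ‖z s‖ ^ 4) + C ^ 2 * ∫ s in (0 : ℝ)..T, ‖z1 s‖ ^ 2))
      * Real.exp (2 * ∫ s in (0 : ℝ)..T, g s) ≤ ε ^ 2 * (P4 * X ^ 4) * (J * X) ^ 2 := by gcongr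
      _ = (ε * (Real.sqrt P4 * J * X ^ 3)) ^ 2 := by
          rw [show (ε * (Real.sqrt P4 * J * X ^ 3)) ^ 2
            = ε ^ 2 * (Real.sqrt P4 ^ 2) * J ^ 2 * X ^ 6 by ring, Real.sq_sqrt hP40]
          ring
  have hmem := S.mem T ⟨hT.le, le_rfl⟩
  have hp : (u T - (ρ (z T)).1, z T - (ρ (z T)).2) ∈ W := W.sub_mem hmem (hEW (hρE (z T)))
  have k1 : ‖u T - (ρ (z T)).1‖ ≤ h * ‖z T - (ρ (z T)).2‖ := hh _ hp (fun e he => hρo (z T) e he)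
  have k2 : ‖z T - (ρ (z T)).2‖ ≤ ‖z T‖ := by
    have e1 : ⟪z T - (ρ (z T)).2, (ρ (z T)).2⟫_ℝ = 0 := hρo (z T) _ (hρE (z T))
    have e2 : ⟪z T - (ρ (z T)).2, z T⟫_ℝ = ‖z T - (ρ (z T)).2‖ ^ 2 := by
      rw [← real_inner_self_eq_norm_sq, inner_sub_right (z T - (ρ (z T)).2), e1, sub_zero]
    have e3 := real_inner_le_norm (z T - (ρ (z T)).2) (z T)
    rw [e2] at e3
    by_contra hcon
    rw [not_le] at hcon
    nlinarith [norm_nonneg (z T)]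
  have k4 : h ≤ ε := by
    have : ε ^ 4 ≤ ε := by
      have h3 : ε ^ 3 ≤ 1 := pow_le_one₀ hε.le hε1
      nlinarith
    linarith
  have k6 : h * ‖z T - (ρ (z T)).2‖ ≤ ε * ‖z T‖ := by gcongr
  have k7 : ‖u T - v T‖ ≤ ε * ‖z T‖ + ε * (Real.sqrt P4 * J * X ^ 3) := by
    have := norm_sub_le_norm_sub_add_norm_sub (u T) (ρ (z T)).1 (v T)
    rw [norm_sub_rev (ρ (z T)).1] at this
    linarith
  have k8 : ‖z T‖ ≤ Real.sqrt P1 * X := by
    refine abs_le_of_sq_le_sq' ?_ (by positivity) |>.2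
    rw [mul_pow, Real.sq_sqrt hP1]
    refine hzT.trans ?_
    gcongr
    nlinarith
  calc ‖u T - v T‖ * ‖z T‖ ≤ (ε * ‖z T‖ + ε * (Real.sqrt P4 * J * X ^ 3)) * ‖z T‖ := by gcongr
    _ = ε * ‖z T‖ ^ 2 + ε * (Real.sqrt P4 * J * X ^ 3) * ‖z T‖ := by ring
    _ ≤ ε * (P1 * X ^ 4) + ε * (Real.sqrt P4 * J * X ^ 3) * (Real.sqrt P1 * X) := by
        have l1 : P1 * X ≤ P1 * X ^ 4 := by
          have : X ≤ X ^ 4 := by
            calc X = X ^ 1 := (pow_one X).symm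
              _ ≤ X ^ 4 := pow_le_pow_right₀ hX (by norm_num)
          gcongr
        have l2 := hzT.trans l1
        gcongr
    _ = _ := by ring

end

/-- growth of `∂ₜu`, when the form inequality holds outside a set of times which is avoided as long as
the growth is controlled -/
theorem boot_hist (hgr : S_gr) {ν M Φ T0 G c : ℝ} (hν : 0 < ν) (hM : 0 ≤ M) (hΦ : 0 ≤ Φ)
    (hT0 : 0 < T0) (hG : 0 ≤ G) (hc : 0 < c) : ∃ A : ℝ, 0 < A ∧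
  ∀ (H K : Type) [NormedAddCommGroup H] [InnerProductSpace ℝ H] [CompleteSpace H]
    [NormedAddCommGroup K] [InnerProductSpace ℝ K] [CompleteSpace K]
    (W : Submodule ℝ (H × K)) (m : H → K) (B : H → H → K) (C T : ℝ) (F F1 : ℝ → K)
    (u u1 : ℝ → H) (z z1 : ℝ → K) (Λ : ℝ → ℝ) (E : Set ℝ),
    Frame W m C → Univ W m c → Tri W m B →
    0 < T → T ≤ T0 → FH T F F1 → Str W m ν T F u u1 z z1 →
    (∀ t ∈ Icc 0 T, ‖F t‖ ≤ Φ) → (∀ t ∈ Icc 0 T, ‖u t‖ ≤ M) →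
    (∫ s in (0 : ℝ)..T, ‖F1 s‖ ^ 2) ≤ G →
    (∀ t, 0 ≤ Λ t) → ∀ s0 ∈ Ioo 0 T, IntegrableOn Λ (Ioc s0 T) → ∀ a : H, HasDerivAt u a s0 →
    NullMeasurableSet E (volume.restrict (Ioc 0 T)) →
    (∀ᵐ t ∂(volume.restrict (Ioc s0 T)), t ∉ E → ∀ p ∈ W,
        -⟪m p.1, z t⟫_ℝ ≤ 1 / 2 * ν * ‖p.2‖ ^ 2 + Λ t * ‖p.1‖ ^ 2) →
    (∀ᵐ t ∂(volume.restrict (Ioc s0 T)), (∀ᵐ r ∂(volume.restrict (Ioc s0 t)),
      ‖u1 r‖ ≤ 2 * A * (1 + ‖a‖) * Real.exp (∫ s in s0..r, Λ s)) → t ∉ E) →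
    ∀ᵐ t ∂(volume.restrict (Ioc s0 T)),
      ‖u1 t‖ ≤ A * (1 + ‖a‖) * Real.exp (∫ s in s0..t, Λ s) := by
  obtain ⟨A, hA, hgr'⟩ := hgr 0 ν (1 / 2) 0 M Φ T0 G hν (by norm_num) le_rfl hM hΦ hT0 hG
  refine ⟨A, hA, ?_⟩
  intro H K _ _ _ _ _ _ W m B C T F F1 u u1 z z1 Λ E Fr Un Tr hT hTT0 hF S hFb hub hF1
    hΛ0 s0 hs0 hΛi a ha hEm hres hstay
  have hzc : ContinuousOn z (Icc 0 T) := prim_cont S.z1m S.pz
  obtain ⟨Nz, hNz0, hNz⟩ : ∃ Nz : ℝ, 0 ≤ Nz ∧ ∀ t ∈ Icc 0 T, ‖z t‖ ≤ Nz := by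
    obtain ⟨B, hB⟩ := (isCompact_Icc.image_of_continuousOn hzc).isBounded.exists_norm_le
    exact ⟨max B 0, le_max_right _ _, fun t ht => (hB _ ⟨t, ht, rfl⟩).trans (le_max_left _ _)⟩
  set R : ℝ := 27 / 4 * c ^ 4 / ν ^ 3 * Nz ^ 4 with hR
  have hR0 : 0 ≤ R := by positivity
  set Λ1 : ℝ → ℝ := (Ioc s0 T).indicator Λ with hΛ1
  have hΛ10 : ∀ t, 0 ≤ Λ1 t := fun t => indicator_nonneg (fun x _ => hΛ0 x) t
  have hΛ1i : Integrable Λ1 := hΛi.integrable_indicator measurableSet_Ioc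
  have hΛ1e : ∀ t ∈ Icc s0 T, ∫ r in s0..t, Λ1 r = ∫ r in s0..t, Λ r := by
    intro t ht
    refine intervalIntegral.integral_congr_ae (Eventually.of_forall fun r hr => ?_)
    rw [uIoc_of_le ht.1] at hr
    exact indicator_of_mem (show r ∈ Ioc s0 T from ⟨hr.1, hr.2.trans ht.2⟩) _
  have hsubm : (volume.restrict (Ioc s0 T) : Measure ℝ) ≤ volume.restrict (Ioc 0 T) :=
    Measure.restrict_mono (Ioc_subset_Ioc_left hs0.1.le) le_rfl
  set E' : Set ℝ := E ∪ Iic s0 with hE'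
  have hE'm : NullMeasurableSet E' (volume.restrict (Ioc 0 T)) :=
    hEm.union measurableSet_Iic.nullMeasurableSet
  set χ : ℝ → ℝ := E'.indicator (fun _ => (1 : ℝ)) with hχ
  have hχ0 : ∀ t, 0 ≤ χ t := fun t => indicator_nonneg (fun _ _ => zero_le_one) t
  have hχi : IntegrableOn χ (Ioc 0 T) := by
    have h1 : IntegrableOn (fun _ : ℝ => (1 : ℝ)) (Ioc 0 T) := integrableOn_const (by simp)
    exact h1.indicator₀ hE'm
  have hχii : IntervalIntegrable χ volume 0 T := by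
    rwa [intervalIntegrable_iff_integrableOn_Ioc_of_le hT.le]
  set L : ℝ → ℝ := fun t => Λ1 t + R * χ t with hL
  have hL0 : ∀ t, 0 ≤ L t := fun t => add_nonneg (hΛ10 t) (mul_nonneg hR0 (hχ0 t))
  have hLi : IntervalIntegrable L volume 0 T :=
    hΛ1i.intervalIntegrable.add (hχii.const_mul R)
  have hres' : ∀ᵐ t ∂(volume.restrict (Ioc 0 T)), t ∈ Ioc s0 T → (t ∉ E → ∀ p ∈ W,
        -⟪m p.1, z t⟫_ℝ ≤ 1 / 2 * ν * ‖p.2‖ ^ 2 + Λ t * ‖p.1‖ ^ 2) := by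
    rw [ae_restrict_iff' measurableSet_Ioc] at hres
    exact ae_restrict_of_ae hres
  have hform : ∀ᵐ t ∂(volume.restrict (Ioc 0 T)), ∀ p ∈ W,
      (∀ j : Fin 0, ⟪p.1, ((Fin.elim0 j : H × K)).1⟫_ℝ = 0) →
      -⟪m p.1, z t⟫_ℝ ≤ (1 - 1 / 2) * ν * ‖p.2‖ ^ 2 + L t * ‖p.1‖ ^ 2 := by
    filter_upwards [hres', ae_restrict_mem measurableSet_Ioc] with t k2 ht p hp _
    have htI : t ∈ Icc 0 T := Ioc_subset_Icc_self ht
    have e0 : (1 - 1 / 2 : ℝ) * ν * ‖p.2‖ ^ 2 = 1 / 2 * ν * ‖p.2‖ ^ 2 := by ring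
    rw [e0]
    by_cases hts : t ∈ E'
    · have e1 : χ t = 1 := indicator_of_mem hts _
      have e2 : R ≤ L t := by
        simp only [hL, e1, mul_one]
        linarith [hΛ10 t]
      have h1 : -⟪m p.1, z t⟫_ℝ ≤ c * (Real.sqrt ‖p.1‖ * Real.sqrt ‖p.2‖ ^ 3) * Nz := by
        have h2 := abs_real_inner_le_norm (m p.1) (z t)
        have h3 := Un.quart p hp
        have h4 : ‖m p.1‖ * ‖z t‖ ≤ c * (Real.sqrt ‖p.1‖ * Real.sqrt ‖p.2‖ ^ 3) * Nz :=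
          mul_le_mul h3 (hNz t htI) (norm_nonneg _) (by positivity)
        linarith [neg_abs_le ⟪m p.1, z t⟫_ℝ]
      have h5 := young4 (c := c) (N := Nz) hν (norm_nonneg p.1) (norm_nonneg p.2)
      have h6 : R * ‖p.1‖ ^ 2 ≤ L t * ‖p.1‖ ^ 2 := by gcongr
      have h7 : 0 ≤ ν * ‖p.2‖ ^ 2 := by positivity
      linarith
    · have htE : t ∉ E := fun h => hts (Or.inl h)
      have hts0 : s0 < t := by
        by_contra h
        exact hts (Or.inr (not_lt.1 h))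
      have hts' : t ∈ Ioc s0 T := ⟨hts0, ht.2⟩
      have e1 : L t = Λ t := by
        simp only [hL, hχ, hΛ1]
        rw [indicator_of_notMem hts, indicator_of_mem hts']
        ring
      rw [e1]
      exact k2 hts' htE p hp
  have key := hgr' H K W m B C T F F1 u u1 z z1 (fun j => Fin.elim0 j) L Fr Tr
    (fun j => Fin.elim0 j) ⟨fun j => Fin.elim0 j, fun i => Fin.elim0 i⟩ hT hTT0 hF S hFb hub hF1
    hL0 hLi hform s0 hs0 a ha
  have hLe : ∀ t ∈ Icc s0 T, ∫ r in s0..t, L r = (∫ r in s0..t, Λ r)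
      + R * ∫ r in s0..t, E.indicator (fun _ => (1 : ℝ)) r := by
    intro t ht
    have i1 : IntervalIntegrable χ volume s0 t := by
      rw [intervalIntegrable_iff_integrableOn_Ioc_of_le ht.1]
      exact hχi.mono_set (Ioc_subset_Ioc hs0.1.le ht.2)
    have e1 : ∫ r in s0..t, L r = (∫ r in s0..t, Λ1 r) + ∫ r in s0..t, R * χ r :=
      intervalIntegral.integral_add hΛ1i.intervalIntegrable (i1.const_mul R)
    rw [e1, intervalIntegral.integral_const_mul, hΛ1e t ht]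
    congr 2
    refine intervalIntegral.integral_congr_ae (Eventually.of_forall fun r hr => ?_)
    rw [uIoc_of_le ht.1] at hr
    simp only [hχ]
    by_cases hrE : r ∈ E
    · rw [indicator_of_mem (show r ∈ E' from Or.inl hrE), indicator_of_mem hrE]
    · rw [indicator_of_notMem hrE, indicator_of_notMem (fun h => h.elim hrE fun h2 =>
        absurd hr.1 (not_lt.2 h2))]
  have hEi : IntegrableOn (E.indicator (fun _ => (1 : ℝ))) (Ioc s0 T) := by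
    have h1 : IntegrableOn (fun _ : ℝ => (1 : ℝ)) (Ioc s0 T) := integrableOn_const (by simp)
    exact h1.indicator₀ (NullMeasurableSet.mono hEm hsubm)
  have hη : 0 < Real.log 2 / (R + 1) := div_pos (Real.log_pos (by norm_num)) (by positivity)
  -- growth up to the factor `2`
  have h2g : ∀ᵐ t ∂(volume.restrict (Ioc s0 T)),
      (∫ r in s0..t, E.indicator (fun _ => (1 : ℝ)) r) ≤ Real.log 2 / (R + 1) →
      ‖u1 t‖ ≤ 2 * A * (1 + ‖a‖) * Real.exp (∫ s in s0..t, Λ s) := by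
    filter_upwards [key, ae_restrict_mem measurableSet_Ioc] with t kt ht hle
    have htI : t ∈ Icc s0 T := Ioc_subset_Icc_self ht
    rw [hLe t htI, Real.exp_add] at kt
    have h1 : R * ∫ r in s0..t, E.indicator (fun _ => (1 : ℝ)) r ≤ Real.log 2 := by
      calc R * ∫ r in s0..t, E.indicator (fun _ => (1 : ℝ)) r
          ≤ R * (Real.log 2 / (R + 1)) := mul_le_mul_of_nonneg_left hle hR0
        _ ≤ (R + 1) * (Real.log 2 / (R + 1)) := by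
            gcongr
            linarith
        _ = Real.log 2 := by field_simp
    have h2 : Real.exp (R * ∫ r in s0..t, E.indicator (fun _ => (1 : ℝ)) r) ≤ 2 := by
      calc _ ≤ Real.exp (Real.log 2) := Real.exp_le_exp.2 h1
        _ = 2 := Real.exp_log (by norm_num)
    have h4 : 0 ≤ ‖a‖ := norm_nonneg _
    refine kt.trans ?_
    have h5 : A * (1 + ‖a‖) * (Real.exp (∫ r in s0..t, Λ r)
        * Real.exp (R * ∫ r in s0..t, E.indicator (fun _ => (1 : ℝ)) r))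
        ≤ A * (1 + ‖a‖) * (Real.exp (∫ r in s0..t, Λ r) * 2) := by gcongr
    refine h5.trans (le_of_eq ?_)
    ring
  have hst := stay_zero hs0.2.le hη (NullMeasurableSet.mono hEm hsubm) (E := E) (by
    filter_upwards [hstay, ae_restrict_mem measurableSet_Ioc] with t kt ht hle
    refine kt ?_
    have h3 := ae_mono (Measure.restrict_mono (Ioc_subset_Ioc_right ht.2) le_rfl) h2g
    filter_upwards [h3, ae_restrict_mem measurableSet_Ioc] with r h4 hr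
    refine h4 (le_trans ?_ hle)
    rw [intervalIntegral.integral_of_le hr.1.le, intervalIntegral.integral_of_le ht.1.le]
    exact setIntegral_mono_set (hEi.mono_set (Ioc_subset_Ioc_right ht.2))
      (Eventually.of_forall fun x => indicator_nonneg (fun _ _ => zero_le_one) x)
      (Ioc_subset_Ioc_right hr.2).eventuallyLE)
  filter_upwards [key, hst, ae_restrict_mem measurableSet_Ioc] with t kt _ ht
  have htI : t ∈ Icc s0 T := Ioc_subset_Icc_self ht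
  rw [hLe t htI] at kt
  have e : ∫ r in s0..t, E.indicator (fun _ => (1 : ℝ)) r = 0 := by
    rw [intervalIntegral.integral_of_le ht.1.le]
    have h3 := ae_mono (Measure.restrict_mono (Ioc_subset_Ioc_right ht.2) le_rfl) hst
    have h4 : ∀ᵐ r ∂(volume.restrict (Ioc s0 t)), E.indicator (fun _ => (1 : ℝ)) r = 0 := by
      filter_upwards [h3] with r hr
      exact indicator_of_notMem hr _
    rw [integral_congr_ae h4, integral_zero]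
  rw [e, mul_zero, add_zero] at kt
  exact kt

end Pool.Agent.Q62.DN
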