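import Pool.Agent.Q62.DN.Boots

/-!
Galerkin solutions and a singularity, in the abstract frame.
-/

set_option autoImplicit false
set_option linter.unusedSectionVars false

open MeasureTheory Set Filter Topology
open scoped InnerProductSpace

namespace Pool.Agent.Q62.DN

open H772R2.NSR (Frame prim_cont grad_unique ae_deriv_of_prim memLp_ii)
open H772R2.NSG (by_parts ii_of_int int_inner norm_m_le mem_cont)
open Pool.Agent.W795.TQ
open Pool.Agent.W790.TQ (toSt sq_prim)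
open Pool.Agent.W795.ES (Tri Smo S_gr increment limit_state int_sq)

section

variable {H K : Type} [NormedAddCommGroup H] [InnerProductSpace ℝ H] [CompleteSpace H]
  [NormedAddCommGroup K] [InnerProductSpace ℝ K] [CompleteSpace K]
  {W : Submodule ℝ (H × K)} {m : H → K} {B : H → H → K} {C c ν τ : ℝ}
  {F F1 : ℝ → K} {u u1 : ℝ → H} {z z1 : ℝ → K}

omit [CompleteSpace H] [CompleteSpace K] in
theorem ae_end {t Cb : ℝ} (ht : 0 < t) {f : ℝ → ℝ} (hf : ContinuousOn f (Icc 0 t))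
    (h : ∀ᵐ r ∂(volume.restrict (Ioc 0 t)), f r ≤ Cb) : f t ≤ Cb := by
  by_contra hcon
  rw [not_le] at hcon
  have h1 : ∀ᶠ r in 𝓝[Icc 0 t] t, Cb < f r := (hf t ⟨ht.le, le_rfl⟩).eventually_const_lt hcon
  rw [eventually_nhdsWithin_iff, Metric.eventually_nhds_iff] at h1
  obtain ⟨η, hη, h2⟩ := h1
  have h3 : volume (Ioc (max 0 (t - η)) t) = 0 := by
    rw [ae_restrict_iff' measurableSet_Ioc] at h
    refine measure_mono_null (t := {r | ¬ (r ∈ Ioc 0 t → f r ≤ Cb)}) ?_ h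
    intro r hr
    simp only [mem_ofPred_eq, Classical.not_imp, not_le]
    have hr0 : 0 < r := (le_max_left _ _).trans_lt hr.1
    have hr1 : t - η < r := (le_max_right _ _).trans_lt hr.1
    refine ⟨⟨hr0, hr.2⟩, h2 ?_ ⟨hr0.le, hr.2⟩⟩
    rw [Real.dist_eq, abs_of_nonpos (by linarith [hr.2])]
    linarith
  rw [Real.volume_Ioc, ENNReal.ofReal_eq_zero] at h3
  have h4 : max 0 (t - η) < t := max_lt ht (by linarith)
  linarith

/-- the data of a Galerkin approximation with the parameter `ε` -/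
structure Near (W : Submodule ℝ (H × K)) (m : H → K) (ν τ ε : ℝ) (F : ℝ → K) (x0 : H)
    (E : Submodule ℝ (H × K)) (h : ℝ) (Fa : ℝ → K) (v : ℝ → H) (y : ℝ → K) : Prop where
  cl : IsClosed (E : Set (H × K))
  le : E ≤ W
  hh : h ≤ ε ^ 4
  app : ∀ p ∈ W, (∀ e ∈ E, ⟪p.2, e.2⟫_ℝ = 0) → ‖p.1‖ ≤ h * ‖p.2‖
  sol : App E m ν τ Fa v y
  force : ∫ s in (0 : ℝ)..τ, ‖Fa s - F s‖ ^ 2 ≤ ε ^ 2
  init : ‖v 0 - x0‖ ≤ ε

theorem grow_gal (hgr : S_gr) (he2 : S_est2) (Fr : Frame W m C) (U : Univ W m c) (Tr : Tri W m B)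
    (hν : 0 < ν) (hτ : 0 < τ) (hF : FH τ F F1) (hst : ∀ t ∈ Ioo 0 τ, Str W m ν t F u u1 z z1)
    {M Φ : ℝ} (hM : ∀ t ∈ Icc 0 τ, ‖u t‖ ≤ M) (hΦ : ∀ t ∈ Icc 0 τ, ‖F t‖ ≤ Φ)
    {s : ℝ} (hs : s ∈ Ioo 0 τ) {a : H} (ha : HasDerivAt u a s) :
    ∃ Mc : ℝ, ∀ ε, 0 < ε → ε ≤ 1 → ∀ (E : Submodule ℝ (H × K)) (h : ℝ) (Fa : ℝ → K) (v : ℝ → H)
      (y : ℝ → K) (β : ℝ → ℝ), Near W m ν τ ε F (u 0) E h Fa v y → IntegrableOn β (Ioo s τ) →
      (∀ᵐ t ∂(volume.restrict (Ioo s τ)), ‖y t‖ ^ 4 ≤ β t) →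
      27 * c ^ 4 / ν ^ 3 * (∫ t in s..τ, β t) ≤ Real.log (1 / ε) - Mc →
      ∃ Bd : ℝ, 0 < Bd ∧ ∀ T' ∈ Ioo s τ, ∀ᵐ t ∂(volume.restrict (Ioc s T')), ‖u1 t‖ ≤ Bd := by
  have hC := Fr.C0
  have hc := U.c0
  have hM0 : 0 ≤ M := (norm_nonneg _).trans (hM 0 ⟨le_rfl, hτ.le⟩)
  have hΦ0 : 0 ≤ Φ := (norm_nonneg _).trans (hΦ 0 ⟨le_rfl, hτ.le⟩)
  have hF1i : IntegrableOn (fun s => ‖F1 s‖ ^ 2) (Ioc 0 τ) :=
    (memLp_two_iff_integrable_sq_norm hF.memLp.aestronglyMeasurable).mp hF.memLp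
  have hFc : ContinuousOn F (Icc 0 τ) := prim_cont hF.memLp hF.prim
  set G : ℝ := ∫ s in (0 : ℝ)..τ, ‖F1 s‖ ^ 2 with hG
  have hG0 : 0 ≤ G := intervalIntegral.integral_nonneg hτ.le fun s _ => by positivity
  obtain ⟨A, hA, hboot⟩ := boot_hist hgr hν hM0 hΦ0 hτ hG0 hc
  -- the constants before the time `s`
  set T1 : ℝ := (s + τ) / 2 with hT1
  have hsT1 : s < T1 := by simp only [hT1]; linarith [hs.2]
  have hT1τ : T1 < τ := by simp only [hT1]; linarith [hs.2]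
  have S1 := hst T1 ⟨hs.1.trans hsT1, hT1τ⟩
  obtain ⟨N1, hN1⟩ := S1.bd
  set Z1 : ℝ := ∫ r in (0 : ℝ)..s, ‖z1 r‖ ^ 2 with hZ1
  have hZ10 : 0 ≤ Z1 := intervalIntegral.integral_nonneg hs.1.le fun s _ => by positivity
  set Z4 : ℝ := ∫ r in (0 : ℝ)..s, ‖z r‖ ^ 4 with hZ4
  set D : ℝ := 27 / 4 * c ^ 4 / ν ^ 3 with hD
  have hD0 : 0 < D := by positivity
  set P1 : ℝ := Φ ^ 2 / ν ^ 2 + 2 * M / ν with hP1
  have hP10 : 0 ≤ P1 := by positivity
  set P2 : ℝ := τ + 2 / ν * (τ * G) + 14 * c ^ 4 / ν ^ 3 * (τ ^ 2 * P1 ^ 2) with hP2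
  have hP20 : 0 ≤ P2 := by positivity
  set P3 : ℝ := Z1 + P2 / (ν * s) with hP3
  have hs0 := hs.1
  have hP30 : 0 ≤ P3 := by positivity
  set J : ℝ := Real.exp (D * Z4) with hJ
  have hJ0 : 0 ≤ J := (Real.exp_pos _).le
  set X1 : ℝ := 1 + |N1| + 2 * A * (1 + ‖a‖) with hX1
  have hX11 : 1 ≤ X1 := by
    have h1 : 0 ≤ 2 * A * (1 + ‖a‖) := by positivity
    have h2 := abs_nonneg N1
    linarith
  set P5 : ℝ := P1 + Real.sqrt ((1 + ‖z 0‖) ^ 2 + 4 / ν * (1 + 4 * Real.sqrt C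
      * (τ * P1 ^ 2) + C ^ 2 * P3)) * J * Real.sqrt P1 with hP5
  have hP50 : 0 ≤ P5 := by positivity
  set κ : ℝ := ν ^ 2 / (32 * c ^ 2) with hκ
  have hκ0 : 0 < κ := by positivity
  refine ⟨Real.log ((P5 + 1) * X1 ^ 4 / κ), ?_⟩
  intro ε hε hε1 E h Fa v y β N hβ hyβ hcon
  -- the integral of `β`
  set I : ℝ := ∫ t in s..τ, β t with hI
  have hβ0 : ∀ᵐ t ∂(volume.restrict (Ioo s τ)), |β t| = β t := by
    filter_upwards [hyβ] with t ht
    exact abs_of_nonneg (le_trans (by positivity) ht)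
  have hIa : I = ∫ t in Ioo s τ, |β t| := by
    rw [hI, intervalIntegral.integral_of_le hs.2.le, integral_Ioc_eq_integral_Ioo]
    exact (integral_congr_ae hβ0).symm
  have hI0 : 0 ≤ I := by
    rw [hIa]
    exact integral_nonneg fun t => abs_nonneg _
  have hIle : ∀ t, s ≤ t → t < τ → ∫ r in s..t, |β r| ≤ I := by
    intro t h1 h2
    have hsub : Ioc s t ⊆ Ioo s τ := fun r hr => ⟨hr.1, hr.2.trans_lt h2⟩
    rw [intervalIntegral.integral_of_le h1, hIa]
    exact setIntegral_mono_set hβ.abs (Eventually.of_forall fun r => abs_nonneg _)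
      hsub.eventuallyLE
  set X : ℝ := X1 * Real.exp (D * I) with hX
  have hexp1 : 1 ≤ Real.exp (D * I) := Real.one_le_exp (by positivity)
  have hX1X : X1 ≤ X := le_mul_of_one_le_right (by linarith) hexp1
  have hXge : 1 ≤ X := hX11.trans hX1X
  have hX0 : 0 < X := by linarith
  have hsmall : ε * (P5 * X ^ 4) ≤ κ := by
    have e1 : 27 * c ^ 4 / ν ^ 3 = 4 * D := by rw [hD]; ring
    rw [e1] at hcon
    have h1 : Real.log ((P5 + 1) * X1 ^ 4 / κ) + 4 * D * I ≤ Real.log (1 / ε) := by linarith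
    have h2 := Real.exp_le_exp.2 h1
    rw [Real.exp_add, Real.exp_log (by positivity), Real.exp_log (by positivity)] at h2
    have h3 : Real.exp (4 * D * I) = Real.exp (D * I) ^ 4 := by
      rw [← Real.exp_nat_mul]
      congr 1
      push_cast
      ring
    rw [h3] at h2
    have h4 : (P5 + 1) * X ^ 4 / κ ≤ 1 / ε := by
      calc (P5 + 1) * X ^ 4 / κ = (P5 + 1) * X1 ^ 4 / κ * Real.exp (D * I) ^ 4 := by
            rw [hX]; ring
        _ ≤ 1 / ε := h2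
    rw [div_le_div_iff₀ hκ0 hε] at h4
    have h5 : 0 ≤ ε * X ^ 4 := by positivity
    linarith
  refine ⟨A * (1 + ‖a‖) * Real.exp (D * I), by positivity, fun T' hT' => ?_⟩
  have hT'0 : 0 < T' := hs.1.trans hT'.1
  have hT'τ := hT'.2
  have S := hst T' ⟨hT'0, hT'τ⟩
  have hFT : FH T' F F1 :=
    ⟨hF.memLp.mono_measure (Measure.restrict_mono (Ioc_subset_Ioc_right hT'τ.le) le_rfl),
      fun a b ha hab hb => hF.prim a b ha hab (hb.trans hT'τ.le)⟩
  have L := N.sol.mono hT'τ.le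
  have hzc : ContinuousOn z (Icc 0 T') := prim_cont S.z1m S.pz
  have huc : ContinuousOn u (Icc 0 T') := prim_cont S.u1m S.pu
  have hsub' : Ioc s T' ⊆ Ioo s τ := fun r hr => ⟨hr.1, hr.2.trans_lt hT'τ⟩
  set Eb : Set ℝ := {t | κ < ‖u t - v t‖ * ‖z t‖} with hEb
  have hEm : NullMeasurableSet Eb (volume.restrict (Ioc 0 T')) := by
    have h1 : AEStronglyMeasurable u (volume.restrict (Ioc 0 T')) :=
      (huc.mono Ioc_subset_Icc_self).aestronglyMeasurable measurableSet_Ioc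
    have h2 : AEStronglyMeasurable z (volume.restrict (Ioc 0 T')) :=
      (hzc.mono Ioc_subset_Icc_self).aestronglyMeasurable measurableSet_Ioc
    have h3 : AEMeasurable (fun t => ‖u t - v t‖ * ‖z t‖) (volume.restrict (Ioc 0 T')) :=
      ((h1.sub L.meas).norm.mul h2.norm).aemeasurable
    exact nullMeasurableSet_lt aemeasurable_const h3
  have hGle : ∀ t, 0 ≤ t → t ≤ τ → ∫ s in (0 : ℝ)..t, ‖F1 s‖ ^ 2 ≤ G := by
    intro t h1 h2
    rw [hG, intervalIntegral.integral_of_le h1, intervalIntegral.integral_of_le hτ.le]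
    exact setIntegral_mono_set hF1i (Eventually.of_forall fun s => by positivity)
      (Ioc_subset_Ioc_right h2).eventuallyLE
  have hΛi : IntegrableOn (fun t => D * |β t|) (Ioc s T') := (hβ.mono_set hsub').abs.const_mul D
  have hyβ' : ∀ᵐ t ∂(volume.restrict (Ioc s T')), ‖y t‖ ^ 4 ≤ β t :=
    ae_mono (Measure.restrict_mono hsub' le_rfl) hyβ
  have hmemy : ∀ᵐ t ∂(volume.restrict (Ioc s T')), (v t, y t) ∈ E :=
    ae_mono (Measure.restrict_mono (Ioc_subset_Ioc_left hs.1.le) le_rfl) L.mem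
  obtain ⟨Z, St1⟩ := toSt hFT S
  have hweak := St1.deriv_weak Fr hT'0
  have hmain := hboot H K W m B C T' F F1 u u1 z z1 (fun t => D * |β t|) Eb Fr U Tr hT'0 hT'τ.le hFT
    S (fun t ht => hΦ t ⟨ht.1, ht.2.trans hT'τ.le⟩) (fun t ht => hM t ⟨ht.1, ht.2.trans hT'τ.le⟩)
    (hGle T' hT'0.le hT'τ.le) (fun t => by positivity) s ⟨hs.1, hT'.1⟩ hΛi a ha hEm ?_ ?_
  · -- conclusion
    filter_upwards [hmain, ae_restrict_mem measurableSet_Ioc] with t h1 ht
    refine h1.trans ?_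
    have h2 := hIle t ht.1.le (ht.2.trans_lt hT'τ)
    have h3 : ∫ r in s..t, D * |β r| ≤ D * I := by
      rw [intervalIntegral.integral_const_mul]
      gcongr
    gcongr
  · -- the form inequality
    filter_upwards [hyβ', hmemy, ae_restrict_mem measurableSet_Ioc] with t h1 h2 ht htE p hp
    have htI : t ∈ Icc 0 T' := ⟨(hs.1.trans ht.1).le, ht.2⟩
    have hmem := S.mem t htI
    have hgen : ∀ κ' : K, -⟪m p.1, κ'⟫_ℝ ≤ 1 / 4 * ν * ‖p.2‖ ^ 2 + D * ‖κ'‖ ^ 4 * ‖p.1‖ ^ 2 := by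
      intro κ'
      have l1 : -⟪m p.1, κ'⟫_ℝ ≤ c * (Real.sqrt ‖p.1‖ * Real.sqrt ‖p.2‖ ^ 3) * ‖κ'‖ := by
        have l2 := abs_real_inner_le_norm (m p.1) κ'
        have l3 := U.quart _ hp
        have l4 : ‖m p.1‖ * ‖κ'‖ ≤ c * (Real.sqrt ‖p.1‖ * Real.sqrt ‖p.2‖ ^ 3) * ‖κ'‖ :=
          mul_le_mul_of_nonneg_right l3 (norm_nonneg _)
        linarith [neg_abs_le ⟪m p.1, κ'⟫_ℝ]
      exact l1.trans (young4 hν (norm_nonneg _) (norm_nonneg _))
    have hβt : ‖y t‖ ^ 4 ≤ |β t| := h1.trans (le_abs_self _)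
    have h0 : 0 ≤ ν * ‖p.2‖ ^ 2 := by positivity
    rcases le_total ‖z t‖ ‖y t‖ with hzy | hzy
    · have k1 := hgen (z t)
      have k2 : ‖z t‖ ^ 4 ≤ |β t| := (pow_le_pow_left₀ (norm_nonneg _) hzy 4).trans hβt
      have k3 : D * ‖z t‖ ^ 4 * ‖p.1‖ ^ 2 ≤ D * |β t| * ‖p.1‖ ^ 2 := by gcongr
      linarith
    · have hbmem : (u t - v t, z t - y t) ∈ W := W.sub_mem hmem (N.le h2)
      have k1 := hgen (y t)
      have k3 : D * ‖y t‖ ^ 4 * ‖p.1‖ ^ 2 ≤ D * |β t| * ‖p.1‖ ^ 2 := by gcongr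
      have k4 := U.tri p hp _ hbmem
      simp only at k4
      have hEt : ‖u t - v t‖ * ‖z t‖ ≤ κ := not_lt.1 htE
      have k5 : Real.sqrt ‖u t - v t‖ * Real.sqrt ‖z t - y t‖ ≤ ν / (4 * c) := by
        rw [← Real.sqrt_mul (norm_nonneg _)]
        refine Real.sqrt_le_iff.2 ⟨by positivity, ?_⟩
        have k6 : ‖z t - y t‖ ≤ 2 * ‖z t‖ := by
          have := norm_sub_le (z t) (y t)
          linarith
        calc ‖u t - v t‖ * ‖z t - y t‖ ≤ ‖u t - v t‖ * (2 * ‖z t‖) := by gcongr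
          _ = 2 * (‖u t - v t‖ * ‖z t‖) := by ring
          _ ≤ 2 * κ := by gcongr
          _ = (ν / (4 * c)) ^ 2 := by rw [hκ]; field_simp; norm_num
      have k7 : c * (‖p.2‖ ^ 2 * (Real.sqrt ‖u t - v t‖ * Real.sqrt ‖z t - y t‖))
          ≤ 1 / 4 * ν * ‖p.2‖ ^ 2 := by
        calc c * (‖p.2‖ ^ 2 * (Real.sqrt ‖u t - v t‖ * Real.sqrt ‖z t - y t‖))
            ≤ c * (‖p.2‖ ^ 2 * (ν / (4 * c))) := by gcongr
          _ = 1 / 4 * ν * ‖p.2‖ ^ 2 := by field_simp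
      have e2 : ⟪m p.1, z t⟫_ℝ = ⟪m p.1, y t⟫_ℝ + ⟪m p.1, z t - y t⟫_ℝ := by
        rw [inner_sub_right]; ring
      rw [e2]
      linarith [neg_abs_le ⟪m p.1, z t - y t⟫_ℝ]
  · -- the set of bad times is avoided
    have hest := he2 H K W m C c ν T' F F1 u u1 z z1 Fr U hν hT'0 hFT S 0 ⟨le_rfl, hT'0⟩
    have hest' := ae_mono (Measure.restrict_mono (Ioc_subset_Ioc_left hs.1.le) le_rfl) hest
    have hweak' := ae_mono (Measure.restrict_mono (Ioc_subset_Ioc_left hs.1.le) le_rfl) hweak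
    have hbd' : ∀ᵐ r ∂(volume.restrict (Ioc 0 s)), ‖u1 r‖ ≤ N1 :=
      ae_mono (Measure.restrict_mono (Ioc_subset_Ioc_right hsT1.le) le_rfl) hN1
    filter_upwards [hest', ae_restrict_mem measurableSet_Ioc] with t k1 ht hhist
    have ht0 : 0 < t := hs.1.trans ht.1
    have htτ : t ≤ τ := ht.2.trans hT'τ.le
    have htI : t ∈ Icc 0 T' := ⟨ht0.le, ht.2⟩
    simp only [sub_zero] at k1
    have hsubt : (volume.restrict (Ioc 0 t) : Measure ℝ) ≤ volume.restrict (Ioc 0 T') :=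
      Measure.restrict_mono (Ioc_subset_Ioc_right ht.2) le_rfl
    have hIt := hIle t ht.1.le (ht.2.trans_lt hT'τ)
    -- the bound of the time derivative
    have hu1 : ∀ᵐ r ∂(volume.restrict (Ioc 0 t)), ‖u1 r‖ ≤ X := by
      rw [ae_restrict_iff' measurableSet_Ioc] at hbd' hhist ⊢
      filter_upwards [hbd', hhist] with r l1 l2 hr
      rcases le_or_gt r s with hrs | hrs
      · have l3 := l1 ⟨hr.1, hrs⟩
        have l4 : N1 ≤ X1 := by
          have h1 : 0 ≤ 2 * A * (1 + ‖a‖) := by positivity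
          have h2 := le_abs_self N1
          linarith
        linarith
      · have l3 := l2 ⟨hrs, hr.2⟩
        refine l3.trans ?_
        have l4 : ∫ x in s..r, D * |β x| ≤ D * I := by
          rw [intervalIntegral.integral_const_mul]
          have := hIle r hrs.le (hr.2.trans_lt (ht.2.trans_lt hT'τ))
          gcongr
        have l5 : 2 * A * (1 + ‖a‖) ≤ X1 := by
          have h2 := abs_nonneg N1
          linarith
        rw [hX]
        have l6 := Real.exp_le_exp.2 l4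
        exact mul_le_mul l5 l6 (Real.exp_pos _).le (by linarith)
    have hz : ∀ᵐ r ∂(volume.restrict (Ioc 0 t)), ‖z r‖ ^ 2 ≤ P1 * X := by
      filter_upwards [hu1, ae_mono hsubt hweak, ae_restrict_mem measurableSet_Ioc] with r l1 l2 hr
      have hrI : r ∈ Icc 0 T' := ⟨hr.1.le, hr.2.trans ht.2⟩
      have l3 := z_le Fr hν (S.mem r hrI) l2 (hM r ⟨hrI.1, hrI.2.trans hT'τ.le⟩)
        (hΦ r ⟨hrI.1, hrI.2.trans hT'τ.le⟩)
      refine l3.trans ?_
      have l4 : Φ ^ 2 / ν ^ 2 ≤ Φ ^ 2 / ν ^ 2 * X := le_mul_of_one_le_right (by positivity) hXge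
      have l5 : 2 * M * ‖u1 r‖ / ν ≤ 2 * M * X / ν := by gcongr
      have l6 : P1 * X = Φ ^ 2 / ν ^ 2 * X + 2 * M * X / ν := by rw [hP1]; ring
      linarith
    have hzt : ‖z t‖ ^ 2 ≤ P1 * X :=
      ae_end ht0 ((hzc.mono (Icc_subset_Icc_right ht.2)).norm.pow 2) hz
    -- the gradient of the time derivative
    have hz1I : Integrable (fun r => ‖z1 r‖ ^ 2) (volume.restrict (Ioc 0 T')) :=
      (memLp_two_iff_integrable_sq_norm S.z1m.aestronglyMeasurable).mp S.z1m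
    have hu1I : Integrable (fun r => ‖u1 r‖ ^ 2) (volume.restrict (Ioc 0 T')) :=
      (memLp_two_iff_integrable_sq_norm S.u1m.aestronglyMeasurable).mp S.u1m
    have hX24 : X ^ 2 ≤ X ^ 4 := pow_le_pow_right₀ hXge (by norm_num)
    have hX04 : 1 ≤ X ^ 4 := one_le_pow₀ hXge
    have q1 : ∫ r in (0 : ℝ)..t, ‖u1 r‖ ^ 2 ≤ τ * X ^ 4 := by
      have e1 : ∫ r in (0 : ℝ)..t, ‖u1 r‖ ^ 2 ≤ ∫ r in (0 : ℝ)..t, X ^ 2 := by
        refine intervalIntegral.integral_mono_ae_restrict ht0.le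
          (ii_of_int hu1I le_rfl ht0.le ht.2) intervalIntegrable_const ?_
        rw [Filter.EventuallyLE, ← restrict_Ioc_eq_restrict_Icc]
        filter_upwards [hu1] with r hr
        exact pow_le_pow_left₀ (norm_nonneg _) hr 2
      rw [intervalIntegral.integral_const, smul_eq_mul, sub_zero] at e1
      refine e1.trans ?_
      gcongr
    have hru : IntervalIntegrable (fun r => r * (‖u1 r‖ ^ 2 * ‖z r‖ ^ 4)) volume 0 t := by
      have h1 : IntervalIntegrable (fun r => ‖u1 r‖ ^ 2) volume 0 t :=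
        ii_of_int hu1I le_rfl ht0.le ht.2
      have h2 : ContinuousOn (fun r : ℝ => r * ‖z r‖ ^ 4) (uIcc 0 t) := by
        rw [uIcc_of_le ht0.le]
        exact continuousOn_id.mul ((hzc.mono (Icc_subset_Icc_right ht.2)).norm.pow 4)
      refine (h1.mul_continuousOn h2).congr (fun r _ => ?_)
      ring
    have q2 : ∫ r in (0 : ℝ)..t, r * (‖u1 r‖ ^ 2 * ‖z r‖ ^ 4) ≤ τ ^ 2 * P1 ^ 2 * X ^ 4 := by
      have e1 : ∫ r in (0 : ℝ)..t, r * (‖u1 r‖ ^ 2 * ‖z r‖ ^ 4)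
          ≤ ∫ r in (0 : ℝ)..t, τ * (X ^ 2 * (P1 * X) ^ 2) := by
        refine intervalIntegral.integral_mono_ae_restrict ht0.le hru intervalIntegrable_const ?_
        rw [Filter.EventuallyLE, ← restrict_Ioc_eq_restrict_Icc]
        filter_upwards [hu1, hz, ae_restrict_mem measurableSet_Ioc] with r l1 l2 hr
        have l3 : ‖z r‖ ^ 4 ≤ (P1 * X) ^ 2 := by
          calc ‖z r‖ ^ 4 = (‖z r‖ ^ 2) ^ 2 := by ring
            _ ≤ _ := pow_le_pow_left₀ (by positivity) l2 2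
        have l4 : r ≤ τ := hr.2.trans htτ
        have l5 : ‖u1 r‖ ^ 2 ≤ X ^ 2 := pow_le_pow_left₀ (norm_nonneg _) l1 2
        gcongr
      rw [intervalIntegral.integral_const, smul_eq_mul, sub_zero] at e1
      refine e1.trans ?_
      calc t * (τ * (X ^ 2 * (P1 * X) ^ 2)) ≤ τ * (τ * (X ^ 2 * (P1 * X) ^ 2)) := by gcongr
        _ = τ ^ 2 * P1 ^ 2 * X ^ 4 := by ring
    have hrz : IntervalIntegrable (fun r => r * ‖z1 r‖ ^ 2) volume 0 t := by
      have h1 : IntervalIntegrable (fun r => ‖z1 r‖ ^ 2) volume 0 t :=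
        ii_of_int hz1I le_rfl ht0.le ht.2
      refine (h1.mul_continuousOn (continuousOn_id)).congr (fun r _ => ?_)
      simp only [id]
      ring
    have q3 : ν * ∫ r in (0 : ℝ)..t, r * ‖z1 r‖ ^ 2 ≤ P2 * X ^ 4 := by
      have e1 : 0 ≤ t * ‖u1 t‖ ^ 2 := by positivity
      have e2 : 2 / ν * (T' * ∫ s in (0 : ℝ)..T', ‖F1 s‖ ^ 2) ≤ 2 / ν * (τ * G) * X ^ 4 := by
        have h1 := hGle T' hT'0.le hT'τ.le
        have h2 : 0 ≤ ∫ s in (0 : ℝ)..T', ‖F1 s‖ ^ 2 :=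
          intervalIntegral.integral_nonneg hT'0.le fun s _ => by positivity
        calc 2 / ν * (T' * ∫ s in (0 : ℝ)..T', ‖F1 s‖ ^ 2) ≤ 2 / ν * (τ * G) := by gcongr
          _ ≤ 2 / ν * (τ * G) * X ^ 4 := le_mul_of_one_le_right (by positivity) hX04
      have e3 : 14 * c ^ 4 / ν ^ 3 * (∫ r in (0 : ℝ)..t, r * (‖u1 r‖ ^ 2 * ‖z r‖ ^ 4))
          ≤ 14 * c ^ 4 / ν ^ 3 * (τ ^ 2 * P1 ^ 2 * X ^ 4) := by gcongr
      have e4 : P2 * X ^ 4 = τ * X ^ 4 + 2 / ν * (τ * G) * X ^ 4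
          + 14 * c ^ 4 / ν ^ 3 * (τ ^ 2 * P1 ^ 2 * X ^ 4) := by rw [hP2]; ring
      linarith
    have q4 : ∫ r in (0 : ℝ)..t, ‖z1 r‖ ^ 2 ≤ P3 * X ^ 4 := by
      have i1 : IntervalIntegrable (fun r => ‖z1 r‖ ^ 2) volume 0 s :=
        ii_of_int hz1I le_rfl hs.1.le hT'.1.le
      have i2 : IntervalIntegrable (fun r => ‖z1 r‖ ^ 2) volume s t :=
        ii_of_int hz1I hs.1.le ht.1.le ht.2
      have e1 := intervalIntegral.integral_add_adjacent_intervals i1 i2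
      have i3 : IntervalIntegrable (fun r => r * ‖z1 r‖ ^ 2) volume 0 s :=
        hrz.mono_set (by
          rw [uIcc_of_le hs.1.le, uIcc_of_le ht0.le]
          exact Icc_subset_Icc_right ht.1.le)
      have i4 : IntervalIntegrable (fun r => r * ‖z1 r‖ ^ 2) volume s t :=
        hrz.mono_set (by
          rw [uIcc_of_le ht.1.le, uIcc_of_le ht0.le]
          exact Icc_subset_Icc_left hs.1.le)
      have e2 := intervalIntegral.integral_add_adjacent_intervals i3 i4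
      have e3 : 0 ≤ ∫ r in (0 : ℝ)..s, r * ‖z1 r‖ ^ 2 :=
        intervalIntegral.integral_nonneg hs.1.le fun r hr => by
          have := hr.1
          positivity
      have e4 : s * (∫ r in s..t, ‖z1 r‖ ^ 2) ≤ ∫ r in s..t, r * ‖z1 r‖ ^ 2 := by
        rw [← intervalIntegral.integral_const_mul]
        refine intervalIntegral.integral_mono_on ht.1.le (i2.const_mul s) i4 fun r hr => ?_
        have := hr.1
        gcongr
      have e5 : ν * (s * ∫ r in s..t, ‖z1 r‖ ^ 2) ≤ P2 * X ^ 4 := by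
        refine le_trans ?_ q3
        gcongr
        linarith
      have e6 : ∫ r in s..t, ‖z1 r‖ ^ 2 ≤ P2 * X ^ 4 / (ν * s) := by
        rw [le_div_iff₀ (by positivity)]
        linarith
      have e7 : Z1 ≤ Z1 * X ^ 4 := le_mul_of_one_le_right hZ10 hX04
      have e8 : P3 * X ^ 4 = Z1 * X ^ 4 + P2 * X ^ 4 / (ν * s) := by rw [hP3]; ring
      linarith
    -- the Gronwall exponent
    set g : ℝ → ℝ := fun r => if r ≤ s then D * ‖z r‖ ^ 4 else D * |β r| with hg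
    have hg0 : ∀ r, 0 ≤ g r := fun r => by
      simp only [hg]
      split_ifs <;> positivity
    have i1 : IntervalIntegrable (fun r => D * ‖z r‖ ^ 4) volume 0 s := by
      refine ContinuousOn.intervalIntegrable ?_
      rw [uIcc_of_le hs.1.le]
      exact continuousOn_const.mul ((hzc.mono (Icc_subset_Icc_right hT'.1.le)).norm.pow 4)
    have i2 : IntervalIntegrable (fun r => D * |β r|) volume s t := by
      rw [intervalIntegrable_iff_integrableOn_Ioc_of_le ht.1.le]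
      exact hΛi.mono_set (Ioc_subset_Ioc_right ht.2)
    have c1 : ∀ r ∈ uIoc 0 s, D * ‖z r‖ ^ 4 = g r := by
      intro r hr
      rw [uIoc_of_le hs.1.le] at hr
      simp only [hg]
      rw [if_pos hr.2]
    have c2 : ∀ r ∈ uIoc s t, D * |β r| = g r := by
      intro r hr
      rw [uIoc_of_le ht.1.le] at hr
      simp only [hg]
      rw [if_neg (not_le.2 hr.1)]
    have j1 : IntervalIntegrable g volume 0 s := i1.congr c1
    have j2 : IntervalIntegrable g volume s t := i2.congr c2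
    have hgint : ∫ r in (0 : ℝ)..t, g r = D * Z4 + ∫ r in s..t, D * |β r| := by
      rw [← intervalIntegral.integral_add_adjacent_intervals j1 j2]
      congr 1
      · rw [hZ4, ← intervalIntegral.integral_const_mul]
        exact intervalIntegral.integral_congr_ae
          (Eventually.of_forall fun r hr => (c1 r hr).symm)
      · exact intervalIntegral.integral_congr_ae
          (Eventually.of_forall fun r hr => (c2 r hr).symm)
    have hgexp : Real.exp (∫ r in (0 : ℝ)..t, g r) ≤ J * X := by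
      rw [hgint, Real.exp_add]
      have l4 : ∫ x in s..t, D * |β x| ≤ D * I := by
        rw [intervalIntegral.integral_const_mul]
        gcongr
      have l5 : Real.exp (∫ x in s..t, D * |β x|) ≤ X := by
        refine (Real.exp_le_exp.2 l4).trans ?_
        exact le_mul_of_one_le_left (Real.exp_pos _).le hX11
      exact mul_le_mul_of_nonneg_left l5 (Real.exp_pos _).le
    have hgc : ∀ᵐ r ∂(volume.restrict (Ioc 0 t)),
        27 / 4 * c ^ 4 / ν ^ 3 * ‖z r‖ ^ 4 ≤ g r ∨ 27 / 4 * c ^ 4 / ν ^ 3 * ‖y r‖ ^ 4 ≤ g r := by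
      have h1 : ∀ᵐ r ∂(volume.restrict (Ioc s t)), ‖y r‖ ^ 4 ≤ β r :=
        ae_mono (Measure.restrict_mono (Ioc_subset_Ioc_right ht.2) le_rfl) hyβ'
      rw [ae_restrict_iff' measurableSet_Ioc] at h1 ⊢
      filter_upwards [h1] with r l1 hr
      rcases le_or_gt r s with hrs | hrs
      · left
        simp only [hg]
        rw [if_pos hrs]
      · right
        simp only [hg]
        rw [if_neg (not_le.2 hrs)]
        have l2 : ‖y r‖ ^ 4 ≤ |β r| := (l1 ⟨hrs, hr.2⟩).trans (le_abs_self _)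
        gcongr
    have hFt : FH t F F1 :=
      ⟨hF.memLp.mono_measure (Measure.restrict_mono (Ioc_subset_Ioc_right htτ) le_rfl),
        fun a b ha hab hb => hF.prim a b ha hab (hb.trans htτ)⟩
    have hFat : ∫ r in (0 : ℝ)..t, ‖Fa r - F r‖ ^ 2 ≤ ε ^ 2 := by
      refine le_trans ?_ N.force
      have h1 := N.sol.F2.sub (mem_cont (p := 2) hFc)
      have h2 : IntegrableOn (fun r => ‖Fa r - F r‖ ^ 2) (Ioc 0 τ) :=
        (memLp_two_iff_integrable_sq_norm h1.aestronglyMeasurable).mp h1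
      rw [intervalIntegral.integral_of_le ht0.le, intervalIntegral.integral_of_le hτ.le]
      exact setIntegral_mono_set h2 (Eventually.of_forall fun r => by positivity)
        (Ioc_subset_Ioc_right htτ).eventuallyLE
    have hfin := small_dist Fr U hν N.le ht0 N.cl hFt (S.mono ht.2) (N.sol.mono htτ) N.hh hε hε1
      N.app hFat N.init hg0 (j1.trans j2) hgc hXge hP10 hP30 htτ hz hzt q4 hgexp hJ0
    show ¬ κ < ‖u t - v t‖ * ‖z t‖
    rw [not_lt]
    exact hfin.trans hsmall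

end

end Pool.Agent.Q62.DN
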