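import Pool.Agent.Q62.DN.Ritz

/-!
The distance of Galerkin solutions from a strong solution.
-/

set_option autoImplicit false
set_option linter.unusedSectionVars false

open MeasureTheory Set Filter Topology
open scoped InnerProductSpace

namespace Pool.Agent.Q62.DN

open H772R2.NSR (Frame prim_cont grad_unique ae_deriv_of_prim memLp_ii)
open H772R2.NSG (by_parts ii_of_int int_inner norm_m_le mem_cont)
open Pool.Agent.W795.TQ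
open Pool.Agent.W790.TQ (toSt sq_prim)
open Pool.Agent.W918.ES (gronL1)

theorem gron_meas {T k : ℝ} (hT : 0 ≤ T) {y g : ℝ → ℝ} (hg : IntervalIntegrable g volume 0 T)
    (hg0 : ∀ s, 0 ≤ g s) (hgy : IntervalIntegrable (fun s => g s * y s) volume 0 T)
    (h : ∀ t ∈ Icc 0 T, y t ≤ k + ∫ s in (0 : ℝ)..t, g s * y s) :
    y T ≤ k * Real.exp (∫ s in (0 : ℝ)..T, g s) := by
  set Y : ℝ → ℝ := fun t => k + ∫ s in (0 : ℝ)..t, g s * y s with hY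
  have hYc : ContinuousOn Y (Icc 0 T) := by
    have := intervalIntegral.continuousOn_primitive_interval' (f := fun s => g s * y s)
      (μ := volume) (a := 0) (b₁ := 0) (b₂ := T) hgy left_mem_uIcc
    rw [uIcc_of_le hT] at this
    exact continuousOn_const.add this
  have h1 : ∀ t ∈ Icc 0 T, Y t ≤ k + ∫ s in (0 : ℝ)..t, g s * Y s := by
    intro t ht
    have hsub : uIcc 0 t ⊆ uIcc 0 T := by
      rw [uIcc_of_le ht.1, uIcc_of_le hT]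
      exact Icc_subset_Icc_right ht.2
    have e1 : ∫ s in (0 : ℝ)..t, g s * y s ≤ ∫ s in (0 : ℝ)..t, g s * Y s := by
      refine intervalIntegral.integral_mono_on ht.1 (hgy.mono_set hsub)
        ((hg.mono_set hsub).mul_continuousOn ?_) fun s hs => ?_
      · rw [uIcc_of_le ht.1]
        exact hYc.mono (Icc_subset_Icc_right ht.2)
      · exact mul_le_mul_of_nonneg_left (h s ⟨hs.1, hs.2.trans ht.2⟩) (hg0 s)
    simp only [hY] at e1 ⊢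
    linarith
  exact (h T ⟨hT, le_rfl⟩).trans (gronL1 hT hYc hg hg0 h1)

section

variable {H K : Type} [NormedAddCommGroup H] [InnerProductSpace ℝ H] [CompleteSpace H]
  [NormedAddCommGroup K] [InnerProductSpace ℝ K] [CompleteSpace K]
  {W E : Submodule ℝ (H × K)} {m : H → K} {C c ν : ℝ}
  {T : ℝ} {F F1 Fa : ℝ → K} {u u1 v : ℝ → H} {z z1 y : ℝ → K}

theorem App.bdd (hν : 0 < ν) (hT : 0 ≤ T) (L : App E m ν T Fa v y) :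
    ∃ M, 0 ≤ M ∧ ∀ t ∈ Icc 0 T, ‖v t‖ ≤ M := by
  have hi := int_inner L.F2 L.z2
  set I := ∫ s in (0 : ℝ)..T, |⟪Fa s, y s⟫_ℝ| with hI
  refine ⟨Real.sqrt (‖v 0‖ ^ 2 + 2 * I), Real.sqrt_nonneg _, fun t ht => ?_⟩
  refine Real.le_sqrt_of_sq_le ?_
  have h1 := L.energy t ht
  have h2 : 0 ≤ ν * ∫ s in (0 : ℝ)..t, ‖y s‖ ^ 2 :=
    mul_nonneg hν.le (intervalIntegral.integral_nonneg ht.1 fun s _ => by positivity)
  have h3 : ∫ s in (0 : ℝ)..t, ⟪Fa s, y s⟫_ℝ ≤ I := by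
    have a1 : ∫ s in (0 : ℝ)..t, ⟪Fa s, y s⟫_ℝ ≤ ∫ s in (0 : ℝ)..t, |⟪Fa s, y s⟫_ℝ| :=
      intervalIntegral.integral_mono_on ht.1 (ii_of_int hi le_rfl ht.1 ht.2)
        (ii_of_int hi.abs le_rfl ht.1 ht.2) fun s _ => le_abs_self _
    refine a1.trans ?_
    rw [hI, intervalIntegral.integral_of_le ht.1, intervalIntegral.integral_of_le hT]
    exact setIntegral_mono_set hi.abs (Eventually.of_forall fun s => abs_nonneg _)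
      (Ioc_subset_Ioc_right ht.2).eventuallyLE
  linarith

/-- the pointwise estimate -/
theorem pt_est (Fr : Frame W m C) (U : Univ W m c) (hν : 0 < ν) (hEW : E ≤ W)
    {ρ : K →L[ℝ] (H × K)} (hρE : ∀ κ, ρ κ ∈ E) (hρo : ∀ κ, ∀ e ∈ E, ⟪κ - (ρ κ).2, e.2⟫_ℝ = 0)
    (hρn : ∀ κ, ‖(ρ κ).2‖ ≤ ‖κ‖) {h ε : ℝ} (hhε : h ≤ ε ^ 4) (hε : 0 < ε)
    (hε1 : ε ≤ 1) (hh : ∀ p ∈ W, (∀ e ∈ E, ⟪p.2, e.2⟫_ℝ = 0) → ‖p.1‖ ≤ h * ‖p.2‖)
    {u u1 v : H} {z z1 y f : K} {g : ℝ} (hu : (u, z) ∈ W) (hu1 : (u1, z1) ∈ W) (hv : (v, y) ∈ E)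
    (hg : 27 / 4 * c ^ 4 / ν ^ 3 * ‖z‖ ^ 4 ≤ g ∨ 27 / 4 * c ^ 4 / ν ^ 3 * ‖y‖ ^ 4 ≤ g) :
    ⟪f, y - (ρ z).2⟫_ℝ + ⟪m v - m u, y - (ρ z).2⟫_ℝ + ⟪v - (ρ z).1, u1 - (ρ z1).1⟫_ℝ
        - ν * ‖y - (ρ z).2‖ ^ 2
      ≤ 2 / ν * (‖f‖ ^ 2 + 4 * Real.sqrt C * ε ^ 2 * ‖z‖ ^ 4 + C ^ 2 * ε ^ 2 * ‖z1‖ ^ 2)
        + g * ‖v - (ρ z).1‖ ^ 2 := by
  have hC := Fr.C0
  have hc := U.c0
  set a := (ρ z).1 with ha
  set ζ := (ρ z).2 with hζ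
  have haE : (a, ζ) ∈ E := hρE z
  have hw : (v - a, y - ζ) ∈ E := E.sub_mem hv haE
  set w := v - a with hwd
  set zw := y - ζ with hzw
  -- the general Young inequality
  have young : ∀ x r : ℝ, x * r ≤ 2 / ν * x ^ 2 + ν / 8 * r ^ 2 := by
    intro x r
    have h1 : 0 ≤ (4 * x - ν * r) ^ 2 / (8 * ν) := by positivity
    have h2 : (4 * x - ν * r) ^ 2 / (8 * ν) = 2 / ν * x ^ 2 + ν / 8 * r ^ 2 - x * r := by
      field_simp; ring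
    linarith
  have h1 : ⟪f, zw⟫_ℝ ≤ 2 / ν * ‖f‖ ^ 2 + ν / 8 * ‖zw‖ ^ 2 :=
    (real_inner_le_norm _ _).trans (young _ _)
  -- the time derivative
  have h3 : ⟪w, u1 - (ρ z1).1⟫_ℝ ≤ 2 / ν * (C ^ 2 * ε ^ 2 * ‖z1‖ ^ 2) + ν / 8 * ‖zw‖ ^ 2 := by
    have hp : (u1 - (ρ z1).1, z1 - (ρ z1).2) ∈ W := W.sub_mem hu1 (hEW (hρE z1))
    have k1 : ‖u1 - (ρ z1).1‖ ≤ h * ‖z1 - (ρ z1).2‖ := hh _ hp (fun e he => hρo z1 e he)
    have k2 : ‖z1 - (ρ z1).2‖ ≤ ‖z1‖ := by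
      have e1 : ⟪z1 - (ρ z1).2, (ρ z1).2⟫_ℝ = 0 := hρo z1 _ (hρE z1)
      have e2 : ⟪z1 - (ρ z1).2, z1⟫_ℝ = ‖z1 - (ρ z1).2‖ ^ 2 := by
        rw [← real_inner_self_eq_norm_sq, inner_sub_right (z1 - (ρ z1).2), e1, sub_zero]
      have e3 := real_inner_le_norm (z1 - (ρ z1).2) z1
      rw [e2] at e3
      by_contra hcon
      rw [not_le] at hcon
      nlinarith [norm_nonneg z1]
    have k3 : ‖w‖ ≤ C * ‖zw‖ := Fr.poinc _ (hEW hw)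
    have k4 : h ≤ ε := by
      have : ε ^ 4 ≤ ε := by
        have h3 : ε ^ 3 ≤ 1 := pow_le_one₀ hε.le hε1
        nlinarith
      linarith
    have k5 : ⟪w, u1 - (ρ z1).1⟫_ℝ ≤ (C * ε * ‖z1‖) * ‖zw‖ := by
      refine (real_inner_le_norm _ _).trans ?_
      calc ‖w‖ * ‖u1 - (ρ z1).1‖ ≤ (C * ‖zw‖) * (ε * ‖z1‖) := by
            have : h * ‖z1 - (ρ z1).2‖ ≤ ε * ‖z1‖ := by gcongr
            exact mul_le_mul k3 (k1.trans this) (norm_nonneg _) (by positivity)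
        _ = (C * ε * ‖z1‖) * ‖zw‖ := by ring
    have k6 := young (C * ε * ‖z1‖) ‖zw‖
    have e : 2 / ν * (C * ε * ‖z1‖) ^ 2 = 2 / ν * (C ^ 2 * ε ^ 2 * ‖z1‖ ^ 2) := by ring
    linarith
  -- the nonlinear term
  have han : ⟪m v - m a, zw⟫_ℝ = -⟪m w, ζ⟫_ℝ := Fr.anti _ (hEW hv) _ (hEW haE)
  have hsplit : ⟪m v - m u, zw⟫_ℝ = -⟪m w, ζ⟫_ℝ + ⟪m a - m u, zw⟫_ℝ := by
    rw [← han]
    simp only [inner_sub_left]
    ring
  have horth : ⟪m w, zw⟫_ℝ = 0 := Fr.ortho _ (hEW hw)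
  have h4 : -⟪m w, ζ⟫_ℝ ≤ 1 / 4 * ν * ‖zw‖ ^ 2 + g * ‖w‖ ^ 2 := by
    have aux : ∀ κ : K, ⟪m w, ζ⟫_ℝ = ⟪m w, κ⟫_ℝ → 27 / 4 * c ^ 4 / ν ^ 3 * ‖κ‖ ^ 4 ≤ g →
        -⟪m w, ζ⟫_ℝ ≤ 1 / 4 * ν * ‖zw‖ ^ 2 + g * ‖w‖ ^ 2 := by
      intro κ hκ hκg
      rw [hκ]
      have l1 : -⟪m w, κ⟫_ℝ ≤ c * (Real.sqrt ‖w‖ * Real.sqrt ‖zw‖ ^ 3) * ‖κ‖ := by
        have l2 := abs_real_inner_le_norm (m w) κ
        have l3 := U.quart _ (hEW hw)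
        have l4 : ‖m w‖ * ‖κ‖ ≤ c * (Real.sqrt ‖w‖ * Real.sqrt ‖zw‖ ^ 3) * ‖κ‖ :=
          mul_le_mul_of_nonneg_right l3 (norm_nonneg _)
        linarith [neg_abs_le ⟪m w, κ⟫_ℝ]
      have l5 := young4 (c := c) (N := ‖κ‖) hν (norm_nonneg w) (norm_nonneg zw)
      have l6 : 27 / 4 * c ^ 4 / ν ^ 3 * ‖κ‖ ^ 4 * ‖w‖ ^ 2 ≤ g * ‖w‖ ^ 2 := by gcongr
      linarith
    rcases hg with hg | hg
    · refine aux ζ rfl ?_
      have : ‖ζ‖ ^ 4 ≤ ‖z‖ ^ 4 := pow_le_pow_left₀ (norm_nonneg _) (hρn z) 4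
      have h0 : 0 ≤ 27 / 4 * c ^ 4 / ν ^ 3 := by positivity
      exact (mul_le_mul_of_nonneg_left this h0).trans hg
    · refine aux y ?_ hg
      have e : y = ζ + zw := by rw [hzw]; abel
      rw [e, inner_add_right, horth, add_zero]
  have h5 : ⟪m a - m u, zw⟫_ℝ ≤ 2 / ν * (4 * Real.sqrt C * ε ^ 2 * ‖z‖ ^ 4) + ν / 8 * ‖zw‖ ^ 2 := by
    have hp : (u - a, z - ζ) ∈ W := W.sub_mem hu (hEW haE)
    have k1 : ‖u - a‖ ≤ h * ‖z - ζ‖ := hh _ hp (fun e he => hρo z e he)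
    have k2 : ‖z - ζ‖ ≤ ‖z‖ := by
      have e1 : ⟪z - ζ, ζ⟫_ℝ = 0 := hρo z _ (hρE z)
      have e2 : ⟪z - ζ, z⟫_ℝ = ‖z - ζ‖ ^ 2 := by
        rw [← real_inner_self_eq_norm_sq, inner_sub_right (z - ζ), e1, sub_zero]
      have e3 := real_inner_le_norm (z - ζ) z
      rw [e2] at e3
      by_contra hcon
      rw [not_le] at hcon
      nlinarith [norm_nonneg z]
    have k3 := Fr.lips _ hu _ (hEW haE)
    simp only at k3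
    have k4 : ‖m u - m a‖ ^ 4 ≤ (4 * Real.sqrt C * ε ^ 2 * ‖z‖ ^ 4) ^ 2 := by
      refine k3.trans ?_
      have l1 : ‖u - a‖ * ‖z - ζ‖ ^ 3 ≤ (ε ^ 4 * ‖z‖) * ‖z‖ ^ 3 := by
        have : h * ‖z - ζ‖ ≤ ε ^ 4 * ‖z‖ := by gcongr
        exact mul_le_mul (k1.trans this) (pow_le_pow_left₀ (norm_nonneg _) k2 3) (by positivity)
          (by positivity)
      have l2 : (‖z‖ + ‖ζ‖) ^ 4 ≤ (2 * ‖z‖) ^ 4 := by
        have := hρn z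
        refine pow_le_pow_left₀ (by positivity) (by linarith) 4
      calc C * (‖u - a‖ * ‖z - ζ‖ ^ 3 * (‖z‖ + ‖ζ‖) ^ 4)
          ≤ C * ((ε ^ 4 * ‖z‖) * ‖z‖ ^ 3 * (2 * ‖z‖) ^ 4) := by gcongr
        _ = (4 * Real.sqrt C * ε ^ 2 * ‖z‖ ^ 4) ^ 2 := by
            rw [show (4 * Real.sqrt C * ε ^ 2 * ‖z‖ ^ 4) ^ 2
              = 16 * (Real.sqrt C ^ 2) * ε ^ 4 * ‖z‖ ^ 8 by ring, Real.sq_sqrt hC.le]
            ring
    have k5 : ‖m u - m a‖ ^ 2 ≤ 4 * Real.sqrt C * ε ^ 2 * ‖z‖ ^ 4 := by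
      refine abs_le_of_sq_le_sq' ?_ (by positivity) |>.2
      calc (‖m u - m a‖ ^ 2) ^ 2 = ‖m u - m a‖ ^ 4 := by ring
        _ ≤ _ := k4
    have k6 : ⟪m a - m u, zw⟫_ℝ ≤ ‖m u - m a‖ * ‖zw‖ := by
      rw [norm_sub_rev (m u)]
      exact real_inner_le_norm _ _
    have k7 := young ‖m u - m a‖ ‖zw‖
    have k8 : 2 / ν * ‖m u - m a‖ ^ 2 ≤ 2 / ν * (4 * Real.sqrt C * ε ^ 2 * ‖z‖ ^ 4) := by gcongr
    linarith
  rw [hsplit]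
  have h6 : 0 ≤ ν * ‖zw‖ ^ 2 := by positivity
  have e : 2 / ν * (‖f‖ ^ 2 + 4 * Real.sqrt C * ε ^ 2 * ‖z‖ ^ 4 + C ^ 2 * ε ^ 2 * ‖z1‖ ^ 2)
      = 2 / ν * ‖f‖ ^ 2 + 2 / ν * (4 * Real.sqrt C * ε ^ 2 * ‖z‖ ^ 4)
        + 2 / ν * (C ^ 2 * ε ^ 2 * ‖z1‖ ^ 2) := by ring
  rw [e]
  nlinarith

/-- the distance of a Galerkin solution from the Ritz projection of the strong solution -/
theorem App.dist (Fr : Frame W m C) (U : Univ W m c) (hν : 0 < ν) (hEW : E ≤ W) (hT : 0 < T)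
    (hF : FH T F F1) (S : Str W m ν T F u u1 z z1) (L : App E m ν T Fa v y)
    {ρ : K →L[ℝ] (H × K)} (hρE : ∀ κ, ρ κ ∈ E) (hρo : ∀ κ, ∀ e ∈ E, ⟪κ - (ρ κ).2, e.2⟫_ℝ = 0)
    (hρn : ∀ κ, ‖(ρ κ).2‖ ≤ ‖κ‖) {h ε : ℝ} (hhε : h ≤ ε ^ 4) (hε : 0 < ε)
    (hε1 : ε ≤ 1) (hh : ∀ p ∈ W, (∀ e ∈ E, ⟪p.2, e.2⟫_ℝ = 0) → ‖p.1‖ ≤ h * ‖p.2‖)
    (hFa : ∫ s in (0 : ℝ)..T, ‖Fa s - F s‖ ^ 2 ≤ ε ^ 2) (h0 : ‖v 0 - u 0‖ ≤ ε)
    {g : ℝ → ℝ} (hg0 : ∀ s, 0 ≤ g s) (hgi : IntervalIntegrable g volume 0 T)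
    (hg : ∀ᵐ s ∂(volume.restrict (Ioc 0 T)),
      27 / 4 * c ^ 4 / ν ^ 3 * ‖z s‖ ^ 4 ≤ g s ∨ 27 / 4 * c ^ 4 / ν ^ 3 * ‖y s‖ ^ 4 ≤ g s) :
    ‖v T - (ρ (z T)).1‖ ^ 2 ≤ ε ^ 2 * ((1 + ‖z 0‖) ^ 2 + 4 / ν * (1 + 4 * Real.sqrt C
      * (∫ s in (0 : ℝ)..T, ‖z s‖ ^ 4) + C ^ 2 * ∫ s in (0 : ℝ)..T, ‖z1 s‖ ^ 2))
      * Real.exp (2 * ∫ s in (0 : ℝ)..T, g s) := by
  have hC := Fr.C0
  have hzc : ContinuousOn z (Icc 0 T) := prim_cont S.z1m S.pz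
  have hz1i : Integrable z1 (volume.restrict (Ioc 0 T)) := S.z1m.integrable (by norm_num)
  have hFc : ContinuousOn F (Icc 0 T) := prim_cont hF.memLp hF.prim
  set ρ1 : K →L[ℝ] H := (ContinuousLinearMap.fst ℝ H K).comp ρ with hρ1
  have pr1 : ∀ r t', 0 ≤ r → r ≤ t' → t' ≤ T → ρ1 (z t') - ρ1 (z r) = ∫ s in r..t', ρ1 (z1 s) := by
    intro r t' h1 h2 h3
    rw [← map_sub, S.pz r t' h1 h2 h3]
    exact (ρ1.intervalIntegral_comp_comm (ii_of_int hz1i h1 h2 h3)).symm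
  have m1 : MemLp (fun s => ρ1 (z1 s)) 2 (volume.restrict (Ioc 0 T)) := ρ1.comp_memLp' S.z1m
  have c1 : ContinuousOn (fun s => ρ1 (z s)) (Icc 0 T) := prim_cont m1 pr1
  -- boundedness and measurability of the distance
  obtain ⟨M, hM0, hM⟩ := L.bdd hν hT.le
  obtain ⟨B, hB⟩ := (isCompact_Icc.image_of_continuousOn c1).isBounded.exists_norm_le
  set Y : ℝ → ℝ := fun s => ‖v s - ρ1 (z s)‖ ^ 2 with hY
  have hYm : AEStronglyMeasurable Y (volume.restrict (Ioc 0 T)) := by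
    have h1 : AEStronglyMeasurable (fun s => ρ1 (z s)) (volume.restrict (Ioc 0 T)) :=
      (c1.mono Ioc_subset_Icc_self).aestronglyMeasurable measurableSet_Ioc
    exact ((L.meas.sub h1).norm).pow 2
  have hYb : ∀ t ∈ Icc 0 T, ‖Y t‖ ≤ (M + B) ^ 2 := by
    intro t ht
    simp only [hY]
    rw [Real.norm_eq_abs, abs_of_nonneg (by positivity)]
    have h1 : ‖v t - ρ1 (z t)‖ ≤ M + B :=
      (norm_sub_le _ _).trans (add_le_add (hM t ht) (hB _ ⟨t, ht, rfl⟩))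
    exact pow_le_pow_left₀ (norm_nonneg _) h1 2
  have hgI : Integrable g (volume.restrict (Ioc 0 T)) := by
    rwa [intervalIntegrable_iff_integrableOn_Ioc_of_le hT.le] at hgi
  have hgY : Integrable (fun s => 2 * g s * Y s) (volume.restrict (Ioc 0 T)) := by
    refine ((hgI.const_mul 2).norm.mul_const ((M + B) ^ 2)).mono'
      ((hgI.const_mul 2).aestronglyMeasurable.mul hYm) ?_
    filter_upwards [ae_restrict_mem measurableSet_Ioc] with s hs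
    rw [norm_mul]
    gcongr
    exact hYb s (Ioc_subset_Icc_self hs)
  -- the source
  set f : ℝ → ℝ := fun s => 4 / ν * (‖Fa s - F s‖ ^ 2 + 4 * Real.sqrt C * ε ^ 2 * ‖z s‖ ^ 4
    + C ^ 2 * ε ^ 2 * ‖z1 s‖ ^ 2) with hf
  have j1 : Integrable (fun s => ‖Fa s - F s‖ ^ 2) (volume.restrict (Ioc 0 T)) := by
    have h1 := L.F2.sub (mem_cont (p := 2) hFc)
    exact (memLp_two_iff_integrable_sq_norm h1.aestronglyMeasurable).mp h1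
  have j2 : Integrable (fun s => ‖z s‖ ^ 4) (volume.restrict (Ioc 0 T)) := by
    have h1 : ContinuousOn (fun s => ‖z s‖ ^ 4) (Icc 0 T) := hzc.norm.pow 4
    exact (h1.integrableOn_Icc).mono_set Ioc_subset_Icc_self
  have j3 : Integrable (fun s => ‖z1 s‖ ^ 2) (volume.restrict (Ioc 0 T)) :=
    (memLp_two_iff_integrable_sq_norm S.z1m.aestronglyMeasurable).mp S.z1m
  have hfi : Integrable f (volume.restrict (Ioc 0 T)) :=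
    ((j1.add (j2.const_mul (4 * Real.sqrt C * ε ^ 2))).add (j3.const_mul (C ^ 2 * ε ^ 2))).const_mul _
  have hf0 : ∀ s, 0 ≤ f s := fun s => by
    simp only [hf]
    positivity
  have hfint : ∫ s in (0 : ℝ)..T, f s = 4 / ν * ((∫ s in (0 : ℝ)..T, ‖Fa s - F s‖ ^ 2)
      + 4 * Real.sqrt C * ε ^ 2 * (∫ s in (0 : ℝ)..T, ‖z s‖ ^ 4)
      + C ^ 2 * ε ^ 2 * ∫ s in (0 : ℝ)..T, ‖z1 s‖ ^ 2) := by
    have i1 := ii_of_int j1 le_rfl hT.le le_rfl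
    have i2 := ii_of_int (j2.const_mul (4 * Real.sqrt C * ε ^ 2)) le_rfl hT.le le_rfl
    have i3 := ii_of_int (j3.const_mul (C ^ 2 * ε ^ 2)) le_rfl hT.le le_rfl
    simp only [hf]
    rw [intervalIntegral.integral_const_mul, intervalIntegral.integral_add (i1.add i2) i3,
      intervalIntegral.integral_add i1 i2, intervalIntegral.integral_const_mul,
      intervalIntegral.integral_const_mul]
  set k : ℝ := Y 0 + ∫ s in (0 : ℝ)..T, f s with hk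
  have key : ∀ t ∈ Icc 0 T, Y t ≤ k + ∫ s in (0 : ℝ)..t, 2 * g s * Y s := by
    intro t ht
    have hsub : (volume.restrict (Ioc 0 t) : Measure ℝ) ≤ volume.restrict (Ioc 0 T) :=
      Measure.restrict_mono (Ioc_subset_Ioc_right ht.2) le_rfl
    obtain ⟨r1, r2⟩ := L.rel Fr hEW hT hF S hρE hρo ht
    have i1 : IntervalIntegrable f volume 0 t := ii_of_int hfi le_rfl ht.1 ht.2
    have i2 : IntervalIntegrable (fun s => 2 * g s * Y s) volume 0 t :=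
      ii_of_int hgY le_rfl ht.1 ht.2
    have e1 : ∫ s in (0 : ℝ)..t, (⟪Fa s - F s, y s - (ρ (z s)).2⟫_ℝ
        + ⟪m (v s) - m (u s), y s - (ρ (z s)).2⟫_ℝ
        + ⟪v s - (ρ (z s)).1, u1 s - (ρ (z1 s)).1⟫_ℝ - ν * ‖y s - (ρ (z s)).2‖ ^ 2)
        ≤ ∫ s in (0 : ℝ)..t, (1 / 2 * (f s + 2 * g s * Y s)) := by
      refine intervalIntegral.integral_mono_ae_restrict ht.1 r1 ((i1.add i2).const_mul (1 / 2)) ?_
      rw [Filter.EventuallyLE, ← restrict_Ioc_eq_restrict_Icc]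
      filter_upwards [ae_mono hsub L.mem, ae_mono hsub S.mem1, ae_mono hsub hg,
        ae_restrict_mem measurableSet_Ioc] with s k1 k2 k3 hs
      have hmem := S.mem s ⟨hs.1.le, hs.2.trans ht.2⟩
      have h1 := pt_est (g := g s) (f := Fa s - F s) Fr U hν hEW hρE hρo hρn hhε hε hε1 hh hmem k2 k1 k3
      refine h1.trans (le_of_eq ?_)
      simp only [hf, hY]
      show _ + g s * ‖v s - ρ1 (z s)‖ ^ 2 = _
      ring
    rw [intervalIntegral.integral_const_mul, intervalIntegral.integral_add i1 i2] at e1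
    have e2 : ∫ s in (0 : ℝ)..t, f s ≤ ∫ s in (0 : ℝ)..T, f s := by
      rw [intervalIntegral.integral_of_le ht.1, intervalIntegral.integral_of_le hT.le]
      exact setIntegral_mono_set hfi (Eventually.of_forall hf0)
        (Ioc_subset_Ioc_right ht.2).eventuallyLE
    have r2' : Y t / 2 ≤ Y 0 / 2 + _ := r2
    rw [hk]
    linarith
  have hfin := gron_meas hT.le (hgi.const_mul 2) (fun s => by have := hg0 s; positivity)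
    (ii_of_int hgY le_rfl hT.le le_rfl) key
  rw [intervalIntegral.integral_const_mul] at hfin
  refine hfin.trans ?_
  have hk1 : k ≤ ε ^ 2 * ((1 + ‖z 0‖) ^ 2 + 4 / ν * (1 + 4 * Real.sqrt C
      * (∫ s in (0 : ℝ)..T, ‖z s‖ ^ 4) + C ^ 2 * ∫ s in (0 : ℝ)..T, ‖z1 s‖ ^ 2)) := by
    have l1 : Y 0 ≤ (ε * (1 + ‖z 0‖)) ^ 2 := by
      simp only [hY]
      refine pow_le_pow_left₀ (norm_nonneg _) ?_ 2
      have hmem0 := S.mem 0 ⟨le_rfl, hT.le⟩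
      have hp : (u 0 - (ρ (z 0)).1, z 0 - (ρ (z 0)).2) ∈ W := W.sub_mem hmem0 (hEW (hρE (z 0)))
      have k1 : ‖u 0 - (ρ (z 0)).1‖ ≤ h * ‖z 0 - (ρ (z 0)).2‖ := hh _ hp (fun e he => hρo (z 0) e he)
      have k2 : ‖z 0 - (ρ (z 0)).2‖ ≤ ‖z 0‖ := by
        have e1 : ⟪z 0 - (ρ (z 0)).2, (ρ (z 0)).2⟫_ℝ = 0 := hρo (z 0) _ (hρE (z 0))
        have e2 : ⟪z 0 - (ρ (z 0)).2, z 0⟫_ℝ = ‖z 0 - (ρ (z 0)).2‖ ^ 2 := by
          rw [← real_inner_self_eq_norm_sq, inner_sub_right (z 0 - (ρ (z 0)).2), e1, sub_zero]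
        have e3 := real_inner_le_norm (z 0 - (ρ (z 0)).2) (z 0)
        rw [e2] at e3
        by_contra hcon
        rw [not_le] at hcon
        nlinarith [norm_nonneg (z 0)]
      have k4 : h ≤ ε := by
        have : ε ^ 4 ≤ ε := by
          have h3 : ε ^ 3 ≤ 1 := pow_le_one₀ hε.le hε1
          nlinarith
        linarith
      have k5 : ‖v 0 - ρ1 (z 0)‖ ≤ ‖v 0 - u 0‖ + ‖u 0 - (ρ (z 0)).1‖ := norm_sub_le_norm_sub_add_norm_sub _ _ _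
      have k6 : h * ‖z 0 - (ρ (z 0)).2‖ ≤ ε * ‖z 0‖ := by gcongr
      linarith
    rw [hk, hfint]
    have l2 : 4 / ν * ((∫ s in (0 : ℝ)..T, ‖Fa s - F s‖ ^ 2)
      + 4 * Real.sqrt C * ε ^ 2 * (∫ s in (0 : ℝ)..T, ‖z s‖ ^ 4)
      + C ^ 2 * ε ^ 2 * ∫ s in (0 : ℝ)..T, ‖z1 s‖ ^ 2) ≤ 4 / ν * (ε ^ 2
      + 4 * Real.sqrt C * ε ^ 2 * (∫ s in (0 : ℝ)..T, ‖z s‖ ^ 4)
      + C ^ 2 * ε ^ 2 * ∫ s in (0 : ℝ)..T, ‖z1 s‖ ^ 2) := by gcongr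
    refine (add_le_add l1 l2).trans (le_of_eq ?_)
    ring
  gcongr

end

end Pool.Agent.Q62.DN
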