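import Mathlib

/-!
Real-variable part of the estimates for energy jumps.
-/

set_option autoImplicit false

open MeasureTheory Set Filter Topology

namespace Pool.Agent.Q62.DN.JR

/-- the function `x ^ (3/2)` -/
noncomputable def p32 (x : ℝ) : ℝ := Real.sqrt x ^ 3

theorem p32_eq {x : ℝ} (hx : 0 ≤ x) : p32 x = x ^ (3 / 2 : ℝ) := by
  unfold p32
  rw [Real.sqrt_eq_rpow, ← Real.rpow_natCast, ← Real.rpow_mul hx]
  norm_num

theorem p32_nonneg (x : ℝ) : 0 ≤ p32 x := by unfold p32; positivity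

theorem p32_mono {x y : ℝ} (h : x ≤ y) : p32 x ≤ p32 y := by
  unfold p32
  have := Real.sqrt_le_sqrt h
  gcongr

/-- Young's inequality for `x ^ (3/2)` -/
theorem p32_young {x l : ℝ} (hx : 0 ≤ x) (hl : 0 < l) :
    p32 x ≤ 3 / 4 * l * x ^ 2 + 1 / 4 * (1 / l ^ 3) := by
  unfold p32
  set r := Real.sqrt x with hr
  have hr0 : 0 ≤ r := Real.sqrt_nonneg _
  have e : x ^ 2 = r ^ 4 := by
    rw [hr, show Real.sqrt x ^ 4 = (Real.sqrt x ^ 2) ^ 2 by ring, Real.sq_sqrt hx]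
  rw [e]
  have h1 : 0 ≤ (l * r - 1) ^ 2 * (3 * (l * r) ^ 2 + 2 * (l * r) + 1) / (4 * l ^ 3) := by positivity
  have h2 : (l * r - 1) ^ 2 * (3 * (l * r) ^ 2 + 2 * (l * r) + 1) / (4 * l ^ 3)
      = 3 / 4 * l * r ^ 4 + 1 / 4 * (1 / l ^ 3) - r ^ 3 := by
    field_simp
    ring
  linarith

theorem le_p32 {x l : ℝ} (hx : 0 ≤ x) (hl : 0 < l) : x ≤ l * p32 x + 1 / l ^ 2 := by
  unfold p32
  set r := Real.sqrt x with hr
  have hr0 : 0 ≤ r := Real.sqrt_nonneg _
  have e : x = r ^ 2 := (Real.sq_sqrt hx).symm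
  rcases le_total (l * r) 1 with h | h
  · have h1 : x ≤ 1 / l ^ 2 := by
      rw [e, le_div_iff₀ (by positivity)]
      have : (l * r) ^ 2 ≤ 1 := pow_le_one₀ (by positivity) h
      nlinarith
    have h2 : 0 ≤ l * r ^ 3 := by positivity
    linarith
  · have h1 : x ≤ l * r ^ 3 := by
      rw [e]
      nlinarith [sq_nonneg r]
    have h2 : 0 ≤ 1 / l ^ 2 := by positivity
    linarith

theorem p32_add {x y : ℝ} (hx : 0 ≤ x) (hy : 0 ≤ y) :
    p32 (x + y) ≤ 3 / 2 * (p32 x + p32 y) := by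
  -- `(r² + s²)^{3/2} ≤ (3/2) (r³ + s³)`
  unfold p32
  set r := Real.sqrt x with hr
  set s := Real.sqrt y with hs
  have hr0 : 0 ≤ r := Real.sqrt_nonneg _
  have hs0 : 0 ≤ s := Real.sqrt_nonneg _
  have e1 : x = r ^ 2 := (Real.sq_sqrt hx).symm
  have e2 : y = s ^ 2 := (Real.sq_sqrt hy).symm
  have hq : Real.sqrt (x + y) ^ 2 = r ^ 2 + s ^ 2 := by
    rw [Real.sq_sqrt (by positivity), e1, e2]
  set q := Real.sqrt (x + y) with hqd
  have hq0 : 0 ≤ q := Real.sqrt_nonneg _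
  refine abs_le_of_sq_le_sq' ?_ (by positivity) |>.2
  have e3 : (q ^ 3) ^ 2 = (r ^ 2 + s ^ 2) ^ 3 := by
    rw [← hq]; ring
  rw [e3]
  have h1 : 0 ≤ r * s := by positivity
  nlinarith [sq_nonneg (r - s), sq_nonneg (r ^ 3 - s ^ 3), mul_nonneg h1 (sq_nonneg (r - s)),
    mul_nonneg (mul_nonneg h1 h1) (sq_nonneg (r - s)), mul_nonneg (pow_nonneg h1 2) (sq_nonneg (r-s)),
    mul_nonneg (sq_nonneg (r^2 - s^2)) (add_nonneg (sq_nonneg r) (sq_nonneg s)),
    mul_nonneg (sq_nonneg (r - s)) (mul_nonneg h1 (add_nonneg (sq_nonneg r) (sq_nonneg s)))]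

section

variable {s0 τ : ℝ} {x : ℝ → ℝ}

/-- `∫_t^τ x ^ (3/2)` -/
noncomputable def XX (x : ℝ → ℝ) (τ t : ℝ) : ℝ := ∫ r in t..τ, p32 (x r)

/-- `∫_t^τ x ^ 2` -/
noncomputable def DD (x : ℝ → ℝ) (τ t : ℝ) : ℝ := ∫ r in t..τ, x r ^ 2

theorem sub_ii {f : ℝ → ℝ} (hf : IntervalIntegrable f volume s0 τ) {a b : ℝ} (ha : s0 ≤ a)
    (hab : a ≤ b) (hb : b ≤ τ) : IntervalIntegrable f volume a b :=
  hf.mono_set (by
    rw [uIcc_of_le hab, uIcc_of_le (ha.trans (hab.trans hb))]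
    exact Icc_subset_Icc ha hb)

/-- the interpolation `∫ x^{3/2} ≤ (∫ x²)^{3/4} δ^{1/4}`, with a parameter -/
theorem XX_le (h2 : IntervalIntegrable (fun r => x r ^ 2) volume s0 τ)
    (h3 : IntervalIntegrable (fun r => p32 (x r)) volume s0 τ) (hx : ∀ r, 0 ≤ x r)
    {a : ℝ} (ha : s0 ≤ a) (haτ : a ≤ τ) {l : ℝ} (hl : 0 < l) :
    XX x τ a ≤ 3 / 4 * l * DD x τ a + 1 / 4 * (1 / l ^ 3) * (τ - a) := by
  unfold XX DD
  have h1 : ∫ r in a..τ, p32 (x r) ≤ ∫ r in a..τ, (3 / 4 * l * x r ^ 2 + 1 / 4 * (1 / l ^ 3)) :=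
    intervalIntegral.integral_mono_on haτ (sub_ii h3 ha haτ le_rfl)
      (((sub_ii h2 ha haτ le_rfl).const_mul _).add intervalIntegrable_const)
      fun r _ => p32_young (hx r) hl
  rw [intervalIntegral.integral_add ((sub_ii h2 ha haτ le_rfl).const_mul _)
    intervalIntegrable_const, intervalIntegral.integral_const_mul,
    intervalIntegral.integral_const, smul_eq_mul] at h1
  linarith

theorem XX_nonneg {a : ℝ} (haτ : a ≤ τ) : 0 ≤ XX x τ a :=
  intervalIntegral.integral_nonneg haτ fun r _ => p32_nonneg _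

theorem DD_nonneg {a : ℝ} (haτ : a ≤ τ) : 0 ≤ DD x τ a :=
  intervalIntegral.integral_nonneg haτ fun r _ => sq_nonneg _

theorem XX_anti (h3 : IntervalIntegrable (fun r => p32 (x r)) volume s0 τ) {a b : ℝ} (ha : s0 ≤ a)
    (hab : a ≤ b) (hb : b ≤ τ) : XX x τ b ≤ XX x τ a := by
  unfold XX
  have e := intervalIntegral.integral_add_adjacent_intervals (sub_ii h3 ha hab hb)
    (sub_ii h3 (ha.trans hab) hb le_rfl)
  have : 0 ≤ ∫ r in a..b, p32 (x r) := intervalIntegral.integral_nonneg hab fun r _ => p32_nonneg _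
  linarith

theorem DD_anti (h3 : IntervalIntegrable (fun r => x r ^ 2) volume s0 τ) {a b : ℝ} (ha : s0 ≤ a)
    (hab : a ≤ b) (hb : b ≤ τ) : DD x τ b ≤ DD x τ a := by
  unfold DD
  have e := intervalIntegral.integral_add_adjacent_intervals (sub_ii h3 ha hab hb)
    (sub_ii h3 (ha.trans hab) hb le_rfl)
  have : 0 ≤ ∫ r in a..b, x r ^ 2 := intervalIntegral.integral_nonneg hab fun r _ => sq_nonneg _
  linarith

/-- a tail integral tends to zero -/
theorem tail_small {f : ℝ → ℝ} (hs : s0 < τ) (hf : IntervalIntegrable f volume s0 τ) {e : ℝ}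
    (he : 0 < e) : ∃ t1 ∈ Ico s0 τ, ∀ t ∈ Icc t1 τ, |∫ r in t..τ, f r| ≤ e := by
  have hc : ContinuousOn (fun t => ∫ r in τ..t, f r) (Icc s0 τ) := by
    have := intervalIntegral.continuousOn_primitive_interval' (a := τ) (b₁ := s0) (b₂ := τ) hf
      right_mem_uIcc
    rwa [uIcc_of_le hs.le] at this
  have h1 := hc τ ⟨hs.le, le_rfl⟩
  rw [Metric.continuousWithinAt_iff] at h1
  obtain ⟨d, hd, h2⟩ := h1 e he
  refine ⟨max s0 (τ - d / 2), ⟨le_max_left _ _, max_lt hs (by linarith)⟩, fun t ht => ?_⟩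
  have h3 : s0 ≤ t := (le_max_left _ _).trans ht.1
  have h4 : τ - d / 2 ≤ t := (le_max_right _ _).trans ht.1
  have h5 := h2 (x := t) ⟨h3, ht.2⟩ (by
    rw [Real.dist_eq, abs_of_nonpos (by linarith [ht.2])]
    linarith)
  rw [intervalIntegral.integral_same, Real.dist_eq, sub_zero] at h5
  rw [intervalIntegral.integral_symm, abs_neg]
  exact h5.le

/-- the integral of `x ^ (3/2)` dominates the length of the interval -/
theorem XX_large (hs : s0 < τ) (h3 : IntervalIntegrable (fun r => p32 (x r)) volume s0 τ)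
    (hx : ∀ r, 0 ≤ x r) {θ k B Q : ℝ} (hθ : 0 < θ) (hk : 0 < k) (hB : 0 ≤ B) (hQ : 0 ≤ Q)
    (h : ∀ t ∈ Ioo s0 τ, 15 / 32 * θ ≤ (x t + Q) * (k * XX x τ t + B * (τ - t))) {L : ℝ}
    (hL : 0 < L) : ∃ t1 ∈ Ico s0 τ, ∀ t ∈ Ioo t1 τ, L * (τ - t) ≤ XX x τ t := by
  set d : ℝ := 15 / 32 * θ / ((2 * L + 1 + Q) * (k * L + B) + 1) with hd
  have hd0 : 0 < d := by positivity
  refine ⟨max s0 (τ - d), ⟨le_max_left _ _, max_lt hs (by linarith)⟩, fun t ht => ?_⟩
  have ht0 : s0 < t := (le_max_left _ _).trans_lt ht.1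
  have ht1 : τ - d < t := (le_max_right _ _).trans_lt ht.1
  by_contra hcon
  rw [not_le] at hcon
  set b := (t + τ) / 2 with hb
  have htb : t < b := by simp only [hb]; linarith [ht.2]
  have hbτ : b < τ := by simp only [hb]; linarith [ht.2]
  obtain ⟨r, hr, hrx⟩ : ∃ r ∈ Ioo t b, x r ≤ 2 * L + 1 := by
    by_contra hno
    push Not at hno
    have h4 : ∫ r in t..b, (2 * L + 1) ≤ ∫ r in t..b, p32 (x r) := by
      refine intervalIntegral.integral_mono_on_of_le_Ioo htb.le intervalIntegrable_const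
        (sub_ii h3 ht0.le htb.le hbτ.le) fun r hr => ?_
      have h5 := hno r hr
      refine le_trans ?_ (p32_mono h5.le)
      unfold p32
      have h6 : 1 ≤ Real.sqrt (2 * L + 1) := Real.one_le_sqrt.2 (by linarith)
      have h7 : Real.sqrt (2 * L + 1) ^ 2 = 2 * L + 1 := Real.sq_sqrt (by linarith)
      nlinarith
    rw [intervalIntegral.integral_const, smul_eq_mul] at h4
    have h5 : ∫ r in t..b, p32 (x r) ≤ XX x τ t := by
      unfold XX
      have e := intervalIntegral.integral_add_adjacent_intervals (sub_ii h3 ht0.le htb.le hbτ.le)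
        (sub_ii h3 (ht0.le.trans htb.le) hbτ.le le_rfl)
      have : 0 ≤ ∫ r in b..τ, p32 (x r) :=
        intervalIntegral.integral_nonneg hbτ.le fun r _ => p32_nonneg _
      linarith
    have h6 : b - t = (τ - t) / 2 := by simp only [hb]; ring
    rw [h6] at h4
    nlinarith [ht.2]
  have hrI : r ∈ Ioo s0 τ := ⟨ht0.trans hr.1, hr.2.trans hbτ⟩
  have h4 := h r hrI
  have h5 : XX x τ r ≤ L * (τ - t) := (XX_anti h3 ht0.le hr.1.le hrI.2.le).trans hcon.le
  have h6 : 0 ≤ XX x τ r := XX_nonneg hrI.2.le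
  have h7 : τ - r ≤ τ - t := by linarith [hr.1]
  have h8 : 0 ≤ τ - r := by linarith [hrI.2]
  have h9 : (x r + Q) * (k * XX x τ r + B * (τ - r))
      ≤ (2 * L + 1 + Q) * (k * (L * (τ - t)) + B * (τ - t)) := by
    have := hx r
    gcongr
  have h10 : (2 * L + 1 + Q) * (k * (L * (τ - t)) + B * (τ - t))
      = ((2 * L + 1 + Q) * (k * L + B)) * (τ - t) := by ring
  have h11 : ((2 * L + 1 + Q) * (k * L + B)) * (τ - t)
      ≤ ((2 * L + 1 + Q) * (k * L + B)) * d := by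
    have : τ - t ≤ d := by linarith
    gcongr
  have h12 : ((2 * L + 1 + Q) * (k * L + B)) * d < 15 / 32 * θ := by
    have e : ((2 * L + 1 + Q) * (k * L + B) + 1) * d = 15 / 32 * θ := by
      rw [hd]; field_simp
    linarith
  linarith

theorem point (hs : s0 < τ) (h3 : IntervalIntegrable (fun r => p32 (x r)) volume s0 τ)
    (hx : ∀ r, 0 ≤ x r) {θ k B Q : ℝ} (hθ : 0 < θ) (hk : 0 < k) (hB : 0 ≤ B) (hQ : 0 ≤ Q)
    (h : ∀ t ∈ Ioo s0 τ, 15 / 32 * θ ≤ (x t + Q) * (k * XX x τ t + B * (τ - t))) :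
    ∃ t1 ∈ Ico s0 τ, ∀ t ∈ Ioo t1 τ, θ / (8 * k) ≤ x t * XX x τ t := by
  obtain ⟨t2, ht2, h2⟩ := XX_large hs h3 hx hθ hk hB hQ h (L := 8 * B / k + 1) (by positivity)
  obtain ⟨t3, ht3, h4⟩ := tail_small hs h3 (e := θ / (16 * (k * Q + 1))) (by positivity)
  refine ⟨max t2 t3, ⟨ht2.1.trans (le_max_left _ _), max_lt ht2.2 ht3.2⟩, fun t ht => ?_⟩
  have k1 : t2 < t := (le_max_left _ _).trans_lt ht.1
  have k2 : t3 < t := (le_max_right _ _).trans_lt ht.1
  have hX0 : 0 ≤ XX x τ t := XX_nonneg ht.2.le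
  have e1 := h2 t ⟨k1, ht.2⟩
  have e2 : XX x τ t ≤ θ / (16 * (k * Q + 1)) := (le_abs_self _).trans (h4 t ⟨k2.le, ht.2.le⟩)
  have e3 := h t ⟨ht2.1.trans_lt k1, ht.2⟩
  have hδ : 0 ≤ τ - t := by linarith [ht.2]
  have e4 : B * (τ - t) ≤ k / 8 * XX x τ t := by
    have : k / 8 * ((8 * B / k + 1) * (τ - t)) ≤ k / 8 * XX x τ t := by gcongr
    have e : k / 8 * ((8 * B / k + 1) * (τ - t)) = B * (τ - t) + k / 8 * (τ - t) := by
      field_simp
    have h0 : 0 ≤ k / 8 * (τ - t) := by positivity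
    linarith
  have e5 : k * Q * XX x τ t ≤ θ / 16 := by
    calc k * Q * XX x τ t ≤ (k * Q + 1) * (θ / (16 * (k * Q + 1))) := by
          gcongr
          linarith
      _ = θ / 16 := by field_simp
  have hxt := hx t
  have e6 : (x t + Q) * (k * XX x τ t + B * (τ - t)) ≤ (x t + Q) * (9 / 8 * (k * XX x τ t)) := by
    gcongr
    linarith
  rw [div_le_iff₀ (by positivity)]
  nlinarith

/-- `X⁴ ≤ D³ δ` -/
theorem XX_pow (h2 : IntervalIntegrable (fun r => x r ^ 2) volume s0 τ)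
    (h3 : IntervalIntegrable (fun r => p32 (x r)) volume s0 τ) (hx : ∀ r, 0 ≤ x r)
    {a : ℝ} (ha : s0 ≤ a) (haτ : a < τ) : XX x τ a ^ 4 ≤ DD x τ a ^ 3 * (τ - a) := by
  have hX0 : 0 ≤ XX x τ a := XX_nonneg haτ.le
  have hD0 : 0 ≤ DD x τ a := DD_nonneg haτ.le
  have hδ : 0 < τ - a := by linarith
  have hpos : ∀ D : ℝ, 0 < D → DD x τ a ≤ D → XX x τ a ^ 4 ≤ D ^ 3 * (τ - a) := by
    intro D hD hDD
    set l : ℝ := ((τ - a) / D) ^ (1 / 4 : ℝ) with hl
    have hl0 : 0 < l := by positivity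
    have hl4 : l ^ 4 = (τ - a) / D := by
      rw [hl, ← Real.rpow_natCast, ← Real.rpow_mul (by positivity)]
      norm_num
    have h1 := XX_le h2 h3 hx ha haτ.le hl0
    have h4 : 3 / 4 * l * DD x τ a + 1 / 4 * (1 / l ^ 3) * (τ - a) ≤ l * D := by
      have e : (τ - a) = l ^ 4 * D := by rw [hl4]; field_simp
      have e2 : 1 / 4 * (1 / l ^ 3) * (τ - a) = 1 / 4 * (l * D) := by
        rw [e]; field_simp
      rw [e2]
      have : 3 / 4 * l * DD x τ a ≤ 3 / 4 * l * D := by gcongr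
      linarith
    calc XX x τ a ^ 4 ≤ (l * D) ^ 4 := by
          have := h1.trans h4
          gcongr
      _ = l ^ 4 * D ^ 4 := by ring
      _ = D ^ 3 * (τ - a) := by rw [hl4]; field_simp
  rcases hD0.eq_or_lt with h0 | h0
  · -- `D = 0`
    have h1 : ∀ n : ℕ, XX x τ a ^ 4 ≤ (1 / ((n : ℝ) + 1)) ^ 3 * (τ - a) := fun n =>
      hpos _ (by positivity) (by rw [← h0]; positivity)
    have h4 : Tendsto (fun n : ℕ => (1 / ((n : ℝ) + 1)) ^ 3 * (τ - a)) atTop (𝓝 (0 ^ 3 * (τ - a))) :=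
      ((tendsto_one_div_add_atTop_nhds_zero_nat).pow 3).mul_const _
    have h5 := ge_of_tendsto' h4 h1
    rw [← h0]
    exact h5
  · exact hpos _ h0 le_rfl

/-- lower bound of the integral of the square -/
theorem lower_D (hs : s0 < τ) (h2 : IntervalIntegrable (fun r => x r ^ 2) volume s0 τ)
    (h3 : IntervalIntegrable (fun r => p32 (x r)) volume s0 τ) (hx : ∀ r, 0 ≤ x r)
    {κ : ℝ} (hκ : 0 < κ) (h : ∀ t ∈ Ioo s0 τ, κ ≤ x t * XX x τ t) {b : ℝ} (hb : 0 < b)
    (hbs : b < τ - s0) : κ ^ 4 * b ≤ 4 * DD x τ (τ - b) ^ 5 := by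
  set a0 := τ - b with ha0
  have h00 : s0 < a0 := by simp only [ha0]; linarith
  have h01 : a0 < τ := by simp only [ha0]; linarith
  have hD0 : 0 ≤ DD x τ a0 := DD_nonneg h01.le
  obtain ⟨a, ha, hxa⟩ : ∃ a ∈ Ioo a0 (τ - b / 2), x a ^ 2 ≤ 2 * DD x τ a0 / b := by
    by_contra hno
    push Not at hno
    have k1 : a0 < τ - b / 2 := by simp only [ha0]; linarith
    have k2 : τ - b / 2 < τ := by linarith
    have i1 := sub_ii h2 h00.le k1.le k2.le
    have h4 : ∫ r in a0..(τ - b / 2), 2 * DD x τ a0 / b < ∫ r in a0..(τ - b / 2), x r ^ 2 := by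
      refine intervalIntegral.integral_lt_integral_of_ae_le_of_measure_setOf_lt_ne_zero k1.le
        intervalIntegrable_const i1 ?_ ?_
      · rw [← restrict_Ioo_eq_restrict_Ioc]
        filter_upwards [ae_restrict_mem measurableSet_Ioo] with r hr
        exact (hno r hr).le
      · intro hz
        have : volume (Ioo a0 (τ - b / 2)) = 0 := by
          refine measure_mono_null (fun r hr => ?_) (by
            rw [Measure.restrict_apply₀'] at hz
            · exact hz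
            · exact measurableSet_Ioc.nullMeasurableSet)
          exact ⟨hno r hr, ⟨hr.1, hr.2.le⟩⟩
        rw [Real.volume_Ioo, ENNReal.ofReal_eq_zero] at this
        linarith
    rw [intervalIntegral.integral_const, smul_eq_mul] at h4
    have h5 : ∫ r in a0..(τ - b / 2), x r ^ 2 ≤ DD x τ a0 := by
      unfold DD
      have e := intervalIntegral.integral_add_adjacent_intervals i1
        (sub_ii h2 (h00.le.trans k1.le) k2.le le_rfl)
      have : 0 ≤ ∫ r in (τ - b / 2)..τ, x r ^ 2 :=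
        intervalIntegral.integral_nonneg k2.le fun r _ => sq_nonneg _
      linarith
    have h6 : (τ - b / 2 - a0) * (2 * DD x τ a0 / b) = DD x τ a0 := by
      simp only [ha0]; field_simp; ring
    linarith
  have haI : a ∈ Ioo s0 τ := ⟨h00.trans ha.1, by linarith [ha.2]⟩
  have k1 := h a haI
  have k2 := XX_pow h2 h3 hx haI.1.le haI.2
  have k3 : DD x τ a ≤ DD x τ a0 := DD_anti h2 h00.le ha.1.le haI.2.le
  have hX0 : 0 ≤ XX x τ a := XX_nonneg haI.2.le
  have hDa : 0 ≤ DD x τ a := DD_nonneg haI.2.le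
  have hτa : 0 ≤ τ - a := by linarith [haI.2]
  have k4 : XX x τ a ^ 4 ≤ DD x τ a0 ^ 3 * b := by
    refine k2.trans ?_
    have : τ - a ≤ b := by
      have := ha.1
      simp only [ha0] at this
      linarith
    gcongr
  have k5 : κ ^ 4 ≤ (2 * DD x τ a0 / b) ^ 2 * (DD x τ a0 ^ 3 * b) := by
    calc κ ^ 4 ≤ (x a * XX x τ a) ^ 4 := by gcongr
      _ = (x a ^ 2) ^ 2 * XX x τ a ^ 4 := by ring
      _ ≤ _ := by gcongr
  have k6 : (2 * DD x τ a0 / b) ^ 2 * (DD x τ a0 ^ 3 * b) = 4 * DD x τ a0 ^ 5 / b := by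
    field_simp; ring
  rw [k6, le_div_iff₀ hb] at k5
  exact k5

/-- logarithmic growth of the integral of `x ^ (5/2)` -/
theorem log_growth (hs : s0 < τ) (h2 : IntervalIntegrable (fun r => x r ^ 2) volume s0 τ)
    (h3 : IntervalIntegrable (fun r => p32 (x r)) volume s0 τ) (hx : ∀ r, 0 ≤ x r)
    (hxc : ContinuousOn x (Ioo s0 τ))
    {κ : ℝ} (hκ : 0 < κ) (h : ∀ t ∈ Ioo s0 τ, κ ≤ x t * XX x τ t) {s : ℝ} (hsI : s ∈ Ioo s0 τ) :
    ∃ M : ℝ, ∀ t ∈ Ioo s τ, κ / 4 * Real.log (1 / (τ - t)) - M ≤ ∫ r in s..t, x r * p32 (x r) := by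
  have hXpos : ∀ t ∈ Ioo s0 τ, 0 < XX x τ t := by
    intro t ht
    have h4 := h t ht
    rcases (XX_nonneg (x := x) ht.2.le).eq_or_lt with h0 | h0
    · rw [← h0, mul_zero] at h4
      linarith
    · exact h0
  have hpc : ContinuousOn (fun r => p32 (x r)) (Ioo s0 τ) := by
    unfold p32
    exact (hxc.sqrt).pow 3
  have hder : ∀ r ∈ Ioo s0 τ, HasDerivAt (XX x τ) (-p32 (x r)) r := by
    intro r hr
    unfold XX
    have hm : StronglyMeasurableAtFilter (fun r => p32 (x r)) (𝓝 r) volume :=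
      ContinuousOn.stronglyMeasurableAtFilter isOpen_Ioo hpc r hr
    exact intervalIntegral.integral_hasDerivAt_left (sub_ii h3 hr.1.le hr.2.le le_rfl) hm
      (hpc.continuousAt (Ioo_mem_nhds hr.1 hr.2))
  set D0 := DD x τ s + 1 with hD0
  have hD0p : 0 < D0 := by
    have := DD_nonneg (x := x) hsI.2.le
    linarith
  refine ⟨κ * (3 / 4 * Real.log D0 - Real.log (XX x τ s)), fun t ht => ?_⟩
  have htI : t ∈ Ioo s0 τ := ⟨hsI.1.trans ht.1, ht.2⟩
  have hsub : Icc s t ⊆ Ioo s0 τ := fun r hr => ⟨hsI.1.trans_le hr.1, hr.2.trans_lt ht.2⟩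
  -- the logarithm
  have hcX : ContinuousOn (XX x τ) (Icc s t) := fun r hr =>
    (hder r (hsub hr)).continuousAt.continuousWithinAt
  have hlog : ∀ r ∈ uIcc s t, HasDerivAt (fun r => -Real.log (XX x τ r))
      (p32 (x r) / XX x τ r) r := by
    intro r hr
    rw [uIcc_of_le ht.1.le] at hr
    have h4 := ((hder r (hsub hr)).log (hXpos r (hsub hr)).ne').neg
    have e : -(-p32 (x r) / XX x τ r) = p32 (x r) / XX x τ r := by ring
    rw [e] at h4
    exact h4
  have i1 : IntervalIntegrable (fun r => p32 (x r) / XX x τ r) volume s t := by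
    refine ContinuousOn.intervalIntegrable ?_
    rw [uIcc_of_le ht.1.le]
    exact (hpc.mono hsub).div hcX fun r hr => (hXpos r (hsub hr)).ne'
  have hint := intervalIntegral.integral_eq_sub_of_hasDerivAt hlog i1
  have i2 : IntervalIntegrable (fun r => x r * p32 (x r)) volume s t := by
    refine ContinuousOn.intervalIntegrable ?_
    rw [uIcc_of_le ht.1.le]
    exact (hxc.mono hsub).mul (hpc.mono hsub)
  have h4 : κ * ∫ r in s..t, p32 (x r) / XX x τ r ≤ ∫ r in s..t, x r * p32 (x r) := by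
    rw [← intervalIntegral.integral_const_mul]
    refine intervalIntegral.integral_mono_on ht.1.le (i1.const_mul κ) i2 fun r hr => ?_
    have hXr := hXpos r (hsub hr)
    have h5 := h r (hsub hr)
    have e : κ * (p32 (x r) / XX x τ r) = κ * p32 (x r) / XX x τ r := by ring
    rw [e, div_le_iff₀ hXr]
    have h6 := p32_nonneg (x r)
    nlinarith
  rw [hint] at h4
  -- the upper bound of `X`
  have h5 := XX_pow h2 h3 hx htI.1.le ht.2
  have h6 : DD x τ t ≤ D0 := by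
    have := DD_anti h2 hsI.1.le ht.1.le ht.2.le
    linarith
  have hδ : 0 < τ - t := by linarith [ht.2]
  have h7 : XX x τ t ^ 4 ≤ D0 ^ 3 * (τ - t) := by
    refine h5.trans ?_
    have := DD_nonneg (x := x) ht.2.le
    gcongr
  have h8 := Real.log_le_log (pow_pos (hXpos t htI) 4) h7
  rw [Real.log_pow, Real.log_mul (by positivity) hδ.ne', Real.log_pow] at h8
  push_cast at h8
  rw [one_div, Real.log_inv]
  nlinarith

end

end Pool.Agent.Q62.DN.JR
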