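import Pool.Agent.Q62.DN.Boots
import Pool.Agent.Q62.DN.JumpR

/-!
Energy lost at the first singular time, in the abstract frame.
-/

set_option autoImplicit false
set_option linter.unusedSectionVars false

open MeasureTheory Set Filter Topology
open scoped InnerProductSpace

namespace Pool.Agent.Q62.DN

open H772R2.NSR (Frame prim_cont grad_unique ae_deriv_of_prim memLp_ii)
open H772R2.NSG (by_parts ii_of_int int_inner norm_m_le mem_cont)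
open Pool.Agent.W795.TQ
open Pool.Agent.W790.TQ (toSt sq_prim)

section

variable {H K : Type} [NormedAddCommGroup H] [InnerProductSpace ℝ H] [CompleteSpace H]
  [NormedAddCommGroup K] [InnerProductSpace ℝ K] [CompleteSpace K]
  {W : Submodule ℝ (H × K)} {m : H → K} {C c ν τ : ℝ}
  {F F1 : ℝ → K} {u u1 : ℝ → H} {z z1 : ℝ → K}

/-- the weak limit at the final time -/
theorem exists_weak_limit {x0 : H} {v : ℝ → H} {G : ℝ → K} (hτ : 0 < τ) {M : ℝ}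
    (hM : ∀ t ∈ Icc 0 τ, ‖v t‖ ≤ M) (hG : Integrable G (volume.restrict (Ioc 0 τ)))
    (hweak : ∀ p ∈ W, ∀ t ∈ Icc 0 τ, ⟪v t - x0, p.1⟫_ℝ = ∫ s in (0 : ℝ)..t, ⟪G s, p.2⟫_ℝ)
    (hmem : ∀ t ∈ Ico 0 τ, ∃ ζ, (v t, ζ) ∈ W) :
    ∃ U : H, (∀ ε : ℝ, 0 < ε → ∃ q ∈ W, ‖U - q.1‖ ≤ ε) ∧ (∀ p ∈ W, ⟪v τ, p.1⟫_ℝ = ⟪U, p.1⟫_ℝ) ∧
      ∀ w : H, Tendsto (fun t => ⟪v t, w⟫_ℝ) (𝓝[<] τ) (𝓝 ⟪U, w⟫_ℝ) := by
  set S : Submodule ℝ H := (W.map (LinearMap.fst ℝ H K)).topologicalClosure with hS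
  have : CompleteSpace S := (Submodule.isClosed_topologicalClosure _).completeSpace_coe
  have hWS : ∀ p ∈ W, p.1 ∈ S := fun p hp =>
    Submodule.le_topologicalClosure _ ⟨p, hp, rfl⟩
  set U : H := S.starProjection (v τ) with hU
  have hUS : U ∈ S := Submodule.starProjection_apply_mem _ _
  have happ : ∀ x ∈ S, ∀ ε : ℝ, 0 < ε → ∃ q ∈ W, ‖x - q.1‖ ≤ ε := by
    intro x hx ε hε
    have h1 : x ∈ closure ((W.map (LinearMap.fst ℝ H K) : Submodule ℝ H) : Set H) := hx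
    obtain ⟨b, hb, hb'⟩ := Metric.mem_closure_iff.1 h1 ε hε
    obtain ⟨q, hq, hq'⟩ := hb
    refine ⟨q, hq, ?_⟩
    have e : q.1 = b := hq'
    rw [e, ← dist_eq_norm]
    exact hb'.le
  have hUτ : ∀ x ∈ S, ⟪v τ, x⟫_ℝ = ⟪U, x⟫_ℝ := by
    intro x hx
    have h1 := Submodule.starProjection_inner_eq_zero (K := S) (v τ) x hx
    rw [inner_sub_left] at h1
    linarith
  refine ⟨U, happ U hUS, fun p hp => hUτ _ (hWS p hp), fun w => ?_⟩
  -- convergence on the elements of `W`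
  have hconv : ∀ p ∈ W, Tendsto (fun t => ⟪v t, p.1⟫_ℝ) (𝓝[<] τ) (𝓝 ⟪U, p.1⟫_ℝ) := by
    intro p hp
    have h1 : ContinuousOn (fun t => ∫ s in (0 : ℝ)..t, ⟪G s, p.2⟫_ℝ) (Icc 0 τ) := by
      have hi : IntervalIntegrable (fun s => ⟪G s, p.2⟫_ℝ) volume 0 τ :=
        ii_of_int (hG.inner_const p.2) le_rfl hτ.le le_rfl
      have := intervalIntegral.continuousOn_primitive_interval' (a := 0) (b₁ := 0) (b₂ := τ) hi
        left_mem_uIcc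
      rwa [uIcc_of_le hτ.le] at this
    have h2 : Tendsto (fun t => ⟪x0, p.1⟫_ℝ + ∫ s in (0 : ℝ)..t, ⟪G s, p.2⟫_ℝ) (𝓝[<] τ)
        (𝓝 (⟪x0, p.1⟫_ℝ + ∫ s in (0 : ℝ)..τ, ⟪G s, p.2⟫_ℝ)) := by
      refine Tendsto.const_add _ ?_
      have h3 := h1 τ ⟨hτ.le, le_rfl⟩
      refine h3.mono_left ?_
      rw [nhdsWithin_le_iff]
      filter_upwards [self_mem_nhdsWithin, mem_nhdsWithin_of_mem_nhds (Ioi_mem_nhds hτ)] with t l1 l2
      exact ⟨le_of_lt l2, le_of_lt l1⟩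
    have e : ⟪U, p.1⟫_ℝ = ⟪x0, p.1⟫_ℝ + ∫ s in (0 : ℝ)..τ, ⟪G s, p.2⟫_ℝ := by
      have := hweak p hp τ ⟨hτ.le, le_rfl⟩
      rw [inner_sub_left, hUτ _ (hWS p hp)] at this
      linarith
    rw [e]
    refine h2.congr' ?_
    filter_upwards [self_mem_nhdsWithin, mem_nhdsWithin_of_mem_nhds (Ioi_mem_nhds hτ)] with t l1 l2
    have := hweak p hp t ⟨le_of_lt l2, le_of_lt l1⟩
    rw [inner_sub_left] at this
    linarith
  -- all elements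
  set w' : H := S.starProjection w with hw'
  have hw'S : w' ∈ S := Submodule.starProjection_apply_mem _ _
  have hww : ∀ x ∈ S, ⟪x, w⟫_ℝ = ⟪x, w'⟫_ℝ := by
    intro x hx
    have h1 := Submodule.starProjection_inner_eq_zero (K := S) w x hx
    rw [inner_sub_left, real_inner_comm x w, real_inner_comm x w'] at h1
    linarith
  have hM0 : 0 ≤ M := (norm_nonneg _).trans (hM 0 ⟨le_rfl, hτ.le⟩)
  have hUM : ‖U‖ ≤ M :=
    (Submodule.norm_starProjection_apply_le _ _).trans (hM τ ⟨hτ.le, le_rfl⟩)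
  rw [hww U hUS, Metric.tendsto_nhds]
  intro ε hε
  obtain ⟨q, hq, hqe⟩ := happ w' hw'S (ε / (4 * (M + 1))) (by positivity)
  have h1 := (Metric.tendsto_nhds.1 (hconv q hq)) (ε / 2) (by positivity)
  filter_upwards [h1, self_mem_nhdsWithin, mem_nhdsWithin_of_mem_nhds (Ioi_mem_nhds hτ)]
    with t k1 l1 l2
  have htI : t ∈ Icc 0 τ := ⟨le_of_lt l2, le_of_lt l1⟩
  obtain ⟨ζ, hζ⟩ := hmem t ⟨le_of_lt l2, l1⟩
  rw [hww (v t) (hWS _ hζ)]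
  rw [Real.dist_eq] at k1 ⊢
  have e : ⟪v t, w'⟫_ℝ - ⟪U, w'⟫_ℝ = (⟪v t, q.1⟫_ℝ - ⟪U, q.1⟫_ℝ) + ⟪v t - U, w' - q.1⟫_ℝ := by
    simp only [inner_sub_left, inner_sub_right]
    ring
  rw [e]
  have h2 : |⟪v t - U, w' - q.1⟫_ℝ| ≤ (2 * M) * (ε / (4 * (M + 1))) := by
    refine (abs_real_inner_le_norm _ _).trans ?_
    have h3 : ‖v t - U‖ ≤ 2 * M := by
      have := norm_sub_le (v t) U
      linarith [hM t htI]
    exact mul_le_mul h3 hqe (norm_nonneg _) (by positivity)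
  have h3 : (2 * M) * (ε / (4 * (M + 1))) < ε / 2 := by
    have : (2 * M) * (ε / (4 * (M + 1))) = (M / (M + 1)) * (ε / 2) := by field_simp; ring
    rw [this]
    have h4 : M / (M + 1) < 1 := by
      rw [div_lt_one (by positivity)]
      linarith
    nlinarith
  have h5 := abs_add_le (⟪v t, q.1⟫_ℝ - ⟪U, q.1⟫_ℝ) ⟪v t - U, w' - q.1⟫_ℝ
  linarith

open JR in
/-- the inequality between the jump, the gradient and its integrals -/
theorem jump_ineq (Fr : Frame W m C) (Un : Univ W m c) (hν : 0 < ν) (hτ : 0 < τ) {x0 U : H}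
    {v : ℝ → H} {Φ θ : ℝ} (hΦ : ∀ t ∈ Icc 0 τ, ‖F t‖ ≤ Φ)
    (hmem : ∀ t ∈ Ico 0 τ, (v t, z t) ∈ W)
    (hG : Integrable (fun s => F s - ν • z s + m (v s)) (volume.restrict (Ioc 0 τ)))
    (h3 : IntervalIntegrable (fun r => p32 ‖z r‖) volume 0 τ)
    (hweak : ∀ p ∈ W, ∀ t ∈ Icc 0 τ, ⟪v t - x0, p.1⟫_ℝ
      = ∫ s in (0 : ℝ)..t, ⟪F s - ν • z s + m (v s), p.2⟫_ℝ)
    (hUa : ∀ ε : ℝ, 0 < ε → ∃ q ∈ W, ‖U - q.1‖ ≤ ε) (hUτ : ∀ p ∈ W, ⟪v τ, p.1⟫_ℝ = ⟪U, p.1⟫_ℝ)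
    (hθ : 0 < θ) (hlim : Tendsto (fun t => ‖v t - U‖ ^ 2) (𝓝[<] τ) (𝓝 θ)) :
    ∃ t1 ∈ Ico 0 τ, ∃ Q B : ℝ, 0 ≤ Q ∧ 0 ≤ B ∧ ∀ t ∈ Ioo t1 τ, 15 / 32 * θ ≤
      (‖z t‖ + Q) * (2 * c * θ ^ (1 / 4 : ℝ) * XX (fun r => ‖z r‖) τ t + B * (τ - t)) := by
  have hc := Un.c0
  have hC := Fr.C0
  set r4 : ℝ := θ ^ (1 / 4 : ℝ) with hr4
  have hr40 : 0 < r4 := by positivity
  have hr44 : r4 ^ 4 = θ := by
    rw [hr4, ← Real.rpow_natCast, ← Real.rpow_mul hθ.le]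
    norm_num
  obtain ⟨q, hq, hqe⟩ := hUa (r4 ^ 2 / 8) (by positivity)
  have hlim' : ∀ᶠ t in 𝓝[<] τ, ‖v t - U‖ ^ 2 ∈ Ioo ((7 / 8 * r4 ^ 2) ^ 2) ((9 / 8 * r4 ^ 2) ^ 2) := by
    refine hlim.eventually (Ioo_mem_nhds ?_ ?_)
    · rw [← hr44]; nlinarith [pow_pos hr40 4]
    · rw [← hr44]; nlinarith [pow_pos hr40 4]
  obtain ⟨t2, ht2, ht2'⟩ := (mem_nhdsLT_iff_exists_Ioo_subset).1 hlim'
  have ht2τ : t2 < τ := ht2
  set t1 := max 0 t2 with ht1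
  have ht1τ : t1 < τ := max_lt hτ ht2τ
  have hΦ0 : 0 ≤ Φ := (norm_nonneg _).trans (hΦ 0 ⟨le_rfl, hτ.le⟩)
  set Q : ℝ := ‖q.2‖ with hQ
  have hQ0 : 0 ≤ Q := norm_nonneg _
  set C1 : ℝ := C * (‖q.1‖ * Q ^ 3) + 1 with hC1
  have hC10 : 0 < C1 := by positivity
  set B1 : ℝ := ν + 2 * C1 with hB1
  have hB10 : 0 < B1 := by positivity
  set l : ℝ := 3 / 10 * c * r4 / B1 with hl
  have hl0 : 0 < l := by positivity
  set B : ℝ := Φ + C1 * Q + B1 / l ^ 2 + 17 / 10 * c * r4 * p32 Q with hB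
  have hB0 : 0 ≤ B := by
    have := p32_nonneg Q
    positivity
  -- distance from `q`
  have hdist : ∀ t ∈ Ioo t1 τ, 3 / 4 * r4 ^ 2 ≤ ‖v t - q.1‖ ∧ ‖v t - q.1‖ ≤ 5 / 4 * r4 ^ 2 := by
    intro t ht
    have h1 := ht2' ⟨(le_max_right _ _).trans_lt ht.1, ht.2⟩
    have h2 : ‖v t - U‖ ^ 2 ∈ Ioo ((7 / 8 * r4 ^ 2) ^ 2) ((9 / 8 * r4 ^ 2) ^ 2) := h1
    have h4 : 7 / 8 * r4 ^ 2 < ‖v t - U‖ := lt_of_pow_lt_pow_left₀ 2 (norm_nonneg _) h2.1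
    have h5 : ‖v t - U‖ < 9 / 8 * r4 ^ 2 := lt_of_pow_lt_pow_left₀ 2 (by positivity) h2.2
    have h6 : ‖v t - q.1‖ ≤ ‖v t - U‖ + ‖U - q.1‖ := norm_sub_le_norm_sub_add_norm_sub _ _ _
    have h7 : ‖v t - U‖ ≤ ‖v t - q.1‖ + ‖U - q.1‖ := by
      have := norm_sub_le_norm_sub_add_norm_sub (v t) q.1 U
      rwa [norm_sub_rev q.1 U] at this
    constructor <;> linarith
  -- the bound of the stress
  have hGb : ∀ s ∈ Ioo t1 τ, ‖F s - ν • z s + m (v s)‖ ≤ 2 * c * r4 * p32 ‖z s‖ + B := by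
    intro s hs
    have hs0 : s ∈ Ico 0 τ := ⟨((le_max_left _ _).trans_lt hs.1).le, hs.2⟩
    have hm1 := hmem s hs0
    have hm2 : (v s - q.1, z s - q.2) ∈ W := W.sub_mem hm1 hq
    have k1 : ‖m (v s) - m (v s - q.1)‖ ≤ C1 * (2 * ‖z s‖ + Q) := by
      have l1 := Fr.lips _ hm1 _ hm2
      simp only [sub_sub_cancel] at l1
      refine le_of_pow_le_pow_left₀ (n := 4) (by norm_num) (by positivity) (l1.trans ?_)
      have l2 : ‖z s‖ + ‖z s - q.2‖ ≤ 2 * ‖z s‖ + Q := by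
        have := norm_sub_le (z s) q.2
        linarith
      calc C * (‖q.1‖ * ‖q.2‖ ^ 3 * (‖z s‖ + ‖z s - q.2‖) ^ 4)
          ≤ C * (‖q.1‖ * ‖q.2‖ ^ 3 * (2 * ‖z s‖ + Q) ^ 4) := by gcongr
        _ = (C * (‖q.1‖ * Q ^ 3)) * (2 * ‖z s‖ + Q) ^ 4 := by rw [hQ]; ring
        _ ≤ C1 ^ 4 * (2 * ‖z s‖ + Q) ^ 4 := by
            have l3 : C * (‖q.1‖ * Q ^ 3) ≤ C1 ^ 4 := by
              set w := C * (‖q.1‖ * Q ^ 3) with hw
              have hw0 : 0 ≤ w := by positivity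
              have : (w + 1) ^ 4 = w + (1 + 3 * w + 6 * w ^ 2 + 4 * w ^ 3 + w ^ 4) := by ring
              rw [hC1, this]
              have : 0 ≤ 1 + 3 * w + 6 * w ^ 2 + 4 * w ^ 3 + w ^ 4 := by positivity
              linarith
            gcongr
        _ = (C1 * (2 * ‖z s‖ + Q)) ^ 4 := by ring
    have k2 : ‖m (v s - q.1)‖ ≤ 17 / 10 * c * r4 * (p32 ‖z s‖ + p32 Q) := by
      have l1 := Un.quart _ hm2
      simp only at l1
      refine l1.trans ?_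
      have l2 : Real.sqrt ‖v s - q.1‖ ≤ 9 / 8 * r4 := by
        refine Real.sqrt_le_iff.2 ⟨by positivity, (hdist s hs).2.trans ?_⟩
        nlinarith [sq_nonneg r4]
      have l3 : Real.sqrt ‖z s - q.2‖ ^ 3 ≤ 3 / 2 * (p32 ‖z s‖ + p32 Q) := by
        have e : Real.sqrt ‖z s - q.2‖ ^ 3 = p32 ‖z s - q.2‖ := rfl
        rw [e]
        exact (p32_mono (norm_sub_le _ _)).trans (p32_add (norm_nonneg _) hQ0)
      have h0 := p32_nonneg ‖z s‖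
      have h0' := p32_nonneg Q
      calc c * (Real.sqrt ‖v s - q.1‖ * Real.sqrt ‖z s - q.2‖ ^ 3)
          ≤ c * ((9 / 8 * r4) * (3 / 2 * (p32 ‖z s‖ + p32 Q))) := by gcongr
        _ = 27 / 16 * (c * r4 * (p32 ‖z s‖ + p32 Q)) := by ring
        _ ≤ 17 / 10 * (c * r4 * (p32 ‖z s‖ + p32 Q)) := by
            have : 0 ≤ c * r4 * (p32 ‖z s‖ + p32 Q) := by positivity
            linarith
        _ = _ := by ring
    have k3 : ‖m (v s)‖ ≤ C1 * (2 * ‖z s‖ + Q) + 17 / 10 * c * r4 * (p32 ‖z s‖ + p32 Q) := by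
      have : m (v s) = (m (v s) - m (v s - q.1)) + m (v s - q.1) := by abel
      rw [this]
      exact (norm_add_le _ _).trans (add_le_add k1 k2)
    have k4 : ‖z s‖ ≤ l * p32 ‖z s‖ + 1 / l ^ 2 := le_p32 (norm_nonneg _) hl0
    have k5 : B1 * ‖z s‖ ≤ 3 / 10 * c * r4 * p32 ‖z s‖ + B1 / l ^ 2 := by
      have e1 : B1 * ‖z s‖ ≤ B1 * (l * p32 ‖z s‖ + 1 / l ^ 2) := by gcongr
      have e2 : B1 * (l * p32 ‖z s‖ + 1 / l ^ 2) = (B1 * l) * p32 ‖z s‖ + B1 / l ^ 2 := by ring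
      have e3 : B1 * l = 3 / 10 * c * r4 := by rw [hl]; field_simp
      rw [e2, e3] at e1
      exact e1
    have k6 : ‖F s - ν • z s + m (v s)‖ ≤ Φ + ν * ‖z s‖ + ‖m (v s)‖ := by
      refine (norm_add_le _ _).trans ?_
      have : ‖F s - ν • z s‖ ≤ Φ + ν * ‖z s‖ := by
        refine (norm_sub_le _ _).trans ?_
        rw [norm_smul, Real.norm_eq_abs, abs_of_pos hν]
        have := hΦ s ⟨hs0.1, hs0.2.le⟩
        linarith
      linarith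
    have k7 : B1 * ‖z s‖ = ν * ‖z s‖ + 2 * C1 * ‖z s‖ := by rw [hB1]; ring
    rw [hB]
    have k8 : 0 ≤ c * r4 * p32 ‖z s‖ := by
      have := p32_nonneg ‖z s‖
      positivity
    nlinarith
  refine ⟨t1, ⟨le_max_left _ _, ht1τ⟩, Q, B, hQ0, hB0, fun t ht => ?_⟩
  have ht0 : 0 < t := (le_max_left _ _).trans_lt ht.1
  have htI : t ∈ Ico 0 τ := ⟨ht0.le, ht.2⟩
  have hm1 := hmem t htI
  have hm2 : (v t - q.1, z t - q.2) ∈ W := W.sub_mem hm1 hq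
  have e1 := hweak _ hm2 τ ⟨hτ.le, le_rfl⟩
  have e2 := hweak _ hm2 t ⟨ht0.le, ht.2.le⟩
  simp only at e1 e2
  have hGi : Integrable (fun s => ⟪F s - ν • z s + m (v s), z t - q.2⟫_ℝ)
      (volume.restrict (Ioc 0 τ)) := hG.inner_const _
  have i1 := ii_of_int hGi le_rfl ht0.le ht.2.le
  have i2 := ii_of_int hGi ht0.le ht.2.le le_rfl
  have e3 := intervalIntegral.integral_add_adjacent_intervals i1 i2
  have e4 := hUτ _ hm2
  simp only at e4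
  have e5 : ⟪U - v t, v t - q.1⟫_ℝ = ∫ s in t..τ, ⟪F s - ν • z s + m (v s), z t - q.2⟫_ℝ := by
    rw [inner_sub_left, ← e4]
    rw [inner_sub_left] at e1 e2
    linarith
  have hGn : Integrable (fun s => ‖F s - ν • z s + m (v s)‖) (volume.restrict (Ioc 0 τ)) := hG.norm
  have i3 := ii_of_int hGn ht0.le ht.2.le le_rfl
  have e6 : -(‖z t - q.2‖ * ∫ s in t..τ, ‖F s - ν • z s + m (v s)‖)
      ≤ ∫ s in t..τ, ⟪F s - ν • z s + m (v s), z t - q.2⟫_ℝ := by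
    rw [← intervalIntegral.integral_const_mul, ← intervalIntegral.integral_neg]
    refine intervalIntegral.integral_mono_on ht.2.le (i3.const_mul _).neg i2 fun s _ => ?_
    have := abs_real_inner_le_norm (F s - ν • z s + m (v s)) (z t - q.2)
    have h4 := neg_abs_le ⟪F s - ν • z s + m (v s), z t - q.2⟫_ℝ
    linarith
  have e7 : ⟪U - v t, v t - q.1⟫_ℝ = ⟪U - q.1, v t - q.1⟫_ℝ - ‖v t - q.1‖ ^ 2 := by
    rw [← real_inner_self_eq_norm_sq, ← inner_sub_left]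
    congr 1
    abel
  have e8 : ⟪U - q.1, v t - q.1⟫_ℝ ≤ r4 ^ 2 / 8 * ‖v t - q.1‖ :=
    (real_inner_le_norm _ _).trans (mul_le_mul_of_nonneg_right hqe (norm_nonneg _))
  obtain ⟨d1, d2⟩ := hdist t ht
  have e9 : ∫ s in t..τ, ‖F s - ν • z s + m (v s)‖
      ≤ 2 * c * r4 * XX (fun r => ‖z r‖) τ t + B * (τ - t) := by
    unfold XX
    have i4 : IntervalIntegrable (fun r => p32 ‖z r‖) volume t τ := sub_ii h3 ht0.le ht.2.le le_rfl
    have : ∫ s in t..τ, ‖F s - ν • z s + m (v s)‖ ≤ ∫ s in t..τ, (2 * c * r4 * p32 ‖z s‖ + B) := by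
      refine intervalIntegral.integral_mono_on_of_le_Ioo ht.2.le i3
        ((i4.const_mul _).add intervalIntegrable_const) fun s hs => ?_
      exact hGb s ⟨ht.1.trans hs.1, hs.2⟩
    rw [intervalIntegral.integral_add (i4.const_mul _) intervalIntegrable_const,
      intervalIntegral.integral_const_mul, intervalIntegral.integral_const, smul_eq_mul] at this
    linarith
  have e10 : ‖z t - q.2‖ ≤ ‖z t‖ + Q := norm_sub_le _ _
  have e11 : 0 ≤ ∫ s in t..τ, ‖F s - ν • z s + m (v s)‖ :=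
    intervalIntegral.integral_nonneg ht.2.le fun s _ => norm_nonneg _
  have e12 : ‖z t - q.2‖ * ∫ s in t..τ, ‖F s - ν • z s + m (v s)‖
      ≤ (‖z t‖ + Q) * (2 * c * r4 * XX (fun r => ‖z r‖) τ t + B * (τ - t)) := by
    have h0 := norm_nonneg (z t)
    exact mul_le_mul e10 e9 e11 (by positivity)
  refine le_trans ?_ e12
  rw [← hr44]
  rw [e5] at e7
  nlinarith [pow_pos hr40 2]

end

end Pool.Agent.Q62.DN
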