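import Pool.Agent.Q62.DN.Jump
import Pool.Agent.W795.ES.Pub

/-!
Energy lost at the first singular time, in a domain.
-/

set_option autoImplicit false
set_option linter.unusedSectionVars false

open MeasureTheory Set Filter Topology
open scoped InnerProductSpace ENNReal ContDiff

namespace Pool.Agent.Q62.DN

open H772R2.NS H772R2.NS.Pub H772R2.NSR H772R2.NSG
open Pool.Agent.W795.TQ
open Pool.Agent.W795.ES (S_conc S_gr Tri Smo stretch stretch_eq increment limit_state int_sq)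
open JR

/-- the conclusions about the loss of energy at the time `τ`, in terms of the gradient `y` -/
def JumpConcl {K : Type} [NormedAddCommGroup K] (κ τ : ℝ) (y : ℝ → K) : Prop :=
  (∃ h0 : ℝ, 0 < h0 ∧ h0 ≤ τ ∧ ∀ h : ℝ, 0 < h → h < h0 →
    κ ^ 4 * h ≤ 4 * (∫ t in (τ - h)..τ, ‖y t‖ ^ 2) ^ 5) ∧
  (∃ t1 ∈ Ico 0 τ, ∀ᵐ t ∂(volume.restrict (Ioo t1 τ)),
    κ ≤ ‖y t‖ * ∫ r in t..τ, ‖y r‖ ^ (3 / 2 : ℝ)) ∧
  ∀ s ∈ Ico 0 τ, ∃ M : ℝ, ∀ t ∈ Ioo s τ,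
    κ / 4 * Real.log (1 / (τ - t)) - M ≤ ∫ r in s..t, ‖y r‖ ^ (5 / 2 : ℝ)

/-- the criterion which makes `τ` a singular time -/
def SingAt {H : Type} [NormedAddCommGroup H] (τ : ℝ) (v : ℝ → H) : Prop :=
  ∃ k : ℝ, 0 < k ∧ ∀ (U : H) (h0 : ℝ), 0 < h0 → h0 ≤ τ → ∃ h : ℝ, 0 < h ∧ h ≤ h0 ∧
    k * h ^ (3 / 2 : ℝ) < ∫ t in (τ - h)..τ, ‖v t - U‖ ^ 2

/-- a solution with bounded time derivative is not singular -/
theorem SingAt.not_lip {H : Type} [NormedAddCommGroup H] {τ M : ℝ} {v : ℝ → H} (hτ : 0 < τ)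
    (h : SingAt τ v) (hM : ∀ t ∈ Icc 0 τ, ‖v t - v τ‖ ≤ M * (τ - t)) : False := by
  obtain ⟨k, hk, h1⟩ := h
  set N : ℝ := max M 1 with hN
  have hN1 : 1 ≤ N := le_max_right _ _
  have hN0 : 0 < N := by linarith
  -- a small `h0`
  have hlim : Tendsto (fun x : ℝ => N ^ 2 * x ^ (3 / 2 : ℝ)) (𝓝 0) (𝓝 0) := by
    have h2 : ContinuousAt (fun x : ℝ => N ^ 2 * x ^ (3 / 2 : ℝ)) 0 :=
      continuousAt_const.mul (Real.continuousAt_rpow_const _ _ (Or.inr (by norm_num)))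
    have h3 := h2.tendsto
    rwa [Real.zero_rpow (by norm_num), mul_zero] at h3
  have hev : ∀ᶠ x in 𝓝[>] (0 : ℝ), N ^ 2 * x ^ (3 / 2 : ℝ) < k :=
    (hlim.mono_left nhdsWithin_le_nhds).eventually (gt_mem_nhds hk)
  obtain ⟨b, hb0, hb⟩ := (nhdsGT_basis (0 : ℝ)).eventually_iff.mp hev
  obtain ⟨h, hh0, hh1, hh2⟩ := h1 (v τ) (min (b / 2) τ) (lt_min (by linarith) hτ) (min_le_right _ _)
  have hhb : h < b := by
    have := hh1.trans (min_le_left _ _)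
    linarith
  have hhτ : h ≤ τ := hh1.trans (min_le_right _ _)
  have h4 : ∀ t ∈ Icc (τ - h) τ, ‖v t - v τ‖ ^ 2 ≤ N ^ 2 * h ^ 2 := by
    intro t ht
    have h5 := hM t ⟨by linarith [ht.1], ht.2⟩
    have h6 : M * (τ - t) ≤ N * h :=
      (mul_le_mul_of_nonneg_right (le_max_left M 1) (by linarith [ht.2])).trans
        (mul_le_mul_of_nonneg_left (by linarith [ht.1]) hN0.le)
    have h7 : ‖v t - v τ‖ ≤ N * h := h5.trans h6
    calc ‖v t - v τ‖ ^ 2 ≤ (N * h) ^ 2 := pow_le_pow_left₀ (norm_nonneg _) h7 2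
      _ = _ := by ring
  have h8 : ∫ t in (τ - h)..τ, ‖v t - v τ‖ ^ 2 ≤ N ^ 2 * h ^ 2 * h := by
    have h9 := intervalIntegral.norm_integral_le_of_norm_le_const (a := τ - h) (b := τ)
      (f := fun t => ‖v t - v τ‖ ^ 2) (C := N ^ 2 * h ^ 2) (fun t ht => by
        rw [uIoc_of_le (by linarith)] at ht
        rw [Real.norm_eq_abs, abs_of_nonneg (by positivity)]
        exact h4 t ⟨ht.1.le, ht.2⟩)
    have e : |τ - (τ - h)| = h := by rw [sub_sub_cancel, abs_of_pos hh0]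
    rw [e] at h9
    exact (le_abs_self _).trans h9
  have h10 : N ^ 2 * h ^ (3 / 2 : ℝ) < k := hb ⟨hh0, hhb⟩
  have e3 : h ^ 2 * h = h ^ (3 / 2 : ℝ) * h ^ (3 / 2 : ℝ) := by
    rw [← Real.rpow_add hh0]
    norm_num
    ring
  have hp : 0 < h ^ (3 / 2 : ℝ) := Real.rpow_pos_of_pos hh0 _
  have h11 : N ^ 2 * h ^ 2 * h < k * h ^ (3 / 2 : ℝ) := by
    calc N ^ 2 * h ^ 2 * h = (N ^ 2 * h ^ (3 / 2 : ℝ)) * h ^ (3 / 2 : ℝ) := by
          rw [mul_assoc, e3]; ring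
      _ < _ := mul_lt_mul_of_pos_right h10 hp
  linarith

theorem jump_abs (hit : S_iter) (hode : S_ode) (htp : S_dtp) (he1 : S_est1)
    (he2 : S_est2) (hloc : S_loc) (huni : S_uni) : ∀ c : ℝ, 0 < c →
    ∀ (H K : Type) [NormedAddCommGroup H] [InnerProductSpace ℝ H] [CompleteSpace H]
      [NormedAddCommGroup K] [InnerProductSpace ℝ K] [CompleteSpace K]
      (W : Submodule ℝ (H × K)) (m : H → K) (C ν T : ℝ) (F F1 : ℝ → K) (x0 g0 : H) (z0 : K)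
      (v : ℝ → H) (y : ℝ → K), Frame W m C → Univ W m c →
      (∀ R : ℝ, TotallyBounded {v : H | ∃ z, (v, z) ∈ W ∧ ‖z‖ ≤ R}) →
      0 < ν → 0 < T → FH T F F1 → (x0, z0) ∈ W →
      (∀ p ∈ W, ⟪F 0 - ν • z0 + m x0, p.2⟫_ℝ = ⟪g0, p.1⟫_ℝ) →
      H772R2.NSG.LH W m T (fun _ => ν) F x0 v y →
      (∃ (u u1 : ℝ → H) (z z1 : ℝ → K), Str W m ν T F u u1 z z1 ∧ ∀ t ∈ Icc 0 T, v t = u t) ∨
      ∃ τ ∈ Ioc 0 T, (∀ t ∈ Ioo 0 τ, ∃ (u u1 : ℝ → H) (z z1 : ℝ → K), Str W m ν t F u u1 z z1 ∧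
          ∀ s ∈ Icc 0 t, v s = u s) ∧
        SingAt τ v ∧
        ∃ (U : H) (θ : ℝ), 0 ≤ θ ∧ (∀ w : H, Tendsto (fun t => ⟪v t, w⟫_ℝ) (𝓝[<] τ) (𝓝 ⟪U, w⟫_ℝ)) ∧
          Tendsto (fun t => ‖v t - U‖ ^ 2) (𝓝[<] τ) (𝓝 θ) ∧
          (0 < θ → JumpConcl (θ ^ (3 / 4 : ℝ) / (16 * c)) τ y) := by
  intro c hc
  obtain ⟨k0, hk0, hcrit⟩ := dcrit hit hode htp he1 he2 hloc huni c hc
  intro H K _ _ _ _ _ _ W m C ν T F F1 x0 g0 z0 v y Fr Un hcomp hν hT hF h0 hg L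
  rcases hcrit H K W m C ν T F F1 x0 g0 z0 v y Fr Un hcomp hν hT hF h0 hg L with hl | hr
  · exact Or.inl hl
  refine Or.inr ?_
  obtain ⟨τ, hτ, hst, hsing⟩ := hr
  refine ⟨τ, hτ, hst, ⟨k0 * ν ^ (5 / 2 : ℝ), by positivity, hsing⟩, ?_⟩
  have hτ0 : 0 < τ := hτ.1
  have hFc : ContinuousOn F (Icc 0 T) := prim_cont hF.memLp hF.prim
  obtain ⟨Φ, hΦ⟩ : ∃ Φ : ℝ, ∀ t ∈ Icc 0 τ, ‖F t‖ ≤ Φ := by
    obtain ⟨B, hB⟩ := (isCompact_Icc.image_of_continuousOn hFc).isBounded.exists_norm_le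
    exact ⟨B, fun t ht => hB _ ⟨t, ⟨ht.1, ht.2.trans hτ.2⟩, rfl⟩⟩
  have hCo : H772R2.NSG.Coef ν T (fun _ => ν) F :=
    ⟨memLp_const _, Eventually.of_forall fun _ => le_rfl, H772R2.NSG.mem_cont hFc⟩
  obtain ⟨M0, hM0⟩ := L.bdd hν.le hCo
  set z : ℝ → K := gz W v with hz
  have hsubτ : (volume.restrict (Ioc 0 τ) : Measure ℝ) ≤ volume.restrict (Ioc 0 T) :=
    Measure.restrict_mono (Ioc_subset_Ioc_right hτ.2) le_rfl
  have hst' : ∀ t ∈ Ioo 0 τ, Str W m ν t F v (deriv v) z (deriv z) := by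
    intro t ht
    obtain ⟨u, u1, z, z1, k1, k2⟩ := hst t ht
    exact canon Fr ht.1 k1 k2
  have hyz : ∀ᵐ s ∂(volume.restrict (Ioc 0 τ)), y s = z s := by
    filter_upwards [ae_mono hsubτ L.mem] with s hs
    exact (gz_eq Fr hs).symm
  have hmem : ∀ t ∈ Ico 0 τ, (v t, z t) ∈ W := by
    intro t ht
    have h1 := hst' ((t + τ) / 2) ⟨by linarith [ht.1], by linarith [ht.2]⟩
    exact h1.mem t ⟨ht.1, by linarith [ht.2]⟩
  have hzc : ContinuousOn z (Ico 0 τ) := by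
    intro t ht
    have h1 := hst' ((t + τ) / 2) ⟨by linarith [ht.1], by linarith [ht.2]⟩
    have h2 : ContinuousOn z (Icc 0 ((t + τ) / 2)) := prim_cont h1.z1m h1.pz
    have h3 := h2 t ⟨ht.1, by linarith [ht.2]⟩
    refine h3.mono_of_mem_nhdsWithin ?_
    rw [mem_nhdsWithin]
    exact ⟨Iio ((t + τ) / 2), isOpen_Iio, by simp only [mem_Iio]; linarith [ht.2],
      fun r hr => ⟨hr.2.1, hr.1.le⟩⟩
  have hz2 : MemLp z 2 (volume.restrict (Ioc 0 τ)) :=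
    (L.z2.mono_measure hsubτ).ae_eq hyz
  have hGy : Integrable (fun s => F s - ν • y s + m (v s)) (volume.restrict (Ioc 0 τ)) :=
    (L.Gi Fr hCo).mono_measure hsubτ
  have hG : Integrable (fun s => F s - ν • z s + m (v s)) (volume.restrict (Ioc 0 τ)) := by
    refine hGy.congr ?_
    filter_upwards [hyz] with s hs
    rw [hs]
  have hweak : ∀ p ∈ W, ∀ t ∈ Icc 0 τ, ⟪v t - x0, p.1⟫_ℝ
      = ∫ s in (0 : ℝ)..t, ⟪F s - ν • z s + m (v s), p.2⟫_ℝ := by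
    intro p hp t ht
    rw [L.weak p hp t ⟨ht.1, ht.2.trans hτ.2⟩, intervalIntegral.integral_of_le ht.1,
      intervalIntegral.integral_of_le ht.1]
    refine integral_congr_ae ?_
    filter_upwards [ae_mono (Measure.restrict_mono (Ioc_subset_Ioc_right ht.2) le_rfl) hyz]
      with s hs
    rw [hs]
  obtain ⟨U, hUa, hUτ, hUw⟩ := exists_weak_limit (W := W) (x0 := x0) (v := v) hτ0
    (fun t ht => hM0 t ⟨ht.1, ht.2.trans hτ.2⟩) hG hweak (fun t ht => ⟨z t, hmem t ht⟩)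
  -- convergence of the energy
  have hx2 : Integrable (fun s => ‖z s‖ ^ 2) (volume.restrict (Ioc 0 τ)) :=
    (memLp_two_iff_integrable_sq_norm hz2.aestronglyMeasurable).mp hz2
  have hFz : Integrable (fun s => ⟪F s, z s⟫_ℝ) (volume.restrict (Ioc 0 τ)) :=
    int_inner ((H772R2.NSG.mem_cont hFc).mono_measure hsubτ) hz2
  have hprim : ∀ f : ℝ → ℝ, Integrable f (volume.restrict (Ioc 0 τ)) →
      Tendsto (fun t => ∫ s in (0 : ℝ)..t, f s) (𝓝[<] τ) (𝓝 (∫ s in (0 : ℝ)..τ, f s)) := by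
    intro f hf
    have h1 : ContinuousOn (fun t => ∫ s in (0 : ℝ)..t, f s) (Icc 0 τ) := by
      have := intervalIntegral.continuousOn_primitive_interval' (a := 0) (b₁ := 0) (b₂ := τ)
        (ii_of_int hf le_rfl hτ0.le le_rfl) left_mem_uIcc
      rwa [uIcc_of_le hτ0.le] at this
    refine (h1 τ ⟨hτ0.le, le_rfl⟩).mono_left ?_
    rw [nhdsWithin_le_iff]
    filter_upwards [self_mem_nhdsWithin, mem_nhdsWithin_of_mem_nhds (Ioi_mem_nhds hτ0)] with t l1 l2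
    exact ⟨le_of_lt l2, le_of_lt l1⟩
  set e0 : ℝ := 2 * (‖v 0‖ ^ 2 / 2 + (∫ s in (0 : ℝ)..τ, ⟪F s, z s⟫_ℝ)
    - ν * ∫ s in (0 : ℝ)..τ, ‖z s‖ ^ 2) with he0
  have hen : Tendsto (fun t => ‖v t‖ ^ 2) (𝓝[<] τ) (𝓝 e0) := by
    have h1 := (((hprim _ hFz).const_add (‖v 0‖ ^ 2 / 2)).sub ((hprim _ hx2).const_mul ν)).const_mul 2
    refine h1.congr' ?_
    filter_upwards [self_mem_nhdsWithin, mem_nhdsWithin_of_mem_nhds (Ioi_mem_nhds hτ0)] with t l1 l2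
    have h2 := (hst' t ⟨l2, l1⟩).energy t ⟨le_of_lt l2, le_rfl⟩
    linarith
  have hlim : Tendsto (fun t => ‖v t - U‖ ^ 2) (𝓝[<] τ) (𝓝 (e0 - 2 * ⟪U, U⟫_ℝ + ‖U‖ ^ 2)) := by
    refine ((hen.sub ((hUw U).const_mul 2)).add_const (‖U‖ ^ 2)).congr fun t => ?_
    rw [norm_sub_sq_real]
  set θ : ℝ := e0 - 2 * ⟪U, U⟫_ℝ + ‖U‖ ^ 2 with hθ
  refine ⟨U, θ, ge_of_tendsto' hlim fun t => by positivity, hUw, hlim, fun hθ0 => ?_⟩
  -- the jump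
  have hxm : AEStronglyMeasurable (fun s => p32 ‖z s‖) (volume.restrict (Ioc 0 τ)) := by
    unfold p32
    exact ((hz2.aestronglyMeasurable.norm.aemeasurable.sqrt).aestronglyMeasurable).pow 3
  have h3i : Integrable (fun s => p32 ‖z s‖) (volume.restrict (Ioc 0 τ)) := by
    have : IsFiniteMeasure (volume.restrict (Ioc 0 τ) : Measure ℝ) := by
      rw [isFiniteMeasure_restrict]; simp
    refine ((hx2.const_mul (3 / 4)).add (integrable_const (1 / 4 : ℝ))).mono' hxm ?_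
    refine Eventually.of_forall fun s => ?_
    rw [Real.norm_eq_abs, abs_of_nonneg (p32_nonneg _)]
    have := p32_young (x := ‖z s‖) (l := 1) (norm_nonneg _) one_pos
    simp only [Pi.add_apply]
    linarith
  have h3 : IntervalIntegrable (fun r => p32 ‖z r‖) volume 0 τ := ii_of_int h3i le_rfl hτ0.le le_rfl
  have h2 : IntervalIntegrable (fun r => ‖z r‖ ^ 2) volume 0 τ := ii_of_int hx2 le_rfl hτ0.le le_rfl
  obtain ⟨t1, ht1, Q, B, hQ, hB, hineq⟩ := jump_ineq Fr Un hν hτ0 hΦ hmem hG h3 hweak hUa hUτ hθ0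
    hlim
  set r4 : ℝ := θ ^ (1 / 4 : ℝ) with hr4
  have hr40 : 0 < r4 := by positivity
  have hx : ∀ r, 0 ≤ ‖z r‖ := fun r => norm_nonneg _
  obtain ⟨t2, ht2, hpt⟩ := point (x := fun r => ‖z r‖) ht1.2 (sub_ii h3 ht1.1 ht1.2.le le_rfl) hx
    hθ0 (by positivity : 0 < 2 * c * r4) hB hQ hineq
  have hκ : θ / (8 * (2 * c * r4)) = θ ^ (3 / 4 : ℝ) / (16 * c) := by
    have e : θ ^ (3 / 4 : ℝ) * r4 = θ := by
      rw [hr4, ← Real.rpow_add hθ0]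
      norm_num
    rw [div_eq_div_iff (by positivity) (by positivity)]
    calc θ * (16 * c) = (θ ^ (3 / 4 : ℝ) * r4) * (16 * c) := by rw [e]
      _ = _ := by ring
  rw [hκ] at hpt
  set κ : ℝ := θ ^ (3 / 4 : ℝ) / (16 * c) with hκd
  have hκ0 : 0 < κ := by positivity
  have ht20 : 0 ≤ t2 := ht1.1.trans ht2.1
  have g2 := sub_ii h2 ht20 ht2.2.le le_rfl
  have g3 := sub_ii h3 ht20 ht2.2.le le_rfl
  -- from `z` to `y`
  have hyz' : ∀ a b, 0 ≤ a → a ≤ b → b ≤ τ → ∀ᵐ s ∂(volume.restrict (Ioc a b)), y s = z s :=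
    fun a b h1 h2 h3 => ae_mono (Measure.restrict_mono (Ioc_subset_Ioc h1 h3) le_rfl) hyz
  have hcongr : ∀ (f : ℝ → ℝ) (a b : ℝ), 0 ≤ a → a ≤ b → b ≤ τ →
      ∫ r in a..b, f ‖y r‖ = ∫ r in a..b, f ‖z r‖ := by
    intro f a b h1 h2 h3
    rw [intervalIntegral.integral_of_le h2, intervalIntegral.integral_of_le h2]
    refine integral_congr_ae ?_
    filter_upwards [hyz' a b h1 h2 h3] with s hs
    rw [hs]
  refine ⟨⟨τ - t2, by linarith [ht2.2], by linarith, fun h hh0 hh1 => ?_⟩, ⟨t2, ⟨ht20, ht2.2⟩, ?_⟩, ?_⟩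
  · have h4 := lower_D (x := fun r => ‖z r‖) ht2.2 g2 g3 hx hκ0 hpt hh0 hh1
    rw [hcongr (fun x => x ^ 2) (τ - h) τ (by linarith) (by linarith) le_rfl]
    exact h4
  · have h4 : ∀ᵐ s ∂(volume.restrict (Ioo t2 τ)), y s = z s := by
      have := hyz' t2 τ ht20 ht2.2.le le_rfl
      exact ae_mono (Measure.restrict_mono Ioo_subset_Ioc_self le_rfl) this
    filter_upwards [h4, ae_restrict_mem measurableSet_Ioo] with t l1 l2
    have l3 := hpt t l2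
    rw [hcongr (fun x => x ^ (3 / 2 : ℝ)) t τ (ht20.trans l2.1.le) l2.2.le le_rfl, l1]
    refine l3.trans (le_of_eq ?_)
    simp only [XX]
    congr 1
    exact intervalIntegral.integral_congr fun r _ => p32_eq (norm_nonneg _)
  · intro s hs
    -- a starting point after `t2`
    set s' : ℝ := (max s t2 + τ) / 2 with hs'
    have hmax : max s t2 < τ := max_lt hs.2 ht2.2
    have hs'τ : s' < τ := by simp only [hs']; linarith
    have hss' : s < s' := by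
      have := le_max_left s t2
      simp only [hs']; linarith
    have ht2s' : t2 < s' := by
      have := le_max_right s t2
      simp only [hs']; linarith
    have hzc' : ContinuousOn (fun r => ‖z r‖) (Ioo t2 τ) :=
      (hzc.mono fun r hr => ⟨ht20.trans hr.1.le, hr.2⟩).norm
    obtain ⟨M, hM⟩ := log_growth (x := fun r => ‖z r‖) ht2.2 g2 g3 hx hzc' hκ0 hpt ⟨ht2s', hs'τ⟩
    refine ⟨max M (κ / 4 * Real.log (1 / (τ - s'))), fun t ht => ?_⟩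
    have e52 : ∀ r : ℝ, ‖z r‖ ^ (5 / 2 : ℝ) = ‖z r‖ * p32 ‖z r‖ := by
      intro r
      rw [p32_eq (norm_nonneg _)]
      rcases (norm_nonneg (z r)).eq_or_lt with h | h
      · rw [← h, Real.zero_rpow (by norm_num), zero_mul]
      · nth_rewrite 2 [← Real.rpow_one ‖z r‖]
        rw [← Real.rpow_add h]
        norm_num
    have ht0 : 0 ≤ t := hs.1.trans ht.1.le
    rw [hcongr (fun x => x ^ (5 / 2 : ℝ)) s t hs.1 ht.1.le ht.2.le]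
    have hnn : ∀ a b : ℝ, a ≤ b → 0 ≤ ∫ r in a..b, ‖z r‖ ^ (5 / 2 : ℝ) := fun a b hab =>
      intervalIntegral.integral_nonneg hab fun r _ => by positivity
    rcases le_or_gt t s' with hts | hts
    · have h5 : Real.log (1 / (τ - t)) ≤ Real.log (1 / (τ - s')) := by
        refine Real.log_le_log (one_div_pos.2 (by linarith [ht.2])) ?_
        refine one_div_le_one_div_of_le (by linarith) (by linarith)
      have h6 : κ / 4 * Real.log (1 / (τ - t)) ≤ κ / 4 * Real.log (1 / (τ - s')) := by gcongr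
      have h7 := le_max_right M (κ / 4 * Real.log (1 / (τ - s')))
      have h8 := hnn s t ht.1.le
      linarith
    · have h5 := hM t ⟨hts, ht.2⟩
      have h6 : ∫ r in s'..t, ‖z r‖ * p32 ‖z r‖ ≤ ∫ r in s..t, ‖z r‖ ^ (5 / 2 : ℝ) := by
        have hcont : ContinuousOn (fun r => ‖z r‖ ^ (5 / 2 : ℝ)) (Icc s t) := by
          refine ContinuousOn.rpow_const ?_ fun r _ => Or.inr (by norm_num)
          exact (hzc.mono fun r hr => ⟨hs.1.trans hr.1, hr.2.trans_lt ht.2⟩).norm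
        have i1 : IntervalIntegrable (fun r => ‖z r‖ ^ (5 / 2 : ℝ)) volume s s' := by
          refine ContinuousOn.intervalIntegrable ?_
          rw [uIcc_of_le hss'.le]
          exact hcont.mono (Icc_subset_Icc_right hts.le)
        have i2 : IntervalIntegrable (fun r => ‖z r‖ ^ (5 / 2 : ℝ)) volume s' t := by
          refine ContinuousOn.intervalIntegrable ?_
          rw [uIcc_of_le hts.le]
          exact hcont.mono (Icc_subset_Icc_left hss'.le)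
        have e := intervalIntegral.integral_add_adjacent_intervals i1 i2
        have h7 := hnn s s' hss'.le
        have e3 : ∫ r in s'..t, ‖z r‖ * p32 ‖z r‖ = ∫ r in s'..t, ‖z r‖ ^ (5 / 2 : ℝ) :=
          intervalIntegral.integral_congr fun r _ => (e52 r).symm
        linarith
      have h7 := le_max_left M (κ / 4 * Real.log (1 / (τ - s')))
      linarith

/-- an absolute constant -/
theorem concl_abs {K : Type} [NormedAddCommGroup K] {c c' θ τ : ℝ} {y : ℝ → K} (hc : 0 < c)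
    (hc' : 0 ≤ c') (hθ : 0 < θ) (h : JumpConcl (θ ^ (3 / 4 : ℝ) / (16 * c)) τ y)
    (h1 : c' ≤ 1 / (4 * (16 * c) ^ 4)) (h2 : c' ≤ 1 / (16 * c)) (h3 : c' ≤ 1 / (64 * c)) :
    (∃ h0 : ℝ, 0 < h0 ∧ h0 ≤ τ ∧ ∀ h : ℝ, 0 < h → h < h0 →
      c' * θ ^ 3 * h ≤ (∫ t in (τ - h)..τ, ‖y t‖ ^ 2) ^ 5) ∧
    (∃ t1 ∈ Ico 0 τ, ∀ᵐ t ∂(volume.restrict (Ioo t1 τ)),
      c' * θ ^ (3 / 4 : ℝ) ≤ ‖y t‖ * ∫ r in t..τ, ‖y r‖ ^ (3 / 2 : ℝ)) ∧
    ∀ s ∈ Ico 0 τ, ∃ M : ℝ, ∀ t ∈ Ioo s τ,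
      c' * θ ^ (3 / 4 : ℝ) * Real.log (1 / (τ - t)) - M ≤ ∫ r in s..t, ‖y r‖ ^ (5 / 2 : ℝ) := by
  obtain ⟨⟨h0, k1, k2, k3⟩, ⟨t1, k4, k5⟩, k6⟩ := h
  have hθ3 : (θ ^ (3 / 4 : ℝ)) ^ 4 = θ ^ 3 := by
    rw [← Real.rpow_natCast, ← Real.rpow_mul hθ.le, ← Real.rpow_natCast θ 3]
    norm_num
  have hp : 0 < θ ^ (3 / 4 : ℝ) := Real.rpow_pos_of_pos hθ _
  refine ⟨⟨h0, k1, k2, fun h l1 l2 => ?_⟩, ⟨t1, k4, ?_⟩, fun s hs => ?_⟩
  · have e := k3 h l1 l2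
    rw [div_pow, hθ3] at e
    have e2 : c' * θ ^ 3 * h ≤ 1 / (4 * (16 * c) ^ 4) * θ ^ 3 * h := by gcongr
    have e3 : θ ^ 3 / (16 * c) ^ 4 * h = 4 * (1 / (4 * (16 * c) ^ 4) * θ ^ 3 * h) := by
      field_simp
    rw [e3] at e
    linarith
  · filter_upwards [k5] with t ht
    refine le_trans ?_ ht
    calc c' * θ ^ (3 / 4 : ℝ) ≤ 1 / (16 * c) * θ ^ (3 / 4 : ℝ) := by gcongr
      _ = _ := by ring
  · obtain ⟨M, hM⟩ := k6 s hs
    refine ⟨max M 0, fun t ht => ?_⟩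
    have hI : 0 ≤ ∫ r in s..t, ‖y r‖ ^ (5 / 2 : ℝ) :=
      intervalIntegral.integral_nonneg ht.1.le fun r _ => by positivity
    rcases le_total 0 (Real.log (1 / (τ - t))) with hl | hl
    · have e := hM t ht
      have e2 : c' * θ ^ (3 / 4 : ℝ) * Real.log (1 / (τ - t))
          ≤ 1 / (64 * c) * θ ^ (3 / 4 : ℝ) * Real.log (1 / (τ - t)) := by gcongr
      have e3 : θ ^ (3 / 4 : ℝ) / (16 * c) / 4 = 1 / (64 * c) * θ ^ (3 / 4 : ℝ) := by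
        field_simp
        norm_num
      rw [e3] at e
      linarith [le_max_left M 0]
    · have e : c' * θ ^ (3 / 4 : ℝ) * Real.log (1 / (τ - t)) ≤ 0 :=
        mul_nonpos_of_nonneg_of_nonpos (by positivity) hl
      linarith [le_max_right M 0]

theorem jump_mid (hit : S_iter) (hode : S_ode) (htp : S_dtp)
    (he1 : S_est1) (he2 : S_est2) (hloc : S_loc) (huni : S_uni) (hun : S_univ) :
    ∃ c : ℝ, 0 < c ∧
    ∀ (Ω : Set E3), IsOpen Ω → Bornology.IsBounded Ω → ∀ (ν T : ℝ), 0 < ν → 0 < T →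
    ∀ (F F' : ℝ → L2M Ω), MemLp F' 2 (volume.restrict (Ioc 0 T)) →
    (∀ a b, 0 ≤ a → a ≤ b → b ≤ T → F b - F a = ∫ s in a..b, F' s) →
    ∀ (u : ℝ → L2V Ω) (z : ℝ → L2M Ω), AEStronglyMeasurable u (volume.restrict (Ioc 0 T)) →
    (∀ᵐ t ∂(volume.restrict (Ioc 0 T)), (u t, z t) ∈ graphW Ω) →
    MemLp z 2 (volume.restrict (Ioc 0 T)) →
    (∀ φ : E3 → E3, H772R2.NS.IsTest Ω φ → ∀ t ∈ Icc 0 T,
      (∫ x in (show Set R3 from Ω), ⟪L2.fn (Ω := Ω) (E := R3) (u t) x, (φ : R3 → R3) x⟫_ℝ)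
        - (∫ x in (show Set R3 from Ω), ⟪L2.fn (Ω := Ω) (E := R3) (u 0) x, (φ : R3 → R3) x⟫_ℝ)
      = ∫ s in (0 : ℝ)..t, Pub.rhs (Ω := Ω) ν (u s) (z s) (F s) φ) →
    (∀ t ∈ Icc 0 T, ‖u t‖ ^ 2 / 2 + ν * (∫ s in (0 : ℝ)..t, ‖z s‖ ^ 2)
      ≤ ‖u 0‖ ^ 2 / 2 + ∫ s in (0 : ℝ)..t, ⟪F s, z s⟫_ℝ) →
    ∀ z0 : L2M Ω, (u 0, z0) ∈ graphW Ω →
    (∃ h : L2V Ω, ∀ φ : E3 → E3, H772R2.NS.IsTest Ω φ →
      Pub.rhs (Ω := Ω) ν (u 0) z0 (F 0) φ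
        = ∫ x in (show Set R3 from Ω), ⟪L2.fn (Ω := Ω) (E := R3) h x, (φ : R3 → R3) x⟫_ℝ) →
    (∃ u' G1 G', IsStrong (show Set R3 from Ω) ν T F u u' G1 G') ∨
    ∃ τ ∈ Ioc 0 T, (∀ t ∈ Ioo 0 τ, ∃ u' G1 G', IsStrong (show Set R3 from Ω) ν t F u u' G1 G') ∧
      SingAt τ u ∧
      ∃ (U : L2V Ω) (θ : ℝ), 0 ≤ θ ∧
        (∀ w : L2V Ω, Tendsto (fun t => ⟪u t, w⟫_ℝ) (𝓝[<] τ) (𝓝 ⟪U, w⟫_ℝ)) ∧
        Tendsto (fun t => ‖u t - U‖ ^ 2) (𝓝[<] τ) (𝓝 θ) ∧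
        (0 < θ →
          (∃ h0 : ℝ, 0 < h0 ∧ h0 ≤ τ ∧ ∀ h : ℝ, 0 < h → h < h0 →
            c * θ ^ 3 * h ≤ (∫ t in (τ - h)..τ, ‖z t‖ ^ 2) ^ 5) ∧
          (∃ t1 ∈ Ico 0 τ, ∀ᵐ t ∂(volume.restrict (Ioo t1 τ)),
            c * θ ^ (3 / 4 : ℝ) ≤ ‖z t‖ * ∫ r in t..τ, ‖z r‖ ^ (3 / 2 : ℝ)) ∧
          ∀ s ∈ Ico 0 τ, ∃ M : ℝ, ∀ t ∈ Ioo s τ,
            c * θ ^ (3 / 4 : ℝ) * Real.log (1 / (τ - t)) - M
              ≤ ∫ r in s..t, ‖z r‖ ^ (5 / 2 : ℝ)) := by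
  obtain ⟨c, hc, hU⟩ := hun
  refine ⟨min (1 / (4 * (16 * c) ^ 4)) (min (1 / (16 * c)) (1 / (64 * c))), by positivity, ?_⟩
  intro Ω hΩ hb ν T hν hT F F' hF1 hF u z hmeas hmem hz2 heqn hen z0 h0 hg
  obtain ⟨C, Fr⟩ := exists_frame hΩ hb
  obtain ⟨g0, hg0⟩ := hg
  have hm : MeasurableSet Ω := hΩ.measurableSet
  have hcomp : ∀ p ∈ graphW Ω, ⟪F 0 - ν • z0 + tensL (u 0), p.2⟫_ℝ = ⟪g0, p.1⟫_ℝ := by
    refine compat_ext ?_
    rintro p ⟨φ, k1, k2, k3⟩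
    rw [← pub_rhs hm ν (F 0) h0 k3, ← pub_inner (Ω := Ω) g0 k2]
    exact hg0 φ k1
  have hFc : ContinuousOn F (Icc 0 T) := prim_cont hF1 hF
  have hLH := lh_mid hΩ hFc Fr hmeas hmem hz2 heqn hen
  rcases jump_abs hit hode htp he1 he2 hloc huni c hc (L2V Ω) (L2M Ω) (graphW Ω) tensL C ν T
    F F' (u 0) g0 z0 u z Fr (hU _ hΩ) (rellich_W hΩ hb) hν hT ⟨hF1, hF⟩ h0 hcomp hLH with
    ⟨w, w1, y, y1, k1, k2⟩ | ⟨τ, hτ, k1, ks, U, θ, hθ, k2, k3, k4⟩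
  · exact Or.inl ⟨w1, y, y1, strong_of_str hΩ hT k1 k2⟩
  refine Or.inr ⟨τ, hτ, fun t ht => ?_, ks, U, θ, hθ, k2, k3, fun hθ0 => ?_⟩
  · obtain ⟨w, w1, y, y1, k3, k4⟩ := k1 t ht
    exact ⟨w1, y, y1, strong_of_str hΩ ht.1 k3 k4⟩
  exact concl_abs hc (lt_min (by positivity) (lt_min (by positivity) (by positivity))).le hθ0
    (k4 hθ0) (min_le_left _ _) ((min_le_right _ _).trans (min_le_left _ _))
    ((min_le_right _ _).trans (min_le_right _ _))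

end Pool.Agent.Q62.DN
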