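import Pool.Agent.Q62.DN.GalAbs

/-!
Data assimilation by nudging: the distance of the nudged solution from a strong solution.
-/

set_option autoImplicit false
set_option linter.unusedSectionVars false

open MeasureTheory Set Filter Topology
open scoped InnerProductSpace

namespace Pool.Agent.Q62.DN

open H772R2.NSR (Frame prim_cont grad_unique ae_deriv_of_prim memLp_ii)
open H772R2.NSG (by_parts ii_of_int int_inner norm_m_le mem_cont)
open Pool.Agent.W795.TQ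
open Pool.Agent.W790.TQ (toSt sq_prim)

theorem back_gron {s m k : ℝ} (hsm : s ≤ m) (hk : 0 ≤ k) {φ : ℝ → ℝ}
    (hφ : IntervalIntegrable φ volume s m)
    (h : ∀ᵐ a ∂(volume.restrict (Ioc s m)), φ m + k * ∫ r in a..m, φ r ≤ φ a)
    (hs : φ m + k * ∫ r in s..m, φ r ≤ φ s) :
    φ m * Real.exp (k * (m - s)) ≤ φ s := by
  have hc : ContinuousOn (fun a => ∫ r in a..m, φ r) (Icc s m) := by
    have h1 := intervalIntegral.continuousOn_primitive_interval' hφ (right_mem_uIcc)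
    rw [uIcc_of_le hsm] at h1
    refine h1.neg.congr (fun a _ => ?_)
    exact intervalIntegral.integral_symm _ _
  set ψ : ℝ → ℝ := fun a => φ m + k * ∫ r in a..m, φ r with hψ
  have hψc : ContinuousOn ψ (Icc s m) := continuousOn_const.add (continuousOn_const.mul hc)
  have hψi : IntervalIntegrable ψ volume s m := by
    refine ContinuousOn.intervalIntegrable ?_
    rwa [uIcc_of_le hsm]
  have h1 := gron_meas (T := m - s) (k := -φ m) (y := fun r => -ψ (m - r)) (g := fun _ => k)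
    (by linarith) intervalIntegrable_const (fun _ => hk) ?_ ?_
  · rw [intervalIntegral.integral_const, smul_eq_mul] at h1
    have e1 : m - (m - s) = s := by ring
    have e2 : (m - s - 0) * k = k * (m - s) := by ring
    rw [e2] at h1
    beta_reduce at h1
    rw [e1] at h1
    simp only [hψ] at h1
    linarith
  · have h2 : IntervalIntegrable (fun r => ψ (m - r)) volume 0 (m - s) := by
      have h3 := hψi.comp_sub_left m
      have e1 : m - m = 0 := by ring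
      rw [e1] at h3
      exact h3.symm
    exact (h2.neg).const_mul k
  · intro t ht
    have hst : s ≤ m - t := by linarith [ht.2]
    have htm : m - t ≤ m := by linarith [ht.1]
    have e1 : ∫ r in (0 : ℝ)..t, k * -ψ (m - r) = -(k * ∫ r in (m - t)..m, ψ r) := by
      rw [intervalIntegral.integral_const_mul]
      have e2 : ∫ r in (0 : ℝ)..t, -ψ (m - r) = -∫ r in (0 : ℝ)..t, ψ (m - r) :=
        intervalIntegral.integral_neg
      rw [e2, intervalIntegral.integral_comp_sub_left (fun r => ψ r) m, sub_zero]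
      ring
    rw [e1]
    have hsub : Icc (m - t) m ⊆ Icc s m := Icc_subset_Icc_left hst
    have i1 : IntervalIntegrable ψ volume (m - t) m := by
      refine ContinuousOn.intervalIntegrable ?_
      rw [uIcc_of_le htm]
      exact hψc.mono hsub
    have i2 : IntervalIntegrable φ volume (m - t) m := by
      refine hφ.mono_set ?_
      rw [uIcc_of_le htm, uIcc_of_le hsm]
      exact hsub
    have h2 : ∫ r in (m - t)..m, ψ r ≤ ∫ r in (m - t)..m, φ r := by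
      refine intervalIntegral.integral_mono_ae_restrict htm i1 i2 ?_
      rw [Filter.EventuallyLE, ← restrict_Ioc_eq_restrict_Icc]
      exact ae_mono (Measure.restrict_mono (Ioc_subset_Ioc_left hst) le_rfl) h
    have h3 := mul_le_mul_of_nonneg_left h2 hk
    have h4 : ψ (m - t) = φ m + k * ∫ r in (m - t)..m, φ r := rfl
    linarith

theorem fwd_gron {m t k : ℝ} (hmt : m ≤ t) {φ g : ℝ → ℝ} (hg : IntervalIntegrable g volume m t)
    (hg0 : ∀ s, 0 ≤ g s) (hgφ : IntervalIntegrable (fun s => g s * φ s) volume m t)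
    (h : ∀ b ∈ Icc m t, φ b ≤ k + ∫ s in m..b, g s * φ s) :
    φ t ≤ k * Real.exp (∫ s in m..t, g s) := by
  have sh : ∀ f : ℝ → ℝ, IntervalIntegrable f volume m t →
      IntervalIntegrable (fun r => f (m + r)) volume 0 (t - m) := by
    intro f hf
    have h3 := hf.comp_add_left m
    rw [sub_self] at h3
    exact h3
  have h1 := gron_meas (T := t - m) (k := k) (y := fun r => φ (m + r)) (g := fun r => g (m + r))
    (by linarith) (sh g hg) (fun _ => hg0 _) (sh _ hgφ) ?_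
  · have e1 : ∫ s in (0 : ℝ)..(t - m), g (m + s) = ∫ s in m..t, g s := by
      rw [intervalIntegral.integral_comp_add_left (fun s => g s) m, add_zero]
      congr 1; ring
    beta_reduce at h1
    rw [e1] at h1
    have e2 : m + (t - m) = t := by ring
    rwa [e2] at h1
  · intro b hb
    have h2 := h (m + b) ⟨by linarith [hb.1], by linarith [hb.2]⟩
    have e1 : ∫ s in (0 : ℝ)..b, g (m + s) * φ (m + s) = ∫ s in m..(m + b), g s * φ s := by
      rw [intervalIntegral.integral_comp_add_left (fun s => g s * φ s) m, add_zero]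
    rw [e1]
    exact h2

section

variable {H K : Type} [NormedAddCommGroup H] [InnerProductSpace ℝ H] [CompleteSpace H]
  [NormedAddCommGroup K] [InnerProductSpace ℝ K] [CompleteSpace K]
  {W : Submodule ℝ (H × K)} {m : H → K} {C c ν T μ h : ℝ} {R : H →L[ℝ] H}
  {F F1 : ℝ → K} {u u1 v : ℝ → H} {z z1 y : ℝ → K}

/-- Solutions of the nudged equation. -/
structure Nud (W : Submodule ℝ (H × K)) (m : H → K) (ν T μ : ℝ) (F : ℝ → K) (R : H →L[ℝ] H)
    (u v : ℝ → H) (y : ℝ → K) : Prop where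
  meas : AEStronglyMeasurable v (volume.restrict (Ioc 0 T))
  mmeas : AEStronglyMeasurable (fun s => m (v s)) (volume.restrict (Ioc 0 T))
  mem : ∀ᵐ s ∂(volume.restrict (Ioc 0 T)), (v s, y s) ∈ W
  z2 : MemLp y 2 (volume.restrict (Ioc 0 T))
  weak : ∀ p ∈ W, ∀ t ∈ Icc 0 T, ⟪v t - v 0, p.1⟫_ℝ
    = ∫ s in (0 : ℝ)..t, (⟪F s - ν • y s + m (v s), p.2⟫_ℝ - μ * ⟪R (v s - u s), p.1⟫_ℝ)
  energy0 : ∀ t ∈ Icc 0 T, ‖v t‖ ^ 2 / 2 + ν * (∫ s in (0 : ℝ)..t, ‖y s‖ ^ 2)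
    ≤ ‖v 0‖ ^ 2 / 2 + ∫ s in (0 : ℝ)..t, (⟪F s, y s⟫_ℝ - μ * ⟪R (v s - u s), v s⟫_ℝ)
  energy : ∀ᵐ a ∂(volume.restrict (Ioc 0 T)), ∀ t ∈ Icc a T,
    ‖v t‖ ^ 2 / 2 + ν * (∫ s in a..t, ‖y s‖ ^ 2)
      ≤ ‖v a‖ ^ 2 / 2 + ∫ s in a..t, (⟪F s, y s⟫_ℝ - μ * ⟪R (v s - u s), v s⟫_ℝ)

theorem Nud.mono {T' : ℝ} (L : Nud W m ν T μ F R u v y) (hT : T' ≤ T) :
    Nud W m ν T' μ F R u v y := by
  have hsub : (volume.restrict (Ioc 0 T') : Measure ℝ) ≤ volume.restrict (Ioc 0 T) :=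
    Measure.restrict_mono (Ioc_subset_Ioc_right hT) le_rfl
  refine ⟨L.meas.mono_measure hsub, L.mmeas.mono_measure hsub, ae_mono hsub L.mem,
    L.z2.mono_measure hsub, fun p hp t ht => L.weak p hp t ⟨ht.1, ht.2.trans hT⟩,
    fun t ht => L.energy0 t ⟨ht.1, ht.2.trans hT⟩, ?_⟩
  filter_upwards [ae_mono hsub L.energy] with a ha t ht
  exact ha t ⟨ht.1, ht.2.trans hT⟩

/-- the Riesz representation -/
theorem exists_J (Fr : Frame W m C) :
    ∃ J : H →L[ℝ] K, ∀ x, ∀ p ∈ W, ⟪J x, p.2⟫_ℝ = ⟪x, p.1⟫_ℝ := by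
  obtain ⟨ρ, hρE, hρo, hρn⟩ := exists_ritz Fr Fr.closedW (le_refl W)
  refine ⟨((ContinuousLinearMap.fst ℝ H K).comp ρ).adjoint, fun x p hp => ?_⟩
  rw [ContinuousLinearMap.adjoint_inner_left]
  have h1 : p - ρ p.2 ∈ W := W.sub_mem hp (hρE _)
  have h2 := hρo p.2 _ h1
  have h3 : (p - ρ p.2).2 = p.2 - (ρ p.2).2 := rfl
  rw [h3, real_inner_self_eq_norm_sq] at h2
  have h4 : ‖p.2 - (ρ p.2).2‖ = 0 := by
    by_contra hcon
    have : 0 < ‖p.2 - (ρ p.2).2‖ ^ 2 := by positivity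
    linarith
  have h5 := Fr.poinc _ h1
  rw [h3, h4, mul_zero] at h5
  have h6 : (p - ρ p.2).1 = 0 := norm_le_zero_iff.1 h5
  have h7 : (p - ρ p.2).1 = p.1 - (ρ p.2).1 := rfl
  rw [h7, sub_eq_zero] at h6
  show ⟪x, (ρ p.2).1⟫_ℝ = ⟪x, p.1⟫_ℝ
  rw [h6]

theorem Nud.v2 (Fr : Frame W m C) (L : Nud W m ν T μ F R u v y) :
    MemLp v 2 (volume.restrict (Ioc 0 T)) := by
  refine L.z2.of_le_mul L.meas (c := C) ?_
  filter_upwards [L.mem] with s hs
  exact Fr.poinc _ hs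

/-- a nudged solution is a solution with another force -/
theorem Nud.app (Fr : Frame W m C) (hF : ContinuousOn F (Icc 0 T)) (hu : ContinuousOn u (Icc 0 T))
    (L : Nud W m ν T μ F R u v y) {J : H →L[ℝ] K} (hJ : ∀ x, ∀ p ∈ W, ⟪J x, p.2⟫_ℝ = ⟪x, p.1⟫_ℝ) :
    App W m ν T (fun s => F s - μ • J (R (v s - u s))) v y := by
  have h2 : MemLp (fun s => v s - u s) 2 (volume.restrict (Ioc 0 T)) :=
    (L.v2 Fr).sub (mem_cont hu)
  have h3 : MemLp (fun s => J (R (v s - u s))) 2 (volume.restrict (Ioc 0 T)) :=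
    (J.comp R).comp_memLp' h2
  refine ⟨L.meas, L.mmeas, L.mem, L.z2, (mem_cont hF).sub (h3.const_smul μ), ?_, ?_⟩
  · intro p hp t ht
    rw [L.weak p hp t ht]
    refine intervalIntegral.integral_congr (fun s _ => ?_)
    beta_reduce
    rw [inner_add_left, inner_sub_left, inner_add_left, inner_sub_left, inner_sub_left,
      real_inner_smul_left (J _), hJ _ p hp]
    ring
  · intro t ht
    have h4 := L.energy0 t ht
    refine h4.trans (le_of_eq ?_)
    congr 1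
    rw [intervalIntegral.integral_of_le ht.1, intervalIntegral.integral_of_le ht.1]
    refine integral_congr_ae ?_
    filter_upwards [ae_mono (Measure.restrict_mono (Ioc_subset_Ioc_right ht.2) le_rfl) L.mem]
      with s hs
    rw [inner_sub_left, real_inner_smul_left, hJ _ _ hs]

/-- the energy inequality for the difference -/
theorem Nud.rel (Fr : Frame W m C) (hT : 0 < T) (hF : FH T F F1)
    (S : Str W m ν T F u u1 z z1) (L : Nud W m ν T μ F R u v y) {a t : ℝ} (ha : 0 ≤ a)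
    (hat : a ≤ t) (htT : t ≤ T)
    (en : ‖v t‖ ^ 2 / 2 + ν * (∫ s in a..t, ‖y s‖ ^ 2)
      ≤ ‖v a‖ ^ 2 / 2 + ∫ s in a..t, (⟪F s, y s⟫_ℝ - μ * ⟪R (v s - u s), v s⟫_ℝ)) :
    IntervalIntegrable (fun s => ⟪m (v s) - m (u s), y s - z s⟫_ℝ
        - μ * ⟪R (v s - u s), v s - u s⟫_ℝ - ν * ‖y s - z s‖ ^ 2) volume a t ∧
    ‖v t - u t‖ ^ 2 / 2 ≤ ‖v a - u a‖ ^ 2 / 2
      + ∫ s in a..t, (⟪m (v s) - m (u s), y s - z s⟫_ℝ
        - μ * ⟪R (v s - u s), v s - u s⟫_ℝ - ν * ‖y s - z s‖ ^ 2) := by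
  obtain ⟨J, hJ⟩ := exists_J Fr
  have hFc : ContinuousOn F (Icc 0 T) := prim_cont hF.memLp hF.prim
  have huc : ContinuousOn u (Icc 0 T) := prim_cont S.u1m S.pu
  have hzc : ContinuousOn z (Icc 0 T) := prim_cont S.z1m S.pz
  have A := L.app Fr hFc huc hJ
  set Fa : ℝ → K := fun s => F s - μ • J (R (v s - u s)) with hFa
  have ht0 : 0 ≤ t := ha.trans hat
  have hsub : (volume.restrict (Ioc a t) : Measure ℝ) ≤ volume.restrict (Ioc 0 T) :=
    Measure.restrict_mono (Ioc_subset_Ioc ha htT) le_rfl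
  have cr := A.cross Fr (le_refl W) (a := u) (a1 := u1) (ζ := z) (ζ1 := z1) S.mem S.mem1 S.u1m
    S.z1m S.pu S.pz (t := t) ⟨ht0, htT⟩
  have cr' := A.cross Fr (le_refl W) (a := u) (a1 := u1) (ζ := z) (ζ1 := z1) S.mem S.mem1 S.u1m
    S.z1m S.pu S.pz (t := a) ⟨ha, hat.trans htT⟩
  have sq := sq_prim S.u1m S.pu ha hat htT
  have hw2 : MemLp (fun s => v s - u s) 2 (volume.restrict (Ioc 0 T)) :=
    (L.v2 Fr).sub (mem_cont huc)
  have hR2 : MemLp (fun s => R (v s - u s)) 2 (volume.restrict (Ioc 0 T)) := R.comp_memLp' hw2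
  -- integrability
  have b1 : Integrable (fun s => ⟪F s, y s⟫_ℝ - μ * ⟪R (v s - u s), v s⟫_ℝ)
      (volume.restrict (Ioc 0 T)) :=
    (int_inner (mem_cont hFc) L.z2).sub ((int_inner hR2 (L.v2 Fr)).const_mul μ)
  have b2 : Integrable (fun s => ‖y s‖ ^ 2) (volume.restrict (Ioc 0 T)) :=
    (memLp_two_iff_integrable_sq_norm L.z2.aestronglyMeasurable).mp L.z2
  have b3 : Integrable (fun s => ⟪Fa s - ν • y s + m (v s), z s⟫_ℝ)
      (volume.restrict (Ioc 0 T)) := by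
    obtain ⟨B, hB⟩ := (isCompact_Icc.image_of_continuousOn hzc).isBounded.exists_norm_le
    have hzm : AEStronglyMeasurable z (volume.restrict (Ioc 0 T)) :=
      (hzc.mono Ioc_subset_Icc_self).aestronglyMeasurable measurableSet_Ioc
    refine ((A.Gi Fr (le_refl W)).norm.mul_const B).mono'
      ((A.Gi Fr (le_refl W)).aestronglyMeasurable.inner hzm) ?_
    filter_upwards [ae_restrict_mem measurableSet_Ioc] with s hs
    refine (norm_inner_le_norm _ _).trans ?_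
    gcongr
    exact hB _ ⟨s, ⟨hs.1.le, hs.2⟩, rfl⟩
  have b4 : Integrable (fun s => ⟪v s, u1 s⟫_ℝ) (volume.restrict (Ioc 0 T)) :=
    int_inner (L.v2 Fr) S.u1m
  have b5 : Integrable (fun s => ⟪u1 s, u s⟫_ℝ) (volume.restrict (Ioc 0 T)) :=
    int_inner S.u1m (mem_cont huc)
  have i1 := ii_of_int b1 ha hat htT
  have i2 := ii_of_int b2 ha hat htT
  have i3 := ii_of_int b3 ha hat htT
  have i4 := ii_of_int b4 ha hat htT
  have i5 := ii_of_int b5 ha hat htT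
  obtain ⟨Z, St1⟩ := toSt hF S
  have hpt : ∀ᵐ s ∂(volume.restrict (Ioc a t)),
      (⟪m (v s) - m (u s), y s - z s⟫_ℝ - μ * ⟪R (v s - u s), v s - u s⟫_ℝ
        - ν * ‖y s - z s‖ ^ 2)
      = (⟪F s, y s⟫_ℝ - μ * ⟪R (v s - u s), v s⟫_ℝ) - ν * ‖y s‖ ^ 2
        - ⟪Fa s - ν • y s + m (v s), z s⟫_ℝ - ⟪v s, u1 s⟫_ℝ + ⟪u1 s, u s⟫_ℝ := by
    filter_upwards [ae_mono hsub L.mem, ae_mono hsub (St1.deriv_weak Fr hT),
      ae_restrict_mem measurableSet_Ioc] with s k1 k2 hs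
    have hmem := S.mem s ⟨ha.trans hs.1.le, hs.2.trans htT⟩
    have hw : (v s - u s, y s - z s) ∈ W := W.sub_mem k1 hmem
    have e1 := k2 _ hw
    have e3 := Fr.ortho _ k1
    have e4 := hJ (R (v s - u s)) _ hmem
    simp only at e1 e3 e4
    rw [← real_inner_self_eq_norm_sq, ← real_inner_self_eq_norm_sq]
    simp only [hFa, inner_sub_left, inner_sub_right, inner_add_left,
      real_inner_smul_left, map_sub] at e1 e3 e4 ⊢
    rw [real_inner_comm (v s) (u1 s)] at e1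
    rw [real_inner_comm (z s) (y s)]
    linear_combination e1 + e3 - μ * e4
  have hint : ∫ s in a..t, (⟪m (v s) - m (u s), y s - z s⟫_ℝ
        - μ * ⟪R (v s - u s), v s - u s⟫_ℝ - ν * ‖y s - z s‖ ^ 2)
      = (∫ s in a..t, (⟪F s, y s⟫_ℝ - μ * ⟪R (v s - u s), v s⟫_ℝ)) - ν * (∫ s in a..t, ‖y s‖ ^ 2)
        - (∫ s in a..t, ⟪Fa s - ν • y s + m (v s), z s⟫_ℝ)
        - (∫ s in a..t, ⟪v s, u1 s⟫_ℝ) + ∫ s in a..t, ⟪u1 s, u s⟫_ℝ := by
    rw [← intervalIntegral.integral_const_mul, ← intervalIntegral.integral_sub i1 (i2.const_mul ν),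
      ← intervalIntegral.integral_sub (i1.sub (i2.const_mul ν)) i3,
      ← intervalIntegral.integral_sub ((i1.sub (i2.const_mul ν)).sub i3) i4,
      ← intervalIntegral.integral_add (((i1.sub (i2.const_mul ν)).sub i3).sub i4) i5,
      intervalIntegral.integral_of_le hat, intervalIntegral.integral_of_le hat]
    exact integral_congr_ae hpt
  refine ⟨?_, ?_⟩
  · have hi := (((i1.sub (i2.const_mul ν)).sub i3).sub i4).add i5
    refine hi.congr_ae ?_
    rw [uIoc_of_le hat]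
    filter_upwards [hpt] with s hs
    exact hs.symm
  have j3 := intervalIntegral.integral_add_adjacent_intervals
    (ii_of_int b3 le_rfl ha (hat.trans htT)) i3
  have j4 := intervalIntegral.integral_add_adjacent_intervals
    (ii_of_int b4 le_rfl ha (hat.trans htT)) i4
  rw [hint, norm_sub_sq_real, norm_sub_sq_real]
  rw [intervalIntegral.integral_const_mul] at sq
  linarith

theorem nud_pt (Fr : Frame W m C) (U : Univ W m c) (hν : 0 < ν) (hμ : 0 ≤ μ)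
    (hR : ∀ p ∈ W, ‖p.1 - R p.1‖ ≤ h * ‖p.2‖) (hh : 0 ≤ h) (hμh : μ * h ^ 2 ≤ ν)
    {u v : H} {z y : K} {g : ℝ} (hu : (u, z) ∈ W) (hv : (v, y) ∈ W)
    (hg : 27 / 4 * c ^ 4 / ν ^ 3 * ‖z‖ ^ 4 ≤ g ∨ 27 / 4 * c ^ 4 / ν ^ 3 * ‖y‖ ^ 4 ≤ g) :
    ⟪m v - m u, y - z⟫_ℝ - μ * ⟪R (v - u), v - u⟫_ℝ - ν * ‖y - z‖ ^ 2
      ≤ -(μ / 2) * ‖v - u‖ ^ 2 + g * ‖v - u‖ ^ 2 := by
  have hw : (v - u, y - z) ∈ W := W.sub_mem hv hu
  have hanti := Fr.anti _ hv _ hu
  simp only at hanti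
  rw [hanti]
  have horth := Fr.ortho _ hw
  simp only at horth
  set w := v - u with hwd
  set zw := y - z with hzw
  have h4 : -⟪m w, z⟫_ℝ ≤ 1 / 4 * ν * ‖zw‖ ^ 2 + g * ‖w‖ ^ 2 := by
    have aux : ∀ κ : K, ⟪m w, z⟫_ℝ = ⟪m w, κ⟫_ℝ → 27 / 4 * c ^ 4 / ν ^ 3 * ‖κ‖ ^ 4 ≤ g →
        -⟪m w, z⟫_ℝ ≤ 1 / 4 * ν * ‖zw‖ ^ 2 + g * ‖w‖ ^ 2 := by
      intro κ hκ hκg
      rw [hκ]
      have l1 : -⟪m w, κ⟫_ℝ ≤ c * (Real.sqrt ‖w‖ * Real.sqrt ‖zw‖ ^ 3) * ‖κ‖ := by
        have l2 := abs_real_inner_le_norm (m w) κ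
        have l3 := U.quart _ hw
        have l4 : ‖m w‖ * ‖κ‖ ≤ c * (Real.sqrt ‖w‖ * Real.sqrt ‖zw‖ ^ 3) * ‖κ‖ :=
          mul_le_mul_of_nonneg_right l3 (norm_nonneg _)
        linarith [neg_abs_le ⟪m w, κ⟫_ℝ]
      have l5 := young4 (c := c) (N := ‖κ‖) hν (norm_nonneg w) (norm_nonneg zw)
      have l6 : 27 / 4 * c ^ 4 / ν ^ 3 * ‖κ‖ ^ 4 * ‖w‖ ^ 2 ≤ g * ‖w‖ ^ 2 := by gcongr
      linarith
    rcases hg with hg | hg
    · exact aux z rfl hg
    · refine aux y ?_ hg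
      have e : y = z + zw := by rw [hzw]; abel
      rw [e, inner_add_right, horth, add_zero]
  have h5 : -(μ * ⟪R w, w⟫_ℝ) ≤ -(μ / 2) * ‖w‖ ^ 2 + 1 / 2 * ν * ‖zw‖ ^ 2 := by
    have k1 : ⟪R w, w⟫_ℝ = ‖w‖ ^ 2 - ⟪w - R w, w⟫_ℝ := by
      rw [inner_sub_left, real_inner_self_eq_norm_sq]; ring
    have k2 : ⟪w - R w, w⟫_ℝ ≤ ‖w - R w‖ * ‖w‖ := real_inner_le_norm _ _
    have k3 : ‖w - R w‖ ≤ h * ‖zw‖ := hR _ hw
    have k4 : ‖w - R w‖ * ‖w‖ ≤ 1 / 2 * ‖w - R w‖ ^ 2 + 1 / 2 * ‖w‖ ^ 2 := by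
      nlinarith [sq_nonneg (‖w - R w‖ - ‖w‖)]
    have k5 : ‖w - R w‖ ^ 2 ≤ h ^ 2 * ‖zw‖ ^ 2 := by
      rw [← mul_pow]; exact pow_le_pow_left₀ (norm_nonneg _) k3 2
    have k6 : ‖w‖ ^ 2 / 2 - h ^ 2 * ‖zw‖ ^ 2 / 2 ≤ ⟪R w, w⟫_ℝ := by rw [k1]; linarith
    have k7 := mul_le_mul_of_nonneg_left k6 hμ
    have k8 : μ * h ^ 2 * ‖zw‖ ^ 2 ≤ ν * ‖zw‖ ^ 2 := by gcongr
    nlinarith
  have h6 : 0 ≤ ν * ‖zw‖ ^ 2 := by positivity
  linarith

/-- The distance after the time `s`, when `‖z‖ ≤ N` before. -/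
theorem Nud.dist (Fr : Frame W m C) (U : Univ W m c) (hν : 0 < ν) (hμ : 0 ≤ μ)
    (hR : ∀ p ∈ W, ‖p.1 - R p.1‖ ≤ h * ‖p.2‖) (hh : 0 ≤ h) (hμh : μ * h ^ 2 ≤ ν) (hT : 0 < T)
    (hF : FH T F F1) (S : Str W m ν T F u u1 z z1) (L : Nud W m ν T μ F R u v y)
    {s : ℝ} (hs : s ∈ Icc 0 T) {N : ℝ} (hN : ∀ r ∈ Icc 0 s, ‖z r‖ ≤ N)
    (hNμ : 27 / 4 * c ^ 4 / ν ^ 3 * N ^ 4 ≤ μ / 4)
    {g : ℝ → ℝ} (hg0 : ∀ r, 0 ≤ g r) (hgi : IntervalIntegrable g volume s T)
    (hg : ∀ᵐ r ∂(volume.restrict (Ioc s T)), 27 / 4 * c ^ 4 / ν ^ 3 * ‖y r‖ ^ 4 ≤ g r) :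
    ‖v T - u T‖ ^ 2 ≤ ‖v 0 - u 0‖ ^ 2 * Real.exp (-(μ / 2) * s)
      * Real.exp (2 * ∫ r in s..T, g r) := by
  have hzc : ContinuousOn z (Icc 0 T) := prim_cont S.z1m S.pz
  have huc : ContinuousOn u (Icc 0 T) := prim_cont S.u1m S.pu
  have hFc : ContinuousOn F (Icc 0 T) := prim_cont hF.memLp hF.prim
  obtain ⟨J, hJ⟩ := exists_J Fr
  obtain ⟨M, hM0, hM⟩ := (L.app Fr hFc huc hJ).bdd hν hT.le
  obtain ⟨B, hB⟩ := (isCompact_Icc.image_of_continuousOn huc).isBounded.exists_norm_le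
  set Y : ℝ → ℝ := fun r => ‖v r - u r‖ ^ 2 with hY
  have hYm : AEStronglyMeasurable Y (volume.restrict (Ioc 0 T)) := by
    have h1 : AEStronglyMeasurable u (volume.restrict (Ioc 0 T)) :=
      (huc.mono Ioc_subset_Icc_self).aestronglyMeasurable measurableSet_Ioc
    exact ((L.meas.sub h1).norm).pow 2
  have hYb : ∀ t ∈ Icc 0 T, ‖Y t‖ ≤ (M + B) ^ 2 := by
    intro t ht
    simp only [hY]
    rw [Real.norm_eq_abs, abs_of_nonneg (by positivity)]
    have h1 : ‖v t - u t‖ ≤ M + B :=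
      (norm_sub_le _ _).trans (add_le_add (hM t ht) (hB _ ⟨t, ht, rfl⟩))
    exact pow_le_pow_left₀ (norm_nonneg _) h1 2
  have hYi : Integrable Y (volume.restrict (Ioc 0 T)) := by
    refine Integrable.mono' (integrable_const ((M + B) ^ 2)) hYm ?_
    filter_upwards [ae_restrict_mem measurableSet_Ioc] with r hr
    exact hYb r (Ioc_subset_Icc_self hr)
  have hgI : Integrable g (volume.restrict (Ioc s T)) := by
    rwa [intervalIntegrable_iff_integrableOn_Ioc_of_le hs.2] at hgi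
  have hYm' : AEStronglyMeasurable Y (volume.restrict (Ioc s T)) :=
    hYm.mono_measure (Measure.restrict_mono (Ioc_subset_Ioc_left hs.1) le_rfl)
  have hgY : IntegrableOn (fun r => 2 * g r * Y r) (Ioc s T) := by
    refine ((hgI.const_mul 2).norm.mul_const ((M + B) ^ 2)).mono'
      ((hgI.const_mul 2).aestronglyMeasurable.mul hYm') ?_
    filter_upwards [ae_restrict_mem measurableSet_Ioc] with r hr
    rw [norm_mul]
    gcongr
    exact hYb r ⟨hs.1.trans hr.1.le, hr.2⟩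
  have hgYi : IntervalIntegrable (fun r => 2 * g r * Y r) volume s T := by
    rwa [intervalIntegrable_iff_integrableOn_Ioc_of_le hs.2]
  -- the difference before `s`
  have q1 : ∀ a b, 0 ≤ a → a ≤ b → b ≤ s → ‖v b‖ ^ 2 / 2 + ν * (∫ s in a..b, ‖y s‖ ^ 2)
      ≤ ‖v a‖ ^ 2 / 2 + ∫ s in a..b, (⟪F s, y s⟫_ℝ - μ * ⟪R (v s - u s), v s⟫_ℝ) →
      Y b + μ / 2 * ∫ r in a..b, Y r ≤ Y a := by
    intro a b ha hab hbs en
    have hbT : b ≤ T := hbs.trans hs.2
    obtain ⟨r1, r2⟩ := L.rel Fr hT hF S ha hab hbT en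
    have hii : IntervalIntegrable Y volume a b := ii_of_int hYi ha hab hbT
    have e1 : ∫ r in a..b, (⟪m (v r) - m (u r), y r - z r⟫_ℝ
        - μ * ⟪R (v r - u r), v r - u r⟫_ℝ - ν * ‖y r - z r‖ ^ 2)
        ≤ ∫ r in a..b, (-(μ / 4)) * Y r := by
      refine intervalIntegral.integral_mono_ae_restrict hab r1 (hii.const_mul _) ?_
      rw [Filter.EventuallyLE, ← restrict_Ioc_eq_restrict_Icc]
      filter_upwards [ae_mono (Measure.restrict_mono (Ioc_subset_Ioc ha hbT) le_rfl) L.mem,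
        ae_restrict_mem measurableSet_Ioc] with r k1 hr
      have hr0 : 0 ≤ r := ha.trans hr.1.le
      have hmem := S.mem r ⟨hr0, hr.2.trans hbT⟩
      have hz : 27 / 4 * c ^ 4 / ν ^ 3 * ‖z r‖ ^ 4 ≤ μ / 4 := by
        refine le_trans ?_ hNμ
        have := hN r ⟨hr0, hr.2.trans hbs⟩
        have h0 : 0 ≤ 27 / 4 * c ^ 4 / ν ^ 3 := by
          have := U.c0
          positivity
        exact mul_le_mul_of_nonneg_left (pow_le_pow_left₀ (norm_nonneg _) this 4) h0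
      have h1 := nud_pt Fr U hν hμ hR hh hμh hmem k1 (Or.inl hz)
      refine h1.trans (le_of_eq ?_)
      simp only [hY]
      ring
    rw [intervalIntegral.integral_const_mul] at e1
    simp only [hY] at r2 ⊢
    simp only [hY] at e1
    linarith
  -- the difference after `s`
  have q2 : ∀ a b, 0 ≤ a → a ≤ s → s ≤ b → b ≤ T → ‖v b‖ ^ 2 / 2 + ν * (∫ s in a..b, ‖y s‖ ^ 2)
      ≤ ‖v a‖ ^ 2 / 2 + ∫ s in a..b, (⟪F s, y s⟫_ℝ - μ * ⟪R (v s - u s), v s⟫_ℝ) →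
      Y b ≤ Y a + ∫ r in s..b, 2 * g r * Y r := by
    intro a b ha has hsb hbT en
    obtain ⟨r1, r2⟩ := L.rel Fr hT hF S ha (has.trans hsb) hbT en
    set f : ℝ → ℝ := fun r => (⟪m (v r) - m (u r), y r - z r⟫_ℝ
        - μ * ⟪R (v r - u r), v r - u r⟫_ℝ - ν * ‖y r - z r‖ ^ 2) with hf
    have i1 : IntervalIntegrable f volume a s := r1.mono_set (by
      rw [uIcc_of_le has, uIcc_of_le (has.trans hsb)]
      exact Icc_subset_Icc_right hsb)
    have i2 : IntervalIntegrable f volume s b := r1.mono_set (by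
      rw [uIcc_of_le hsb, uIcc_of_le (has.trans hsb)]
      exact Icc_subset_Icc_left has)
    have e0 := intervalIntegral.integral_add_adjacent_intervals i1 i2
    have hii : IntervalIntegrable (fun r => 2 * g r * Y r) volume s b := by
      rw [intervalIntegrable_iff_integrableOn_Ioc_of_le hsb]
      exact hgY.mono_set (Ioc_subset_Ioc_right hbT)
    have e1 : ∫ r in s..b, f r ≤ ∫ r in s..b, (1 / 2) * (2 * g r * Y r) := by
      refine intervalIntegral.integral_mono_ae_restrict hsb i2 (hii.const_mul _) ?_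
      rw [Filter.EventuallyLE, ← restrict_Ioc_eq_restrict_Icc]
      filter_upwards [ae_mono (Measure.restrict_mono (Ioc_subset_Ioc hs.1 hbT) le_rfl) L.mem,
        ae_mono (Measure.restrict_mono (Ioc_subset_Ioc_right hbT) le_rfl) hg,
        ae_restrict_mem measurableSet_Ioc] with r k1 k2 hr
      have hr0 : 0 ≤ r := hs.1.trans hr.1.le
      have hmem := S.mem r ⟨hr0, hr.2.trans hbT⟩
      have h1 := nud_pt Fr U hν hμ hR hh hμh hmem k1 (Or.inr k2)
      refine h1.trans ?_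
      simp only [hY]
      have h2 : 0 ≤ μ / 2 * ‖v r - u r‖ ^ 2 := by positivity
      linarith
    have e2 : ∫ r in a..s, f r ≤ ∫ r in a..s, (0 : ℝ) := by
      refine intervalIntegral.integral_mono_ae_restrict has i1 intervalIntegrable_const ?_
      rw [Filter.EventuallyLE, ← restrict_Ioc_eq_restrict_Icc]
      filter_upwards [ae_mono (Measure.restrict_mono (Ioc_subset_Ioc ha hs.2) le_rfl) L.mem,
        ae_restrict_mem measurableSet_Ioc] with r k1 hr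
      have hr0 : 0 ≤ r := ha.trans hr.1.le
      have hmem := S.mem r ⟨hr0, hr.2.trans hs.2⟩
      have hz : 27 / 4 * c ^ 4 / ν ^ 3 * ‖z r‖ ^ 4 ≤ μ / 4 := by
        refine le_trans ?_ hNμ
        have := hN r ⟨hr0, hr.2⟩
        have h0 : 0 ≤ 27 / 4 * c ^ 4 / ν ^ 3 := by
          have := U.c0
          positivity
        exact mul_le_mul_of_nonneg_left (pow_le_pow_left₀ (norm_nonneg _) this 4) h0
      have h1 := nud_pt Fr U hν hμ hR hh hμh hmem k1 (Or.inl hz)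
      refine h1.trans ?_
      have h2 : 0 ≤ μ / 4 * ‖v r - u r‖ ^ 2 := by positivity
      linarith
    rw [intervalIntegral.integral_const_mul] at e1
    rw [intervalIntegral.integral_zero] at e2
    simp only [hY] at r2 ⊢
    simp only [hY] at e1
    linarith
  -- phase one, up to every time before `s`
  have hen : ∀ᵐ a ∂(volume.restrict (Ioc 0 s)), ∀ t ∈ Icc a T,
      ‖v t‖ ^ 2 / 2 + ν * (∫ s in a..t, ‖y s‖ ^ 2)
      ≤ ‖v a‖ ^ 2 / 2 + ∫ s in a..t, (⟪F s, y s⟫_ℝ - μ * ⟪R (v s - u s), v s⟫_ℝ) :=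
    ae_mono (Measure.restrict_mono (Ioc_subset_Ioc_right hs.2) le_rfl) L.energy
  have p1 : ∀ b ∈ Icc 0 s, Y b ≤ Y 0 * Real.exp (-(μ / 2) * b) := by
    intro b hb
    have h1 : Y b * Real.exp (μ / 2 * (b - 0)) ≤ Y 0 := by
      refine back_gron hb.1 (by positivity) (ii_of_int hYi le_rfl hb.1 (hb.2.trans hs.2)) ?_ ?_
      · filter_upwards [ae_mono (Measure.restrict_mono (Ioc_subset_Ioc_right hb.2) le_rfl) hen,
          ae_restrict_mem measurableSet_Ioc] with a h2 ha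
        exact q1 a b ha.1.le ha.2 hb.2 (h2 b ⟨ha.2, hb.2.trans hs.2⟩)
      · exact q1 0 b le_rfl hb.1 hb.2 (L.energy0 b ⟨hb.1, hb.2.trans hs.2⟩)
    have e1 : Real.exp (μ / 2 * (b - 0)) * Real.exp (-(μ / 2) * b) = 1 := by
      rw [← Real.exp_add]
      have : μ / 2 * (b - 0) + -(μ / 2) * b = 0 := by ring
      rw [this, Real.exp_zero]
    have e2 := mul_le_mul_of_nonneg_right h1 (Real.exp_pos (-(μ / 2) * b)).le
    rw [mul_assoc, e1, mul_one] at e2
    exact e2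
  -- phase two
  have p2 : Y T ≤ Y 0 * Real.exp (-(μ / 2) * s) * Real.exp (∫ r in s..T, 2 * g r) := by
    refine fwd_gron hs.2 (hgi.const_mul 2) (fun r => by have := hg0 r; positivity) hgYi
      (fun b hb => ?_)
    rcases hs.1.eq_or_lt with h0 | h0
    · have h1 := q2 0 b le_rfl hs.1 hb.1 hb.2 (L.energy0 b ⟨hs.1.trans hb.1, hb.2⟩)
      rw [← h0, mul_zero, Real.exp_zero, mul_one]
      rwa [← h0] at h1
    · have h1 : ∀ᵐ a ∂(volume.restrict (Ioc 0 s)), -(Y 0 * Real.exp (-(μ / 2) * a))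
          ≤ (∫ r in s..b, 2 * g r * Y r) - Y b := by
        filter_upwards [hen, ae_restrict_mem measurableSet_Ioc] with a h2 ha
        have h3 := q2 a b ha.1.le ha.2 hb.1 hb.2 (h2 b ⟨ha.2.trans hb.1, hb.2⟩)
        have h4 := p1 a ⟨ha.1.le, ha.2⟩
        linarith
      have h2 := ae_end h0 (f := fun a => -(Y 0 * Real.exp (-(μ / 2) * a)))
        (Continuous.continuousOn (by fun_prop)) h1
      linarith
  rw [intervalIntegral.integral_const_mul] at p2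
  exact p2

end

end Pool.Agent.Q62.DN
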