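import Pool.Agent.Q62.DN.Nud
import Pool.Agent.Q62.DN.GalAbs

/-!
Nudged solutions and a singularity, in the abstract frame.
-/

set_option autoImplicit false
set_option linter.unusedSectionVars false

open MeasureTheory Set Filter Topology
open scoped InnerProductSpace

namespace Pool.Agent.Q62.DN

open H772R2.NSR (Frame prim_cont grad_unique ae_deriv_of_prim memLp_ii)
open H772R2.NSG (by_parts ii_of_int int_inner norm_m_le mem_cont)
open Pool.Agent.W795.TQ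
open Pool.Agent.W790.TQ (toSt sq_prim)
open Pool.Agent.W795.ES (Tri Smo S_gr increment limit_state int_sq)

section

variable {H K : Type} [NormedAddCommGroup H] [InnerProductSpace ℝ H] [CompleteSpace H]
  [NormedAddCommGroup K] [InnerProductSpace ℝ K] [CompleteSpace K]
  {W : Submodule ℝ (H × K)} {m : H → K} {B : H → H → K} {C c ν τ : ℝ}
  {F F1 : ℝ → K} {u u1 : ℝ → H} {z z1 : ℝ → K}

theorem grow_nud (hgr : S_gr) (Fr : Frame W m C) (U : Univ W m c) (Tr : Tri W m B)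
    (hν : 0 < ν) (hτ : 0 < τ) (hF : FH τ F F1) (hst : ∀ t ∈ Ioo 0 τ, Str W m ν t F u u1 z z1)
    {M Φ : ℝ} (hM : ∀ t ∈ Icc 0 τ, ‖u t‖ ≤ M) (hΦ : ∀ t ∈ Icc 0 τ, ‖F t‖ ≤ Φ)
    {s : ℝ} (hs : s ∈ Ioo 0 τ) {a : H} (ha : HasDerivAt u a s) (K0 : ℝ) :
    ∃ Mc : ℝ, ∀ (μ h : ℝ) (R : H →L[ℝ] H) (v : ℝ → H) (y : ℝ → K) (β : ℝ → ℝ),
      0 ≤ h → 0 < μ → μ * h ^ 2 ≤ ν → (∀ p ∈ W, ‖p.1 - R p.1‖ ≤ h * ‖p.2‖) →
      Nud W m ν τ μ F R u v y → ‖v 0‖ ≤ K0 → IntegrableOn β (Ioo s τ) →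
      (∀ᵐ t ∂(volume.restrict (Ioo s τ)), ‖y t‖ ^ 4 ≤ β t) →
      81 / 8 * c ^ 4 / ν ^ 3 * (∫ t in s..τ, β t) ≤ μ * s / 4 - Mc →
      ∃ Bd : ℝ, 0 < Bd ∧ ∀ T' ∈ Ioo s τ, ∀ᵐ t ∂(volume.restrict (Ioc s T')), ‖u1 t‖ ≤ Bd := by
  have hC := Fr.C0
  have hc := U.c0
  have hM0 : 0 ≤ M := (norm_nonneg _).trans (hM 0 ⟨le_rfl, hτ.le⟩)
  have hΦ0 : 0 ≤ Φ := (norm_nonneg _).trans (hΦ 0 ⟨le_rfl, hτ.le⟩)
  have hF1i : IntegrableOn (fun s => ‖F1 s‖ ^ 2) (Ioc 0 τ) :=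
    (memLp_two_iff_integrable_sq_norm hF.memLp.aestronglyMeasurable).mp hF.memLp
  have hFc : ContinuousOn F (Icc 0 τ) := prim_cont hF.memLp hF.prim
  set G : ℝ := ∫ s in (0 : ℝ)..τ, ‖F1 s‖ ^ 2 with hG
  have hG0 : 0 ≤ G := intervalIntegral.integral_nonneg hτ.le fun s _ => by positivity
  obtain ⟨A, hA, hboot⟩ := boot_hist hgr hν hM0 hΦ0 hτ hG0 hc
  -- the constants before the time `s`
  set T1 : ℝ := (s + τ) / 2 with hT1
  have hsT1 : s < T1 := by simp only [hT1]; linarith [hs.2]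
  have hT1τ : T1 < τ := by simp only [hT1]; linarith [hs.2]
  have S1 := hst T1 ⟨hs.1.trans hsT1, hT1τ⟩
  obtain ⟨N1, hN1⟩ := S1.bd
  obtain ⟨N, hN⟩ : ∃ N : ℝ, ∀ r ∈ Icc 0 s, ‖z r‖ ≤ N := by
    have hzc : ContinuousOn z (Icc 0 T1) := prim_cont S1.z1m S1.pz
    obtain ⟨B, hB⟩ := (isCompact_Icc.image_of_continuousOn hzc).isBounded.exists_norm_le
    exact ⟨B, fun t ht => hB _ ⟨t, ⟨ht.1, ht.2.trans hsT1.le⟩, rfl⟩⟩
  set D : ℝ := 27 / 4 * c ^ 4 / ν ^ 3 with hD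
  have hD0 : 0 < D := by positivity
  set P1 : ℝ := Φ ^ 2 / ν ^ 2 + 2 * M / ν with hP1
  have hP10 : 0 ≤ P1 := by positivity
  have hs0 := hs.1
  set X1 : ℝ := 1 + |N1| + 2 * A * (1 + ‖a‖) with hX1
  have hX11 : 1 ≤ X1 := by
    have h1 : 0 ≤ 2 * A * (1 + ‖a‖) := by positivity
    have h2 := abs_nonneg N1
    linarith
  set P5 : ℝ := (|K0| + M) * Real.sqrt (P1 * X1) with hP5
  have hP50 : 0 ≤ P5 := by positivity
  set κ : ℝ := ν ^ 2 / (32 * c ^ 2) with hκ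
  have hκ0 : 0 < κ := by positivity
  refine ⟨|Real.log ((P5 + 1) / κ)| + D * N ^ 4 * s + 1, ?_⟩
  intro μ h R v y β hh hμ hμh hR L0 hv0 hβ hyβ hcon
  -- the integral of `β`
  set I : ℝ := ∫ t in s..τ, β t with hI
  have hβ0 : ∀ᵐ t ∂(volume.restrict (Ioo s τ)), |β t| = β t := by
    filter_upwards [hyβ] with t ht
    exact abs_of_nonneg (le_trans (by positivity) ht)
  have hIa : I = ∫ t in Ioo s τ, |β t| := by
    rw [hI, intervalIntegral.integral_of_le hs.2.le, integral_Ioc_eq_integral_Ioo]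
    exact (integral_congr_ae hβ0).symm
  have hI0 : 0 ≤ I := by
    rw [hIa]
    exact integral_nonneg fun t => abs_nonneg _
  have hIle : ∀ t, s ≤ t → t < τ → ∫ r in s..t, |β r| ≤ I := by
    intro t h1 h2
    have hsub : Ioc s t ⊆ Ioo s τ := fun r hr => ⟨hr.1, hr.2.trans_lt h2⟩
    rw [intervalIntegral.integral_of_le h1, hIa]
    exact setIntegral_mono_set hβ.abs (Eventually.of_forall fun r => abs_nonneg _)
      hsub.eventuallyLE
  have hcD : 81 / 8 * c ^ 4 / ν ^ 3 = 3 / 2 * D := by rw [hD]; ring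
  rw [hcD] at hcon
  have hDI : 0 ≤ 3 / 2 * D * I := by positivity
  have hN4 : 0 ≤ D * N ^ 4 * s := by positivity
  have hNμ : D * N ^ 4 ≤ μ / 4 := by
    have h1 : D * N ^ 4 * s ≤ μ / 4 * s := by
      have := abs_nonneg (Real.log ((P5 + 1) / κ))
      linarith
    exact le_of_mul_le_mul_right h1 hs0
  set X : ℝ := X1 * Real.exp (D * I) with hX
  have hexp1 : 1 ≤ Real.exp (D * I) := Real.one_le_exp (by positivity)
  have hX1X : X1 ≤ X := le_mul_of_one_le_right (by linarith) hexp1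
  have hXge : 1 ≤ X := hX11.trans hX1X
  have hX0 : 0 < X := by linarith
  have hsmall : Real.exp (-(μ * s / 4)) * Real.exp (D * I) * (|K0| + M) * Real.sqrt (P1 * X) ≤ κ := by
    have e1 : Real.sqrt (P1 * X) = Real.sqrt (P1 * X1) * Real.exp (D * I / 2) := by
      rw [hX, ← mul_assoc, Real.sqrt_mul (by positivity), Real.exp_half]
    have e2 : Real.exp (-(μ * s / 4)) * Real.exp (D * I) * (|K0| + M) * Real.sqrt (P1 * X)
        = P5 * Real.exp (3 / 2 * D * I - μ * s / 4) := by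
      rw [e1, hP5]
      have e3 : Real.exp (3 / 2 * D * I - μ * s / 4)
          = Real.exp (-(μ * s / 4)) * Real.exp (D * I) * Real.exp (D * I / 2) := by
        rw [← Real.exp_add, ← Real.exp_add]
        congr 1
        ring
      rw [e3]
      ring
    rw [e2]
    have h1 : 3 / 2 * D * I - μ * s / 4 ≤ -Real.log ((P5 + 1) / κ) := by
      have := le_abs_self (Real.log ((P5 + 1) / κ))
      linarith
    have h2 := Real.exp_le_exp.2 h1
    rw [Real.exp_neg, Real.exp_log (by positivity), inv_div] at h2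
    calc P5 * Real.exp (3 / 2 * D * I - μ * s / 4) ≤ P5 * (κ / (P5 + 1)) := by gcongr
      _ ≤ (P5 + 1) * (κ / (P5 + 1)) := by gcongr; linarith
      _ = κ := by field_simp
  refine ⟨A * (1 + ‖a‖) * Real.exp (D * I), by positivity, fun T' hT' => ?_⟩
  have hT'0 : 0 < T' := hs.1.trans hT'.1
  have hT'τ := hT'.2
  have S := hst T' ⟨hT'0, hT'τ⟩
  have hFT : FH T' F F1 :=
    ⟨hF.memLp.mono_measure (Measure.restrict_mono (Ioc_subset_Ioc_right hT'τ.le) le_rfl),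
      fun a b ha hab hb => hF.prim a b ha hab (hb.trans hT'τ.le)⟩
  have L := L0.mono hT'τ.le
  have hzc : ContinuousOn z (Icc 0 T') := prim_cont S.z1m S.pz
  have huc : ContinuousOn u (Icc 0 T') := prim_cont S.u1m S.pu
  have hsub' : Ioc s T' ⊆ Ioo s τ := fun r hr => ⟨hr.1, hr.2.trans_lt hT'τ⟩
  set Eb : Set ℝ := {t | κ < ‖u t - v t‖ * ‖z t‖} with hEb
  have hEm : NullMeasurableSet Eb (volume.restrict (Ioc 0 T')) := by
    have h1 : AEStronglyMeasurable u (volume.restrict (Ioc 0 T')) :=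
      (huc.mono Ioc_subset_Icc_self).aestronglyMeasurable measurableSet_Ioc
    have h2 : AEStronglyMeasurable z (volume.restrict (Ioc 0 T')) :=
      (hzc.mono Ioc_subset_Icc_self).aestronglyMeasurable measurableSet_Ioc
    have h3 : AEMeasurable (fun t => ‖u t - v t‖ * ‖z t‖) (volume.restrict (Ioc 0 T')) :=
      ((h1.sub L.meas).norm.mul h2.norm).aemeasurable
    exact nullMeasurableSet_lt aemeasurable_const h3
  have hGle : ∀ t, 0 ≤ t → t ≤ τ → ∫ s in (0 : ℝ)..t, ‖F1 s‖ ^ 2 ≤ G := by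
    intro t h1 h2
    rw [hG, intervalIntegral.integral_of_le h1, intervalIntegral.integral_of_le hτ.le]
    exact setIntegral_mono_set hF1i (Eventually.of_forall fun s => by positivity)
      (Ioc_subset_Ioc_right h2).eventuallyLE
  have hΛi : IntegrableOn (fun t => D * |β t|) (Ioc s T') := (hβ.mono_set hsub').abs.const_mul D
  have hyβ' : ∀ᵐ t ∂(volume.restrict (Ioc s T')), ‖y t‖ ^ 4 ≤ β t :=
    ae_mono (Measure.restrict_mono hsub' le_rfl) hyβ
  have hmemy : ∀ᵐ t ∂(volume.restrict (Ioc s T')), (v t, y t) ∈ W :=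
    ae_mono (Measure.restrict_mono (Ioc_subset_Ioc_left hs.1.le) le_rfl) L.mem
  obtain ⟨Z, St1⟩ := toSt hFT S
  have hweak := St1.deriv_weak Fr hT'0
  have hmain := hboot H K W m B C T' F F1 u u1 z z1 (fun t => D * |β t|) Eb Fr U Tr hT'0 hT'τ.le hFT
    S (fun t ht => hΦ t ⟨ht.1, ht.2.trans hT'τ.le⟩) (fun t ht => hM t ⟨ht.1, ht.2.trans hT'τ.le⟩)
    (hGle T' hT'0.le hT'τ.le) (fun t => by positivity) s ⟨hs.1, hT'.1⟩ hΛi a ha hEm ?_ ?_
  · -- conclusion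
    filter_upwards [hmain, ae_restrict_mem measurableSet_Ioc] with t h1 ht
    refine h1.trans ?_
    have h2 := hIle t ht.1.le (ht.2.trans_lt hT'τ)
    have h3 : ∫ r in s..t, D * |β r| ≤ D * I := by
      rw [intervalIntegral.integral_const_mul]
      gcongr
    gcongr
  · -- the form inequality
    filter_upwards [hyβ', hmemy, ae_restrict_mem measurableSet_Ioc] with t h1 h2 ht htE p hp
    have htI : t ∈ Icc 0 T' := ⟨(hs.1.trans ht.1).le, ht.2⟩
    have hmem := S.mem t htI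
    have hgen : ∀ κ' : K, -⟪m p.1, κ'⟫_ℝ ≤ 1 / 4 * ν * ‖p.2‖ ^ 2 + D * ‖κ'‖ ^ 4 * ‖p.1‖ ^ 2 := by
      intro κ'
      have l1 : -⟪m p.1, κ'⟫_ℝ ≤ c * (Real.sqrt ‖p.1‖ * Real.sqrt ‖p.2‖ ^ 3) * ‖κ'‖ := by
        have l2 := abs_real_inner_le_norm (m p.1) κ'
        have l3 := U.quart _ hp
        have l4 : ‖m p.1‖ * ‖κ'‖ ≤ c * (Real.sqrt ‖p.1‖ * Real.sqrt ‖p.2‖ ^ 3) * ‖κ'‖ :=
          mul_le_mul_of_nonneg_right l3 (norm_nonneg _)
        linarith [neg_abs_le ⟪m p.1, κ'⟫_ℝ]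
      exact l1.trans (young4 hν (norm_nonneg _) (norm_nonneg _))
    have hβt : ‖y t‖ ^ 4 ≤ |β t| := h1.trans (le_abs_self _)
    have h0 : 0 ≤ ν * ‖p.2‖ ^ 2 := by positivity
    rcases le_total ‖z t‖ ‖y t‖ with hzy | hzy
    · have k1 := hgen (z t)
      have k2 : ‖z t‖ ^ 4 ≤ |β t| := (pow_le_pow_left₀ (norm_nonneg _) hzy 4).trans hβt
      have k3 : D * ‖z t‖ ^ 4 * ‖p.1‖ ^ 2 ≤ D * |β t| * ‖p.1‖ ^ 2 := by gcongr
      linarith
    · have hbmem : (u t - v t, z t - y t) ∈ W := W.sub_mem hmem h2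
      have k1 := hgen (y t)
      have k3 : D * ‖y t‖ ^ 4 * ‖p.1‖ ^ 2 ≤ D * |β t| * ‖p.1‖ ^ 2 := by gcongr
      have k4 := U.tri p hp _ hbmem
      simp only at k4
      have hEt : ‖u t - v t‖ * ‖z t‖ ≤ κ := not_lt.1 htE
      have k5 : Real.sqrt ‖u t - v t‖ * Real.sqrt ‖z t - y t‖ ≤ ν / (4 * c) := by
        rw [← Real.sqrt_mul (norm_nonneg _)]
        refine Real.sqrt_le_iff.2 ⟨by positivity, ?_⟩
        have k6 : ‖z t - y t‖ ≤ 2 * ‖z t‖ := by
          have := norm_sub_le (z t) (y t)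
          linarith
        calc ‖u t - v t‖ * ‖z t - y t‖ ≤ ‖u t - v t‖ * (2 * ‖z t‖) := by gcongr
          _ = 2 * (‖u t - v t‖ * ‖z t‖) := by ring
          _ ≤ 2 * κ := by gcongr
          _ = (ν / (4 * c)) ^ 2 := by rw [hκ]; field_simp; norm_num
      have k7 : c * (‖p.2‖ ^ 2 * (Real.sqrt ‖u t - v t‖ * Real.sqrt ‖z t - y t‖))
          ≤ 1 / 4 * ν * ‖p.2‖ ^ 2 := by
        calc c * (‖p.2‖ ^ 2 * (Real.sqrt ‖u t - v t‖ * Real.sqrt ‖z t - y t‖))
            ≤ c * (‖p.2‖ ^ 2 * (ν / (4 * c))) := by gcongr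
          _ = 1 / 4 * ν * ‖p.2‖ ^ 2 := by field_simp
      have e2 : ⟪m p.1, z t⟫_ℝ = ⟪m p.1, y t⟫_ℝ + ⟪m p.1, z t - y t⟫_ℝ := by
        rw [inner_sub_right]; ring
      rw [e2]
      linarith [neg_abs_le ⟪m p.1, z t - y t⟫_ℝ]
  · -- the set of bad times is avoided
    have hweak' := ae_mono (Measure.restrict_mono (Ioc_subset_Ioc_left hs.1.le) le_rfl) hweak
    have hbd' : ∀ᵐ r ∂(volume.restrict (Ioc 0 s)), ‖u1 r‖ ≤ N1 :=
      ae_mono (Measure.restrict_mono (Ioc_subset_Ioc_right hsT1.le) le_rfl) hN1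
    filter_upwards [ae_restrict_mem measurableSet_Ioc] with t ht hhist
    have ht0 : 0 < t := hs.1.trans ht.1
    have htτ : t ≤ τ := ht.2.trans hT'τ.le
    have htI : t ∈ Icc 0 T' := ⟨ht0.le, ht.2⟩
    have hsubt : (volume.restrict (Ioc 0 t) : Measure ℝ) ≤ volume.restrict (Ioc 0 T') :=
      Measure.restrict_mono (Ioc_subset_Ioc_right ht.2) le_rfl
    have hIt := hIle t ht.1.le (ht.2.trans_lt hT'τ)
    -- the bound of the time derivative
    have hu1 : ∀ᵐ r ∂(volume.restrict (Ioc 0 t)), ‖u1 r‖ ≤ X := by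
      rw [ae_restrict_iff' measurableSet_Ioc] at hbd' hhist ⊢
      filter_upwards [hbd', hhist] with r l1 l2 hr
      rcases le_or_gt r s with hrs | hrs
      · have l3 := l1 ⟨hr.1, hrs⟩
        have l4 : N1 ≤ X1 := by
          have h1 : 0 ≤ 2 * A * (1 + ‖a‖) := by positivity
          have h2 := le_abs_self N1
          linarith
        linarith
      · have l3 := l2 ⟨hrs, hr.2⟩
        refine l3.trans ?_
        have l4 : ∫ x in s..r, D * |β x| ≤ D * I := by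
          rw [intervalIntegral.integral_const_mul]
          have := hIle r hrs.le (hr.2.trans_lt (ht.2.trans_lt hT'τ))
          gcongr
        have l5 : 2 * A * (1 + ‖a‖) ≤ X1 := by
          have h2 := abs_nonneg N1
          linarith
        rw [hX]
        have l6 := Real.exp_le_exp.2 l4
        exact mul_le_mul l5 l6 (Real.exp_pos _).le (by linarith)
    have hz : ∀ᵐ r ∂(volume.restrict (Ioc 0 t)), ‖z r‖ ^ 2 ≤ P1 * X := by
      filter_upwards [hu1, ae_mono hsubt hweak, ae_restrict_mem measurableSet_Ioc] with r l1 l2 hr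
      have hrI : r ∈ Icc 0 T' := ⟨hr.1.le, hr.2.trans ht.2⟩
      have l3 := z_le Fr hν (S.mem r hrI) l2 (hM r ⟨hrI.1, hrI.2.trans hT'τ.le⟩)
        (hΦ r ⟨hrI.1, hrI.2.trans hT'τ.le⟩)
      refine l3.trans ?_
      have l4 : Φ ^ 2 / ν ^ 2 ≤ Φ ^ 2 / ν ^ 2 * X := le_mul_of_one_le_right (by positivity) hXge
      have l5 : 2 * M * ‖u1 r‖ / ν ≤ 2 * M * X / ν := by gcongr
      have l6 : P1 * X = Φ ^ 2 / ν ^ 2 * X + 2 * M * X / ν := by rw [hP1]; ring
      linarith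
    have hzt : ‖z t‖ ^ 2 ≤ P1 * X :=
      ae_end ht0 ((hzc.mono (Icc_subset_Icc_right ht.2)).norm.pow 2) hz
    have hzt' : ‖z t‖ ≤ Real.sqrt (P1 * X) := Real.le_sqrt_of_sq_le hzt
    -- the distance
    have hFt : FH t F F1 :=
      ⟨hF.memLp.mono_measure (Measure.restrict_mono (Ioc_subset_Ioc_right htτ) le_rfl),
        fun a b ha hab hb => hF.prim a b ha hab (hb.trans htτ)⟩
    have hgi : IntervalIntegrable (fun r => D * |β r|) volume s t := by
      rw [intervalIntegrable_iff_integrableOn_Ioc_of_le ht.1.le]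
      exact hΛi.mono_set (Ioc_subset_Ioc_right ht.2)
    have hgc : ∀ᵐ r ∂(volume.restrict (Ioc s t)), 27 / 4 * c ^ 4 / ν ^ 3 * ‖y r‖ ^ 4 ≤ D * |β r| := by
      have h1 : ∀ᵐ r ∂(volume.restrict (Ioc s t)), ‖y r‖ ^ 4 ≤ β r :=
        ae_mono (Measure.restrict_mono (Ioc_subset_Ioc_right ht.2) le_rfl) hyβ'
      filter_upwards [h1] with r l1
      have l2 : ‖y r‖ ^ 4 ≤ |β r| := l1.trans (le_abs_self _)
      gcongr
    have hdist := Nud.dist Fr U hν hμ.le hR hh hμh ht0 hFt (S.mono ht.2) (L0.mono htτ)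
      (s := s) ⟨hs0.le, ht.1.le⟩ hN hNμ (g := fun r => D * |β r|) (fun r => by positivity) hgi hgc
    have l4 : ∫ x in s..t, D * |β x| ≤ D * I := by
      rw [intervalIntegral.integral_const_mul]
      gcongr
    have hd0 : ‖v 0 - u 0‖ ≤ |K0| + M := by
      have h1 := norm_sub_le (v 0) (u 0)
      have h2 := hM 0 ⟨le_rfl, hτ.le⟩
      have h3 := le_abs_self K0
      linarith
    have hd2 : ‖u t - v t‖ ≤ Real.exp (-(μ * s / 4)) * Real.exp (D * I) * (|K0| + M) := by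
      rw [norm_sub_rev]
      refine abs_le_of_sq_le_sq' ?_ (by positivity) |>.2
      refine hdist.trans ?_
      have e1 : Real.exp (2 * ∫ r in s..t, D * |β r|) ≤ Real.exp (D * I) ^ 2 := by
        rw [← Real.exp_nat_mul]
        refine Real.exp_le_exp.2 ?_
        push_cast
        linarith
      have e2 : Real.exp (-(μ / 2) * s) = Real.exp (-(μ * s / 4)) ^ 2 := by
        rw [← Real.exp_nat_mul]
        congr 1
        push_cast
        ring
      have e3 : ‖v 0 - u 0‖ ^ 2 ≤ (|K0| + M) ^ 2 := pow_le_pow_left₀ (norm_nonneg _) hd0 2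
      rw [e2]
      calc ‖v 0 - u 0‖ ^ 2 * Real.exp (-(μ * s / 4)) ^ 2 * Real.exp (2 * ∫ r in s..t, D * |β r|)
          ≤ (|K0| + M) ^ 2 * Real.exp (-(μ * s / 4)) ^ 2 * Real.exp (D * I) ^ 2 := by gcongr
        _ = _ := by ring
    show ¬ κ < ‖u t - v t‖ * ‖z t‖
    rw [not_lt]
    refine le_trans ?_ hsmall
    have hq : 0 ≤ Real.exp (-(μ * s / 4)) * Real.exp (D * I) * (|K0| + M) := by positivity
    exact mul_le_mul hd2 hzt' (norm_nonneg _) hq

end

end Pool.Agent.Q62.DN
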