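import Pool.Agent.Q62.DN.NudAbs
import Pool.Agent.Q62.DN.GalPub

/-!
Nudged solutions and a singularity, in a domain.
-/

set_option autoImplicit false
set_option linter.unusedSectionVars false

open MeasureTheory Set Filter Topology
open scoped InnerProductSpace ENNReal ContDiff

namespace Pool.Agent.Q62.DN

open H772R2.NS H772R2.NS.Pub H772R2.NSR H772R2.NSG
open Pool.Agent.W795.TQ
open Pool.Agent.W795.ES (S_conc S_gr Tri Smo stretch stretch_eq increment limit_state int_sq)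

theorem nud_abs (hgr : S_gr) (hit : S_iter) (hode : S_ode) (htp : S_dtp) (he1 : S_est1)
    (he2 : S_est2) (hloc : S_loc) (huni : S_uni) : ∀ c : ℝ, 0 < c →
    ∀ (H K : Type) [NormedAddCommGroup H] [InnerProductSpace ℝ H] [CompleteSpace H]
      [NormedAddCommGroup K] [InnerProductSpace ℝ K] [CompleteSpace K]
      (W : Submodule ℝ (H × K)) (m : H → K) (C ν T : ℝ) (F F1 : ℝ → K) (x0 g0 : H) (z0 : K)
      (v : ℝ → H) (y : ℝ → K), Frame W m C → Univ W m c →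
      (∀ R : ℝ, TotallyBounded {v : H | ∃ z, (v, z) ∈ W ∧ ‖z‖ ≤ R}) →
      0 < ν → 0 < T → FH T F F1 → (x0, z0) ∈ W →
      (∀ p ∈ W, ⟪F 0 - ν • z0 + m x0, p.2⟫_ℝ = ⟪g0, p.1⟫_ℝ) →
      H772R2.NSG.LH W m T (fun _ => ν) F x0 v y →
      (∃ (u u1 : ℝ → H) (z z1 : ℝ → K), Str W m ν T F u u1 z z1 ∧ ∀ t ∈ Icc 0 T, v t = u t) ∨
      ∃ τ ∈ Ioc 0 T, (∀ t ∈ Ioo 0 τ, ∃ (u u1 : ℝ → H) (z z1 : ℝ → K), Str W m ν t F u u1 z z1 ∧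
          ∀ s ∈ Icc 0 t, v s = u s) ∧
        ∀ B : H → H → K, Tri W m B → ∀ s ∈ Ico 0 τ, ∀ K0 : ℝ, ∃ Mc : ℝ, ∀ (μ h : ℝ)
          (R : H →L[ℝ] H) (va : ℝ → H) (ya : ℝ → K) (β : ℝ → ℝ), 0 ≤ h → 0 < μ → μ * h ^ 2 ≤ ν →
          (∀ p ∈ W, ‖p.1 - R p.1‖ ≤ h * ‖p.2‖) → Nud W m ν τ μ F R v va ya → ‖va 0‖ ≤ K0 →
          IntegrableOn β (Ioo s τ) →
          (∀ᵐ t ∂(volume.restrict (Ioo s τ)), ‖ya t‖ ^ 4 ≤ β t) →
          μ * τ / 8 - Mc < 81 / 8 * c ^ 4 / ν ^ 3 * ∫ t in s..τ, β t := by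
  intro c hc
  obtain ⟨k0, hk0, hcrit⟩ := dcrit hit hode htp he1 he2 hloc huni c hc
  intro H K _ _ _ _ _ _ W m C ν T F F1 x0 g0 z0 v y Fr Un hcomp hν hT hF h0 hg L
  rcases hcrit H K W m C ν T F F1 x0 g0 z0 v y Fr Un hcomp hν hT hF h0 hg L with hl | hr
  · exact Or.inl hl
  refine Or.inr ?_
  obtain ⟨τ, hτ, hst, hU⟩ := hr
  refine ⟨τ, hτ, hst, ?_⟩
  intro B hB s hs K0
  have hFc : ContinuousOn F (Icc 0 T) := prim_cont hF.memLp hF.prim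
  obtain ⟨Φ, hΦ⟩ : ∃ Φ : ℝ, ∀ t ∈ Icc 0 τ, ‖F t‖ ≤ Φ := by
    obtain ⟨B, hB⟩ := (isCompact_Icc.image_of_continuousOn hFc).isBounded.exists_norm_le
    exact ⟨B, fun t ht => hB _ ⟨t, ⟨ht.1, ht.2.trans hτ.2⟩, rfl⟩⟩
  obtain ⟨M0, hM0⟩ := L.bdd hν.le ⟨memLp_const _, Eventually.of_forall fun _ => le_rfl,
    H772R2.NSG.mem_cont hFc⟩
  have hFτ : FH τ F F1 :=
    ⟨hF.memLp.mono_measure (Measure.restrict_mono (Ioc_subset_Ioc_right hτ.2) le_rfl),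
      fun a b ha hab hb => hF.prim a b ha hab (hb.trans hτ.2)⟩
  have hst' : ∀ t ∈ Ioo 0 τ, Str W m ν t F v (deriv v) (gz W v) (deriv (gz W v)) := by
    intro t ht
    obtain ⟨u, u1, z, z1, k1, k2⟩ := hst t ht
    exact canon Fr ht.1 k1 k2
  -- a time at which `v` is differentiable
  set s1 : ℝ := max s (τ / 2) with hs1
  have hτ0 : 0 < τ := hτ.1
  have hs1s : s ≤ s1 := le_max_left _ _
  have hs1τ : τ / 2 ≤ s1 := le_max_right _ _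
  have hs1lt : s1 < τ := max_lt hs.2 (by linarith)
  obtain ⟨r, hr, a, ha⟩ : ∃ r ∈ Ioo s1 τ, ∃ a, HasDerivAt v a r := by
    have hs10 : 0 ≤ s1 := hs.1.trans hs1s
    have hT'0 : 0 < (s1 + τ) / 2 := by linarith
    have hT'τ : (s1 + τ) / 2 < τ := by linarith
    have k3 := hst' ((s1 + τ) / 2) ⟨hT'0, hT'τ⟩
    have hd := ae_deriv_of_prim hT'0 (memLp_ii hT'0.le k3.u1m) k3.pu
    have hpos : volume (Ioo s1 ((s1 + τ) / 2)) ≠ 0 := by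
      rw [Real.volume_Ioo]
      simp only [ne_eq, ENNReal.ofReal_eq_zero, not_le]
      linarith
    have hss : Ioo s1 ((s1 + τ) / 2) ⊆ Ioc 0 ((s1 + τ) / 2) :=
      fun x hx => ⟨hs10.trans_lt hx.1, hx.2.le⟩
    have hsub : (volume.restrict (Ioo s1 ((s1 + τ) / 2)) : Measure ℝ)
        ≤ volume.restrict (Ioc 0 ((s1 + τ) / 2)) := Measure.restrict_mono hss le_rfl
    have h1 : ∀ᵐ x ∂(volume.restrict (Ioo s1 ((s1 + τ) / 2))), HasDerivAt v (deriv v x) x :=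
      ae_mono hsub hd
    rw [ae_restrict_iff' measurableSet_Ioo] at h1
    have h2 : ∃ x ∈ Ioo s1 ((s1 + τ) / 2), HasDerivAt v (deriv v x) x := by
      by_contra hcon
      push Not at hcon
      refine hpos (measure_mono_null (t := {x | ¬ (x ∈ Ioo s1 ((s1 + τ) / 2) →
        HasDerivAt v (deriv v x) x)}) ?_ h1)
      intro x hx
      simp only [mem_ofPred_eq, not_forall]
      exact ⟨hx, hcon x hx⟩
    obtain ⟨x, hx, hdx⟩ := h2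
    exact ⟨x, ⟨hx.1, hx.2.trans hT'τ⟩, deriv v x, hdx⟩
  have hsr : s < r := hs1s.trans_lt hr.1
  have hr0 : 0 < r := hs.1.trans_lt hsr
  obtain ⟨Mc, hMc⟩ := grow_nud hgr Fr Un hB hν hτ.1 hFτ hst'
    (fun t ht => hM0 t ⟨ht.1, ht.2.trans hτ.2⟩) hΦ ⟨hr0, hr.2⟩ ha K0
  refine ⟨Mc, fun μ h R va ya β hh hμ hμh hR N hva hβ hy => ?_⟩
  by_contra hcon
  rw [not_lt] at hcon
  have hsub : Ioo r τ ⊆ Ioo s τ := Ioo_subset_Ioo_left hsr.le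
  have hIle : ∫ t in r..τ, β t ≤ ∫ t in s..τ, β t := by
    rw [intervalIntegral.integral_of_le hr.2.le, intervalIntegral.integral_of_le hs.2.le,
      integral_Ioc_eq_integral_Ioo, integral_Ioc_eq_integral_Ioo]
    refine setIntegral_mono_set hβ ?_ hsub.eventuallyLE
    filter_upwards [hy] with t ht
    exact le_trans (by positivity) ht
  obtain ⟨Bd, hBd0, hBd⟩ := hMc μ h R va ya β hh hμ hμh hR N hva (hβ.mono_set hsub)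
    (ae_mono (Measure.restrict_mono hsub le_rfl) hy) (by
      have h1 : 81 / 8 * c ^ 4 / ν ^ 3 * (∫ t in r..τ, β t)
          ≤ 81 / 8 * c ^ 4 / ν ^ 3 * ∫ t in s..τ, β t := by gcongr
      have h2 : μ * τ / 8 ≤ μ * r / 4 := by
        have h3 : τ / 2 ≤ r := hs1τ.trans hr.1.le
        have h4 : μ * (τ / 2) ≤ μ * r := by gcongr
        linarith
      linarith)
  refine tail_false hr0.le hr.2 hBd0 (mul_pos hk0 (Real.rpow_pos_of_pos hν (5 / 2)))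
    (v1 := deriv v) ?_ hU
  intro T' hT'
  have S := hst' T' ⟨hr0.trans hT'.1, hT'.2⟩
  exact ⟨fun a b h1 h2 h3 => S.pu a b (hr0.le.trans h1) h2 h3,
    (prim_cont S.u1m S.pu).mono (Icc_subset_Icc_left hr0.le), hBd T' hT'⟩

theorem nud_mid (hconc : S_conc) (hgr : S_gr) (hit : S_iter) (hode : S_ode) (htp : S_dtp)
    (he1 : S_est1) (he2 : S_est2) (hloc : S_loc) (huni : S_uni) (hun : S_univ) :
    ∃ c : ℝ, 0 < c ∧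
    ∀ (Ω : Set E3), IsOpen Ω → Bornology.IsBounded Ω → ∀ (ν T : ℝ), 0 < ν → 0 < T →
    ∀ (F F' : ℝ → L2M Ω), MemLp F' 2 (volume.restrict (Ioc 0 T)) →
    (∀ a b, 0 ≤ a → a ≤ b → b ≤ T → F b - F a = ∫ s in a..b, F' s) →
    ∀ (u : ℝ → L2V Ω) (z : ℝ → L2M Ω), AEStronglyMeasurable u (volume.restrict (Ioc 0 T)) →
    (∀ᵐ t ∂(volume.restrict (Ioc 0 T)), (u t, z t) ∈ graphW Ω) →
    MemLp z 2 (volume.restrict (Ioc 0 T)) →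
    (∀ φ : E3 → E3, H772R2.NS.IsTest Ω φ → ∀ t ∈ Icc 0 T,
      (∫ x in (show Set R3 from Ω), ⟪L2.fn (Ω := Ω) (E := R3) (u t) x, (φ : R3 → R3) x⟫_ℝ)
        - (∫ x in (show Set R3 from Ω), ⟪L2.fn (Ω := Ω) (E := R3) (u 0) x, (φ : R3 → R3) x⟫_ℝ)
      = ∫ s in (0 : ℝ)..t, Pub.rhs (Ω := Ω) ν (u s) (z s) (F s) φ) →
    (∀ t ∈ Icc 0 T, ‖u t‖ ^ 2 / 2 + ν * (∫ s in (0 : ℝ)..t, ‖z s‖ ^ 2)
      ≤ ‖u 0‖ ^ 2 / 2 + ∫ s in (0 : ℝ)..t, ⟪F s, z s⟫_ℝ) →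
    ∀ z0 : L2M Ω, (u 0, z0) ∈ graphW Ω →
    (∃ h : L2V Ω, ∀ φ : E3 → E3, H772R2.NS.IsTest Ω φ →
      Pub.rhs (Ω := Ω) ν (u 0) z0 (F 0) φ
        = ∫ x in (show Set R3 from Ω), ⟪L2.fn (Ω := Ω) (E := R3) h x, (φ : R3 → R3) x⟫_ℝ) →
    (∃ u' G1 G', IsStrong (show Set R3 from Ω) ν T F u u' G1 G') ∨
    ∃ τ ∈ Ioc 0 T, (∀ t ∈ Ioo 0 τ, ∃ u' G1 G', IsStrong (show Set R3 from Ω) ν t F u u' G1 G') ∧
      ∀ s ∈ Ico 0 τ, ∀ K0 : ℝ, ∃ M : ℝ, ∀ (μ h : ℝ) (R : L2V Ω →L[ℝ] L2V Ω) (v : ℝ → L2V Ω)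
          (y : ℝ → L2M Ω) (β : ℝ → ℝ), 0 ≤ h → 0 < μ → μ * h ^ 2 ≤ ν →
          (∀ p ∈ graphW Ω, ‖p.1 - R p.1‖ ≤ h * ‖p.2‖) →
          Nud (graphW Ω) (tensL (Ω := Ω)) ν τ μ F R u v y → ‖v 0‖ ≤ K0 → IntegrableOn β (Ioo s τ) →
        (∀ᵐ t ∂(volume.restrict (Ioo s τ)), ‖y t‖ ^ 4 ≤ β t) →
        c * ν ^ 3 * (μ * τ - M) ≤ ∫ t in s..τ, β t := by
  obtain ⟨c, hc, hU⟩ := hun
  refine ⟨1 / (81 * c ^ 4), by positivity, ?_⟩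
  intro Ω hΩ hb ν T hν hT F F' hF1 hF u z hmeas hmem hz2 heqn hen z0 h0 hg
  obtain ⟨B, hB, hsmo⟩ := hconc Ω hΩ hb
  obtain ⟨C, Fr⟩ := exists_frame hΩ hb
  obtain ⟨g0, hg0⟩ := hg
  have hm : MeasurableSet Ω := hΩ.measurableSet
  have hcomp : ∀ p ∈ graphW Ω, ⟪F 0 - ν • z0 + tensL (u 0), p.2⟫_ℝ = ⟪g0, p.1⟫_ℝ := by
    refine compat_ext ?_
    rintro p ⟨φ, k1, k2, k3⟩
    rw [← pub_rhs hm ν (F 0) h0 k3, ← pub_inner (Ω := Ω) g0 k2]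
    exact hg0 φ k1
  have hFc : ContinuousOn F (Icc 0 T) := prim_cont hF1 hF
  have hLH := lh_mid hΩ hFc Fr hmeas hmem hz2 heqn hen
  rcases nud_abs hgr hit hode htp he1 he2 hloc huni c hc (L2V Ω) (L2M Ω) (graphW Ω) tensL C ν T
    F F' (u 0) g0 z0 u z Fr (hU _ hΩ) (rellich_W hΩ hb) hν hT ⟨hF1, hF⟩ h0 hcomp hLH with
    ⟨w, w1, y, y1, k1, k2⟩ | ⟨τ, hτ, k1, k2⟩
  · exact Or.inl ⟨w1, y, y1, strong_of_str hΩ hT k1 k2⟩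
  refine Or.inr ⟨τ, hτ, fun t ht => ?_, ?_⟩
  · obtain ⟨w, w1, y, y1, k3, k4⟩ := k1 t ht
    exact ⟨w1, y, y1, strong_of_str hΩ ht.1 k3 k4⟩
  intro s hs K0
  obtain ⟨M, hM⟩ := k2 B hB s hs K0
  refine ⟨8 * M, fun μ h R v y β hh hμ hμh hR N hv0 hβ hy => ?_⟩
  have h1 := (hM μ h R v y β hh hμ hμh hR N hv0 hβ hy).le
  have h2 : 81 / 8 * c ^ 4 / ν ^ 3 * (∫ t in s..τ, β t)
      = 1 / 8 * ((∫ t in s..τ, β t) / (1 / (81 * c ^ 4) * ν ^ 3)) := by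
    field_simp
  rw [h2] at h1
  have h3 : μ * τ - 8 * M ≤ (∫ t in s..τ, β t) / (1 / (81 * c ^ 4) * ν ^ 3) := by linarith
  rw [le_div_iff₀ (by positivity)] at h3
  linarith

/-- from the public data to the abstract ones -/
theorem pub_nud {Ω : Set E3} (hΩ : IsOpen Ω) {ν T μ : ℝ} {F : ℝ → L2M Ω}
    {R : L2V Ω →L[ℝ] L2V Ω} {u v : ℝ → L2V Ω} {y : ℝ → L2M Ω}
    (hmeas : AEStronglyMeasurable v (volume.restrict (Ioc 0 T)))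
    (hmem : ∀ᵐ t ∂(volume.restrict (Ioc 0 T)), (v t, y t) ∈ graphW Ω)
    (hy : MemLp y 2 (volume.restrict (Ioc 0 T)))
    (heqn : ∀ p ∈ graphW Ω, ∀ t ∈ Icc 0 T, ⟪v t - v 0, p.1⟫_ℝ
      = ∫ s in (0 : ℝ)..t, (⟪F s, p.2⟫_ℝ - ν * ⟪y s, p.2⟫_ℝ
        + stretch (Ω := (show Set R3 from Ω)) p.2 (v s) - μ * ⟪R (v s - u s), p.1⟫_ℝ))
    (hen0 : ∀ t ∈ Icc 0 T, ‖v t‖ ^ 2 / 2 + ν * (∫ s in (0 : ℝ)..t, ‖y s‖ ^ 2)
      ≤ ‖v 0‖ ^ 2 / 2 + ∫ s in (0 : ℝ)..t, (⟪F s, y s⟫_ℝ - μ * ⟪R (v s - u s), v s⟫_ℝ))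
    (hen : ∀ᵐ a ∂(volume.restrict (Ioc 0 T)), ∀ t ∈ Icc a T,
      ‖v t‖ ^ 2 / 2 + ν * (∫ s in a..t, ‖y s‖ ^ 2)
        ≤ ‖v a‖ ^ 2 / 2 + ∫ s in a..t, (⟪F s, y s⟫_ℝ - μ * ⟪R (v s - u s), v s⟫_ℝ)) :
    Nud (graphW Ω) (tensL (Ω := Ω)) ν T μ F R u v y := by
  have hm : MeasurableSet Ω := hΩ.measurableSet
  refine ⟨hmeas, aestronglyMeasurable_tensL hm hmeas hy.aestronglyMeasurable hmem, hmem, hy,
    ?_, hen0, hen⟩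
  intro p hp t ht
  rw [heqn p hp t ht, intervalIntegral.integral_of_le ht.1, intervalIntegral.integral_of_le ht.1]
  refine integral_congr_ae ?_
  filter_upwards [ae_mono (Measure.restrict_mono (Ioc_subset_Ioc_right ht.2) le_rfl) hmem] with s hs
  have h1 := stretch_eq hm p.2 hs
  simp only at h1
  rw [h1, inner_add_left, inner_sub_left, real_inner_smul_left]

end Pool.Agent.Q62.DN
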