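import Pool.Agent.W795.ES.Fin
import Pool.Agent.W790.TQ.Est2

/-!
A singularity of the Navier-Stokes equations in a domain and the velocity resolved at one scale, in
the abstract frame.
-/

set_option autoImplicit false

open MeasureTheory Set Filter Topology
open scoped InnerProductSpace

namespace Pool.Agent.Q62.DN

open H772R2.NSR (Frame prim_cont)
open Pool.Agent.W795.TQ
open Pool.Agent.W795.ES (Tri Smo S_gr)
open Pool.Agent.W790.TQ (toSt)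

theorem young4 {c N ν x y : ℝ} (hν : 0 < ν) (hx : 0 ≤ x) (hy : 0 ≤ y) :
    c * (Real.sqrt x * Real.sqrt y ^ 3) * N ≤ 1 / 4 * ν * y ^ 2
      + 27 / 4 * c ^ 4 / ν ^ 3 * N ^ 4 * x ^ 2 := by
  set A := Real.sqrt x with hA
  set B := Real.sqrt y with hB
  have hxe : x ^ 2 = A ^ 4 := by
    rw [hA, show Real.sqrt x ^ 4 = (Real.sqrt x ^ 2) ^ 2 by ring, Real.sq_sqrt hx]
  have hye : y ^ 2 = B ^ 4 := by
    rw [hB, show Real.sqrt y ^ 4 = (Real.sqrt y ^ 2) ^ 2 by ring, Real.sq_sqrt hy]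
  rw [hxe, hye]
  set w := c * N * A / ν with hw
  have e1 : c * (A * B ^ 3) * N = ν * (w * B ^ 3) := by rw [hw]; field_simp
  have e2 : 27 / 4 * c ^ 4 / ν ^ 3 * N ^ 4 * A ^ 4 = ν * (27 / 4 * w ^ 4) := by
    rw [hw]; field_simp
  rw [e1, e2]
  have h1 : 0 ≤ (B - 3 * w) ^ 2 * ((B + w) ^ 2 + 2 * w ^ 2) := by positivity
  have h2 : 0 ≤ ν * ((B - 3 * w) ^ 2 * ((B + w) ^ 2 + 2 * w ^ 2)) := by positivity
  nlinarith [h2]

section

variable {H K : Type} [NormedAddCommGroup H] [InnerProductSpace ℝ H]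
  [NormedAddCommGroup K] [InnerProductSpace ℝ K]
  {W : Submodule ℝ (H × K)} {m : H → K} {C c ν : ℝ}

/-- bound of the unresolved part -/
theorem unres (Fr : Frame W m C) (U : Univ W m c) (hν : 0 < ν) {u u1 b : H} {z zb f : K}
    {M Φ k κ e δ : ℝ} (hu : (u, z) ∈ W) (hb : (b, zb) ∈ W)
    (hw : ∀ p ∈ W, ⟪u1, p.1⟫_ℝ = ⟪f - ν • z + m u, p.2⟫_ℝ) (hM : ‖u‖ ≤ M) (hΦ : ‖f‖ ≤ Φ)
    (hk : 0 ≤ k) (hδ : 0 < δ) (hκ : 0 < κ) (hκ1 : κ ≤ 1)
    (hs : ‖b‖ ^ 2 + δ ^ 2 * ‖zb‖ ^ 2 ≤ k * δ ^ 2 * ⟪z, zb⟫_ℝ)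
    (hκe : c * k / ν * κ * (Φ + c * Φ ^ 2 / ν ^ 2 + (2 * c * M / ν + 1)) ≤ e)
    (hg : δ * (1 + ‖u1‖) ≤ κ ^ 2) : c * (Real.sqrt ‖b‖ * Real.sqrt ‖zb‖) ≤ e := by
  have hc := U.c0
  have hM0 : 0 ≤ M := (norm_nonneg _).trans hM
  have hΦ0 : 0 ≤ Φ := (norm_nonneg _).trans hΦ
  set g := ‖u1‖ with hgd
  have hg0 : 0 ≤ g := norm_nonneg _
  have hkX : 0 ≤ k * ⟪z, zb⟫_ℝ := by
    have h1 : 0 ≤ k * δ ^ 2 * ⟪z, zb⟫_ℝ := le_trans (by positivity) hs
    have h2 : k * δ ^ 2 * ⟪z, zb⟫_ℝ = δ ^ 2 * (k * ⟪z, zb⟫_ℝ) := by ring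
    rw [h2] at h1
    exact nonneg_of_mul_nonneg_right h1 (by positivity)
  set Y := Real.sqrt (k * ⟪z, zb⟫_ℝ) with hY
  have hY0 : 0 ≤ Y := Real.sqrt_nonneg _
  have hY2 : Y ^ 2 = k * ⟪z, zb⟫_ℝ := Real.sq_sqrt hkX
  have hb1 : ‖b‖ ≤ δ * Y := by
    refine abs_le_of_sq_le_sq' ?_ (by positivity) |>.2
    nlinarith [sq_nonneg (δ * ‖zb‖)]
  have hb2 : ‖zb‖ ≤ Y := by
    have h1 : (δ * ‖zb‖) ^ 2 ≤ (δ * Y) ^ 2 := by nlinarith [sq_nonneg ‖b‖]
    have h2 := abs_le_of_sq_le_sq' h1 (by positivity) |>.2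
    exact le_of_mul_le_mul_left h2 hδ
  have hsq : Real.sqrt ‖b‖ * Real.sqrt ‖zb‖ ≤ Real.sqrt δ * Y := by
    rw [← Real.sqrt_mul (norm_nonneg _)]
    calc Real.sqrt (‖b‖ * ‖zb‖) ≤ Real.sqrt (δ * Y * Y) := by
          apply Real.sqrt_le_sqrt
          gcongr
      _ = Real.sqrt δ * Y := by
          rw [mul_assoc, Real.sqrt_mul hδ.le, Real.sqrt_mul_self hY0]
  -- the gradient of `u`
  have hz : ‖z‖ ^ 2 ≤ Φ ^ 2 / ν ^ 2 + 2 * M * g / ν := by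
    have e1 := hw _ hu
    simp only at e1
    rw [inner_add_left, inner_sub_left, real_inner_smul_left, real_inner_self_eq_norm_sq,
      Fr.ortho _ hu, add_zero] at e1
    have h1 : ⟪f, z⟫_ℝ ≤ Φ * ‖z‖ :=
      (real_inner_le_norm _ _).trans (mul_le_mul_of_nonneg_right hΦ (norm_nonneg _))
    have h2 : -⟪u1, u⟫_ℝ ≤ g * M := by
      have h3 := abs_real_inner_le_norm u1 u
      have h4 : ‖u1‖ * ‖u‖ ≤ g * M := by gcongr
      linarith [neg_abs_le ⟪u1, u⟫_ℝ]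
    have h3 : ν * ‖z‖ ^ 2 ≤ Φ * ‖z‖ + g * M := by linarith
    have h4 : Φ * ‖z‖ ≤ Φ ^ 2 / (2 * ν) + ν * ‖z‖ ^ 2 / 2 := by
      have h5 : 0 ≤ (Φ - ν * ‖z‖) ^ 2 / (2 * ν) := by positivity
      have h6 : (Φ - ν * ‖z‖) ^ 2 / (2 * ν)
          = Φ ^ 2 / (2 * ν) + ν * ‖z‖ ^ 2 / 2 - Φ * ‖z‖ := by field_simp; ring
      linarith
    have h7 : ν * ‖z‖ ^ 2 ≤ ν * (Φ ^ 2 / ν ^ 2 + 2 * M * g / ν) := by
      have h8 : ν * (Φ ^ 2 / ν ^ 2 + 2 * M * g / ν) = 2 * (Φ ^ 2 / (2 * ν) + g * M) := by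
        field_simp
      rw [h8]
      linarith
    exact le_of_mul_le_mul_left h7 hν
  -- the equation tested with the unresolved part
  have hX : ν * Y ≤ k * (Φ + c * Real.sqrt δ * ‖z‖ ^ 2 + δ * g) := by
    have e1 := hw _ hb
    simp only at e1
    rw [inner_add_left, inner_sub_left, real_inner_smul_left] at e1
    have h1 : ⟪f, zb⟫_ℝ ≤ Φ * Y :=
      (real_inner_le_norm _ _).trans (mul_le_mul hΦ hb2 (norm_nonneg _) hΦ0)
    have h2 : ⟪m u, zb⟫_ℝ ≤ c * (‖z‖ ^ 2 * (Real.sqrt δ * Y)) := by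
      refine (le_abs_self _).trans ((U.tri _ hu _ hb).trans ?_)
      simp only
      gcongr
    have h3 : -⟪u1, b⟫_ℝ ≤ g * (δ * Y) := by
      have h3 := abs_real_inner_le_norm u1 b
      have h4 : ‖u1‖ * ‖b‖ ≤ g * (δ * Y) := by gcongr
      linarith [neg_abs_le ⟪u1, b⟫_ℝ]
    have h4 : ν * ⟪z, zb⟫_ℝ ≤ Y * (Φ + c * Real.sqrt δ * ‖z‖ ^ 2 + δ * g) := by
      have : Y * (Φ + c * Real.sqrt δ * ‖z‖ ^ 2 + δ * g)
        = Φ * Y + c * (‖z‖ ^ 2 * (Real.sqrt δ * Y)) + g * (δ * Y) := by ring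
      linarith
    rcases hY0.eq_or_lt with h0 | h0
    · rw [← h0, mul_zero]
      positivity
    have h5 : Y * (ν * Y) ≤ Y * (k * (Φ + c * Real.sqrt δ * ‖z‖ ^ 2 + δ * g)) := by
      calc Y * (ν * Y) = k * (ν * ⟪z, zb⟫_ℝ) := by rw [show Y * (ν * Y) = ν * Y ^ 2 by ring, hY2]; ring
        _ ≤ k * (Y * (Φ + c * Real.sqrt δ * ‖z‖ ^ 2 + δ * g)) := mul_le_mul_of_nonneg_left h4 hk
        _ = _ := by ring
    exact le_of_mul_le_mul_left h5 h0
  -- smallness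
  have hδκ2 : δ ≤ κ ^ 2 := by nlinarith [mul_nonneg hδ.le hg0]
  have hδg : δ * g ≤ κ ^ 2 := by nlinarith
  have hκ2 : κ ^ 2 ≤ κ := by nlinarith
  have hδ1 : δ ≤ 1 := hδκ2.trans (hκ2.trans hκ1)
  have hsδ : Real.sqrt δ ≤ κ := Real.sqrt_le_iff.2 ⟨hκ.le, hδκ2⟩
  have hsδ1 : Real.sqrt δ ≤ 1 := hsδ.trans hκ1
  have hsδ0 : 0 ≤ Real.sqrt δ := Real.sqrt_nonneg _
  have hsδ2 : Real.sqrt δ * Real.sqrt δ = δ := Real.mul_self_sqrt hδ.le
  have hfin : Real.sqrt δ * (Φ + c * Real.sqrt δ * ‖z‖ ^ 2 + δ * g)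
      ≤ κ * (Φ + c * Φ ^ 2 / ν ^ 2 + (2 * c * M / ν + 1)) := by
    have h1 : Real.sqrt δ * Φ ≤ κ * Φ := by gcongr
    have h2 : Real.sqrt δ * (c * Real.sqrt δ * ‖z‖ ^ 2)
        ≤ κ * (c * Φ ^ 2 / ν ^ 2) + κ * (2 * c * M / ν) := by
      calc Real.sqrt δ * (c * Real.sqrt δ * ‖z‖ ^ 2)
          = c * ((Real.sqrt δ * Real.sqrt δ) * ‖z‖ ^ 2) := by ring
        _ = c * (δ * ‖z‖ ^ 2) := by rw [hsδ2]
        _ ≤ c * (δ * (Φ ^ 2 / ν ^ 2 + 2 * M * g / ν)) := by gcongr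
        _ = δ * (c * Φ ^ 2 / ν ^ 2) + δ * g * (2 * c * M / ν) := by ring
        _ ≤ κ * (c * Φ ^ 2 / ν ^ 2) + κ * (2 * c * M / ν) := by
            have h3 : 0 ≤ c * Φ ^ 2 / ν ^ 2 := by positivity
            have h4 : 0 ≤ 2 * c * M / ν := by positivity
            have h5 : δ ≤ κ := hδκ2.trans hκ2
            have h6 : δ * g ≤ κ := hδg.trans hκ2
            gcongr
    have h3 : Real.sqrt δ * (δ * g) ≤ κ := by
      calc Real.sqrt δ * (δ * g) ≤ 1 * κ := by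
            have h6 : δ * g ≤ κ := hδg.trans hκ2
            gcongr
        _ = κ := one_mul _
    calc Real.sqrt δ * (Φ + c * Real.sqrt δ * ‖z‖ ^ 2 + δ * g)
        = Real.sqrt δ * Φ + Real.sqrt δ * (c * Real.sqrt δ * ‖z‖ ^ 2)
          + Real.sqrt δ * (δ * g) := by ring
      _ ≤ κ * Φ + (κ * (c * Φ ^ 2 / ν ^ 2) + κ * (2 * c * M / ν)) + κ := by linarith
      _ = _ := by ring
  calc c * (Real.sqrt ‖b‖ * Real.sqrt ‖zb‖) ≤ c * (Real.sqrt δ * Y) := by gcongr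
    _ = c / ν * (Real.sqrt δ * (ν * Y)) := by field_simp
    _ ≤ c / ν * (Real.sqrt δ * (k * (Φ + c * Real.sqrt δ * ‖z‖ ^ 2 + δ * g))) := by gcongr
    _ = c / ν * k * (Real.sqrt δ * (Φ + c * Real.sqrt δ * ‖z‖ ^ 2 + δ * g)) := by ring
    _ ≤ c / ν * k * (κ * (Φ + c * Φ ^ 2 / ν ^ 2 + (2 * c * M / ν + 1))) := by gcongr
    _ = c * k / ν * κ * (Φ + c * Φ ^ 2 / ν ^ 2 + (2 * c * M / ν + 1)) := by ring
    _ ≤ e := hκe

end

/-- an integral which stays zero -/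
theorem stay_zero {s T η : ℝ} (hsT : s ≤ T) (hη : 0 < η) {E : Set ℝ}
    (hE : NullMeasurableSet E (volume.restrict (Ioc s T)))
    (hst : ∀ᵐ t ∂(volume.restrict (Ioc s T)),
      (∫ r in s..t, E.indicator (fun _ => (1 : ℝ)) r) ≤ η → t ∉ E) :
    ∀ᵐ t ∂(volume.restrict (Ioc s T)), t ∉ E := by
  set χ : ℝ → ℝ := E.indicator (fun _ => (1 : ℝ)) with hχ
  have hi : IntegrableOn χ (Ioc s T) := by
    have h1 : IntegrableOn (fun _ : ℝ => (1 : ℝ)) (Ioc s T) := integrableOn_const (by simp)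
    exact h1.indicator₀ hE
  have hχ0 : ∀ r, 0 ≤ χ r := fun r => indicator_nonneg (fun _ _ => zero_le_one) r
  have hii : ∀ a b, s ≤ a → a ≤ b → b ≤ T → IntervalIntegrable χ volume a b := fun a b h1 h2 h3 => by
    rw [intervalIntegrable_iff_integrableOn_Ioc_of_le h2]
    exact hi.mono_set (Ioc_subset_Ioc h1 h3)
  set h : ℝ → ℝ := fun t => ∫ r in s..t, χ r with hh
  have hc : ContinuousOn h (Icc s T) := by
    have := intervalIntegral.continuousOn_primitive_interval' (f := χ) (μ := volume) (a := s)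
      (b₁ := s) (b₂ := T) (hii s T le_rfl hsT le_rfl) left_mem_uIcc
    rwa [uIcc_of_le hsT] at this
  have hmono : ∀ a b, s ≤ a → a ≤ b → b ≤ T → h a ≤ h b := by
    intro a b h1 h2 h3
    have e := intervalIntegral.integral_add_adjacent_intervals (hii s a le_rfl h1 (h2.trans h3))
      (hii a b h1 h2 h3)
    have e2 : 0 ≤ ∫ r in a..b, χ r := intervalIntegral.integral_nonneg h2 fun r _ => hχ0 r
    simp only [hh]
    linarith
  have hsmall : ∀ t ∈ Icc s T, h t ≤ η → h t = 0 := by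
    intro t ht h1
    have h2 : ∀ᵐ r ∂(volume.restrict (Ioc s t)), χ r = 0 := by
      have h3 := ae_mono (Measure.restrict_mono (Ioc_subset_Ioc_right ht.2) le_rfl) hst
      filter_upwards [h3, ae_restrict_mem measurableSet_Ioc] with r hr hrs
      have h4 : r ∉ E := hr ((hmono r t hrs.1.le hrs.2 ht.2).trans h1)
      exact indicator_of_notMem h4 _
    simp only [hh]
    rw [intervalIntegral.integral_of_le ht.1, integral_congr_ae h2, integral_zero]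
  have hT0 : h T = 0 := by
    by_contra hne
    have h0 : 0 ≤ h T := intervalIntegral.integral_nonneg hsT fun r _ => hχ0 r
    have hpos : 0 < h T := lt_of_le_of_ne h0 (Ne.symm hne)
    have hs0 : h s = 0 := by simp only [hh]; exact intervalIntegral.integral_same
    obtain ⟨t, ht, hte⟩ := intermediate_value_Icc hsT hc
      (show min η (h T) ∈ Icc (h s) (h T) from ⟨by rw [hs0]; positivity, min_le_right _ _⟩)
    have h1 := hsmall t ht (by rw [hte]; exact min_le_left _ _)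
    rw [hte] at h1
    have : 0 < min η (h T) := lt_min hη hpos
    linarith
  have h5 : χ =ᵐ[volume.restrict (Ioc s T)] 0 := by
    refine (integral_eq_zero_iff_of_nonneg hχ0 hi).1 ?_
    rw [← intervalIntegral.integral_of_le hsT]
    exact hT0
  filter_upwards [h5] with t ht htE
  rw [hχ, indicator_of_mem htE] at ht
  exact one_ne_zero ht

/-- the splitting of the velocity into the resolved part `α` and the rest at the scale `δ` -/
structure Res {H K : Type} [NormedAddCommGroup H] [InnerProductSpace ℝ H]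
    [NormedAddCommGroup K] [InnerProductSpace ℝ K] (W : Submodule ℝ (H × K)) (k : ℝ)
    (u : H) (z : K) (δ : ℝ) (α : H) (ζ : K) : Prop where
  pos : 0 < δ
  mem : (α, ζ) ∈ W
  le : ‖u - α‖ ^ 2 + δ ^ 2 * ‖z - ζ‖ ^ 2 ≤ k * δ ^ 2 * ⟪z, z - ζ⟫_ℝ

theorem grow_res (hgr : S_gr) {N : ℕ} {ν ε cq M Φ T0 G c k : ℝ} (hν : 0 < ν) (hε : 0 < ε)
    (hε1 : ε ≤ 1) (hcq : 0 ≤ cq) (hM : 0 ≤ M) (hΦ : 0 ≤ Φ) (hT0 : 0 < T0) (hG : 0 ≤ G)
    (hc : 0 < c) (hk : 0 ≤ k) : ∃ A κ : ℝ, 0 < A ∧ 0 < κ ∧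
  ∀ (H K : Type) [NormedAddCommGroup H] [InnerProductSpace ℝ H] [CompleteSpace H]
    [NormedAddCommGroup K] [InnerProductSpace ℝ K] [CompleteSpace K]
    (W : Submodule ℝ (H × K)) (m : H → K) (B : H → H → K) (C T : ℝ) (F F1 : ℝ → K)
    (u u1 : ℝ → H) (z z1 : ℝ → K) (q : Fin N → H × K) (Λ : ℝ → ℝ) (δ : ℝ → ℝ) (α : ℝ → H)
    (ζ : ℝ → K),
    Frame W m C → Univ W m c → Tri W m B → (∀ j, Smo W B cq (q j)) →
    Orthonormal ℝ (fun j => (q j).1) →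
    0 < T → T ≤ T0 → FH T F F1 → Str W m ν T F u u1 z z1 →
    (∀ t ∈ Icc 0 T, ‖F t‖ ≤ Φ) → (∀ t ∈ Icc 0 T, ‖u t‖ ≤ M) →
    (∫ s in (0 : ℝ)..T, ‖F1 s‖ ^ 2) ≤ G →
    (∀ t, 0 ≤ Λ t) → ∀ s0 ∈ Ioo 0 T, IntegrableOn Λ (Ioc s0 T) → ∀ a : H, HasDerivAt u a s0 →
    (∀ᵐ t ∂(volume.restrict (Ioc s0 T)), Res W k (u t) (z t) (δ t) (α t) (ζ t) ∧
      (∀ p ∈ W, (∀ j, ⟪p.1, (q j).1⟫_ℝ = 0) →
        -⟪m p.1, ζ t⟫_ℝ ≤ (1 - ε) * ν * ‖p.2‖ ^ 2 + Λ t * ‖p.1‖ ^ 2) ∧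
      δ t * (A * (1 + ‖a‖) * Real.exp (∫ s in s0..t, Λ s)) ≤ κ) →
    ∀ᵐ t ∂(volume.restrict (Ioc s0 T)),
      ‖u1 t‖ ≤ A * (1 + ‖a‖) * Real.exp (∫ s in s0..t, Λ s) := by
  obtain ⟨A0, hA0, hgr'⟩ := hgr N ν (ε / 2) cq M Φ T0 G hν (by positivity) hcq hM hΦ hT0 hG
  set D : ℝ := Φ + c * Φ ^ 2 / ν ^ 2 + (2 * c * M / ν + 1) with hD
  have hD0 : 0 ≤ D := by positivity
  set κ : ℝ := min 1 (ε / 2 * ν / (c * k / ν * D + 1)) with hκ
  have hκ0 : 0 < κ := lt_min one_pos (by positivity)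
  have hκ1 : κ ≤ 1 := min_le_left _ _
  have hκe : c * k / ν * κ * D ≤ ε / 2 * ν := by
    have h1 : κ ≤ ε / 2 * ν / (c * k / ν * D + 1) := min_le_right _ _
    have h2 : 0 ≤ c * k / ν * D := by positivity
    calc c * k / ν * κ * D = c * k / ν * D * κ := by ring
      _ ≤ (c * k / ν * D + 1) * (ε / 2 * ν / (c * k / ν * D + 1)) := by
          gcongr
          linarith
      _ = ε / 2 * ν := by field_simp
  refine ⟨2 * (1 + A0), κ ^ 2, by positivity, by positivity, ?_⟩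
  intro H K _ _ _ _ _ _ W m B C T F F1 u u1 z z1 q Λ δ α ζ Fr Un Tr hq ho hT hTT0 hF S hFb hub hF1
    hΛ0 s0 hs0 hΛi a ha hres
  have hzc : ContinuousOn z (Icc 0 T) := prim_cont S.z1m S.pz
  obtain ⟨Nz, hNz0, hNz⟩ : ∃ Nz : ℝ, 0 ≤ Nz ∧ ∀ t ∈ Icc 0 T, ‖z t‖ ≤ Nz := by
    obtain ⟨B, hB⟩ := (isCompact_Icc.image_of_continuousOn hzc).isBounded.exists_norm_le
    exact ⟨max B 0, le_max_right _ _, fun t ht => (hB _ ⟨t, ht, rfl⟩).trans (le_max_left _ _)⟩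
  set R : ℝ := 27 / 4 * c ^ 4 / ν ^ 3 * Nz ^ 4 with hR
  have hR0 : 0 ≤ R := by positivity
  -- the function `Λ` restricted to the interval
  set Λ1 : ℝ → ℝ := (Ioc s0 T).indicator Λ with hΛ1
  have hΛ10 : ∀ t, 0 ≤ Λ1 t := fun t => indicator_nonneg (fun x _ => hΛ0 x) t
  have hΛ1i : Integrable Λ1 := hΛi.integrable_indicator measurableSet_Ioc
  have hΛ1e : ∀ t ∈ Icc s0 T, ∫ r in s0..t, Λ1 r = ∫ r in s0..t, Λ r := by
    intro t ht
    refine intervalIntegral.integral_congr_ae (Eventually.of_forall fun r hr => ?_)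
    rw [uIoc_of_le ht.1] at hr
    exact indicator_of_mem (show r ∈ Ioc s0 T from ⟨hr.1, hr.2.trans ht.2⟩) _
  set ψ : ℝ → ℝ := fun t => 2 * (1 + A0) * (1 + ‖a‖) * Real.exp (∫ r in s0..t, Λ1 r) with hψ
  have hψc : Continuous ψ := by
    have h1 : Continuous fun t => ∫ r in s0..t, Λ1 r :=
      intervalIntegral.continuous_primitive (fun a b => hΛ1i.intervalIntegrable) s0
    exact continuous_const.mul (Real.continuous_exp.comp h1)
  set E : Set ℝ := {t | ψ t < 1 + ‖u1 t‖} with hE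
  have hEm : NullMeasurableSet E (volume.restrict (Ioc 0 T)) := by
    have h1 : AEMeasurable ψ (volume.restrict (Ioc 0 T)) := hψc.aemeasurable
    have h2 : AEMeasurable (fun t => 1 + ‖u1 t‖) (volume.restrict (Ioc 0 T)) :=
      (S.u1m.aestronglyMeasurable.norm.aemeasurable).const_add 1
    exact nullMeasurableSet_lt h1 h2
  have hsubm : (volume.restrict (Ioc s0 T) : Measure ℝ) ≤ volume.restrict (Ioc 0 T) :=
    Measure.restrict_mono (Ioc_subset_Ioc_left hs0.1.le) le_rfl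
  set E' : Set ℝ := E ∪ Iic s0 with hE'
  have hE'm : NullMeasurableSet E' (volume.restrict (Ioc 0 T)) :=
    hEm.union measurableSet_Iic.nullMeasurableSet
  set χ : ℝ → ℝ := E'.indicator (fun _ => (1 : ℝ)) with hχ
  have hχ0 : ∀ t, 0 ≤ χ t := fun t => indicator_nonneg (fun _ _ => zero_le_one) t
  have hχi : IntegrableOn χ (Ioc 0 T) := by
    have h1 : IntegrableOn (fun _ : ℝ => (1 : ℝ)) (Ioc 0 T) := integrableOn_const (by simp)
    exact h1.indicator₀ hE'm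
  have hχii : IntervalIntegrable χ volume 0 T := by
    rwa [intervalIntegrable_iff_integrableOn_Ioc_of_le hT.le]
  set L : ℝ → ℝ := fun t => Λ1 t + R * χ t with hL
  have hL0 : ∀ t, 0 ≤ L t := fun t => add_nonneg (hΛ10 t) (mul_nonneg hR0 (hχ0 t))
  have hLi : IntervalIntegrable L volume 0 T :=
    hΛ1i.intervalIntegrable.add (hχii.const_mul R)
  -- the form inequality
  obtain ⟨Z, St1⟩ := toSt hF S
  have hweak := St1.deriv_weak Fr hT
  have hres' : ∀ᵐ t ∂(volume.restrict (Ioc 0 T)), t ∈ Ioc s0 T →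
      (Res W k (u t) (z t) (δ t) (α t) (ζ t) ∧
      (∀ p ∈ W, (∀ j, ⟪p.1, (q j).1⟫_ℝ = 0) →
        -⟪m p.1, ζ t⟫_ℝ ≤ (1 - ε) * ν * ‖p.2‖ ^ 2 + Λ t * ‖p.1‖ ^ 2) ∧
      δ t * (2 * (1 + A0) * (1 + ‖a‖) * Real.exp (∫ s in s0..t, Λ s)) ≤ κ ^ 2) := by
    rw [ae_restrict_iff' measurableSet_Ioc] at hres
    exact ae_restrict_of_ae hres
  have hform : ∀ᵐ t ∂(volume.restrict (Ioc 0 T)), ∀ p ∈ W, (∀ j, ⟪p.1, (q j).1⟫_ℝ = 0) →
      -⟪m p.1, z t⟫_ℝ ≤ (1 - ε / 2) * ν * ‖p.2‖ ^ 2 + L t * ‖p.1‖ ^ 2 := by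
    filter_upwards [hweak, hres', ae_restrict_mem measurableSet_Ioc] with t k1 k2 ht p hp hpo
    have htI : t ∈ Icc 0 T := Ioc_subset_Icc_self ht
    by_cases hts : t ∈ E'
    · have e1 : χ t = 1 := indicator_of_mem hts _
      have e2 : R ≤ L t := by
        simp only [hL, e1, mul_one]
        linarith [hΛ10 t]
      have h1 : -⟪m p.1, z t⟫_ℝ ≤ c * (Real.sqrt ‖p.1‖ * Real.sqrt ‖p.2‖ ^ 3) * Nz := by
        have h2 := abs_real_inner_le_norm (m p.1) (z t)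
        have h3 := Un.quart p hp
        have h4 : ‖m p.1‖ * ‖z t‖ ≤ c * (Real.sqrt ‖p.1‖ * Real.sqrt ‖p.2‖ ^ 3) * Nz :=
          mul_le_mul h3 (hNz t htI) (norm_nonneg _) (by positivity)
        linarith [neg_abs_le ⟪m p.1, z t⟫_ℝ]
      have h5 := young4 (c := c) (N := Nz) hν (norm_nonneg p.1) (norm_nonneg p.2)
      have h6 : R * ‖p.1‖ ^ 2 ≤ L t * ‖p.1‖ ^ 2 := by gcongr
      have h7 : 1 / 4 * ν * ‖p.2‖ ^ 2 ≤ (1 - ε / 2) * ν * ‖p.2‖ ^ 2 := by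
        gcongr
        linarith
      linarith
    · have htE : ¬ ψ t < 1 + ‖u1 t‖ := fun h => hts (Or.inl h)
      have hts0 : s0 < t := by
        by_contra h
        exact hts (Or.inr (not_lt.1 h))
      have hts' : t ∈ Ioc s0 T := ⟨hts0, ht.2⟩
      obtain ⟨l1, l2, l3⟩ := k2 hts'
      have hψt : ψ t = 2 * (1 + A0) * (1 + ‖a‖) * Real.exp (∫ s in s0..t, Λ s) := by
        simp only [hψ]
        rw [hΛ1e t ⟨hts0.le, ht.2⟩]
      rw [← hψt] at l3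
      have e1 : L t = Λ t := by
        simp only [hL, hχ, hΛ1]
        rw [indicator_of_notMem hts, indicator_of_mem hts']
        ring
      have hmem := S.mem t htI
      have hbmem : (u t - α t, z t - ζ t) ∈ W := by
        have := W.sub_mem hmem l1.mem
        simpa using this
      have hun := unres Fr Un hν hmem hbmem k1 (hub t htI) (hFb t htI) hk l1.pos hκ0 hκ1 l1.le hκe
        (by
          have h1 : 1 + ‖u1 t‖ ≤ ψ t := not_lt.1 htE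
          exact (mul_le_mul_of_nonneg_left h1 l1.pos.le).trans l3)
      have h1 := l2 p hp hpo
      have h2 : -⟪m p.1, z t - ζ t⟫_ℝ ≤ ε / 2 * ν * ‖p.2‖ ^ 2 := by
        have h3 := Un.tri p hp _ hbmem
        simp only at h3
        have h4 : c * (‖p.2‖ ^ 2 * (Real.sqrt ‖u t - α t‖ * Real.sqrt ‖z t - ζ t‖))
            ≤ ε / 2 * ν * ‖p.2‖ ^ 2 := by
          calc c * (‖p.2‖ ^ 2 * (Real.sqrt ‖u t - α t‖ * Real.sqrt ‖z t - ζ t‖))
              = (c * (Real.sqrt ‖u t - α t‖ * Real.sqrt ‖z t - ζ t‖)) * ‖p.2‖ ^ 2 := by ring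
            _ ≤ _ := by gcongr
        linarith [neg_abs_le ⟪m p.1, z t - ζ t⟫_ℝ]
      have e2 : ⟪m p.1, z t⟫_ℝ = ⟪m p.1, ζ t⟫_ℝ + ⟪m p.1, z t - ζ t⟫_ℝ := by
        rw [inner_sub_right]; ring
      rw [e1, e2]
      have e3 : (1 - ε / 2) * ν * ‖p.2‖ ^ 2 = (1 - ε) * ν * ‖p.2‖ ^ 2 + ε / 2 * ν * ‖p.2‖ ^ 2 := by
        ring
      rw [e3]
      linarith
  have key := hgr' H K W m B C T F F1 u u1 z z1 q L Fr Tr hq ho hT hTT0 hF S hFb hub hF1 hL0 hLi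
    hform s0 hs0 a ha
  -- the integral of `L`
  have hLe : ∀ t ∈ Icc s0 T, ∫ r in s0..t, L r = (∫ r in s0..t, Λ1 r)
      + R * ∫ r in s0..t, E.indicator (fun _ => (1 : ℝ)) r := by
    intro t ht
    have i1 : IntervalIntegrable χ volume s0 t := by
      rw [intervalIntegrable_iff_integrableOn_Ioc_of_le ht.1]
      exact hχi.mono_set (Ioc_subset_Ioc hs0.1.le ht.2)
    have e1 : ∫ r in s0..t, L r = (∫ r in s0..t, Λ1 r) + ∫ r in s0..t, R * χ r :=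
      intervalIntegral.integral_add hΛ1i.intervalIntegrable (i1.const_mul R)
    rw [e1, intervalIntegral.integral_const_mul]
    congr 2
    refine intervalIntegral.integral_congr_ae (Eventually.of_forall fun r hr => ?_)
    rw [uIoc_of_le ht.1] at hr
    simp only [hχ]
    by_cases hrE : r ∈ E
    · rw [indicator_of_mem (show r ∈ E' from Or.inl hrE), indicator_of_mem hrE]
    · rw [indicator_of_notMem hrE, indicator_of_notMem (fun h => h.elim hrE fun h2 =>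
        absurd hr.1 (not_lt.2 h2))]
  have hη : 0 < Real.log 2 / (R + 1) := div_pos (Real.log_pos (by norm_num)) (by positivity)
  have hstay := stay_zero hs0.2.le hη (NullMeasurableSet.mono hEm hsubm) (E := E) (by
    filter_upwards [key, ae_restrict_mem measurableSet_Ioc] with t kt ht hle
    have htI : t ∈ Icc s0 T := Ioc_subset_Icc_self ht
    rw [hLe t htI, Real.exp_add] at kt
    have h1 : R * ∫ r in s0..t, E.indicator (fun _ => (1 : ℝ)) r ≤ Real.log 2 := by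
      calc R * ∫ r in s0..t, E.indicator (fun _ => (1 : ℝ)) r
          ≤ R * (Real.log 2 / (R + 1)) := mul_le_mul_of_nonneg_left hle hR0
        _ ≤ (R + 1) * (Real.log 2 / (R + 1)) := by
            gcongr
            linarith
        _ = Real.log 2 := by field_simp
    have h2 : Real.exp (R * ∫ r in s0..t, E.indicator (fun _ => (1 : ℝ)) r) ≤ 2 := by
      calc _ ≤ Real.exp (Real.log 2) := Real.exp_le_exp.2 h1
        _ = 2 := Real.exp_log (by norm_num)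
    have h3 : 1 ≤ Real.exp (∫ r in s0..t, Λ1 r) :=
      Real.one_le_exp (intervalIntegral.integral_nonneg ht.1.le fun r _ => hΛ10 r)
    have h4 : 0 ≤ ‖a‖ := norm_nonneg _
    show ¬ ψ t < 1 + ‖u1 t‖
    rw [not_lt]
    have h5 : A0 * (1 + ‖a‖) * (Real.exp (∫ r in s0..t, Λ1 r)
        * Real.exp (R * ∫ r in s0..t, E.indicator (fun _ => (1 : ℝ)) r))
        ≤ A0 * (1 + ‖a‖) * (Real.exp (∫ r in s0..t, Λ1 r) * 2) := by gcongr
    have h6 : 1 ≤ (1 + ‖a‖) * Real.exp (∫ r in s0..t, Λ1 r) := by nlinarith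
    simp only [hψ]
    nlinarith)
  filter_upwards [hstay, ae_restrict_mem measurableSet_Ioc] with t h1 ht
  have h2 : 1 + ‖u1 t‖ ≤ ψ t := not_lt.1 h1
  have h3 : ψ t = 2 * (1 + A0) * (1 + ‖a‖) * Real.exp (∫ s in s0..t, Λ s) := by
    simp only [hψ]
    rw [hΛ1e t (Ioc_subset_Icc_self ht)]
  rw [← h3]
  linarith

end Pool.Agent.Q62.DN
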