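import Pool.Agent.Q62.DN.One

/-!
The singularity and the resolved velocity: conclusion in the abstract frame.
-/

set_option autoImplicit false

open MeasureTheory Set Filter Topology
open scoped InnerProductSpace

namespace Pool.Agent.Q62.DN

open H772R2.NSR (Frame prim_cont)
open Pool.Agent.W795.TQ
open Pool.Agent.W795.ES (Tri Smo S_gr increment limit_state int_sq)

theorem one_abs (hgr : S_gr) (hit : S_iter) (hode : S_ode) (htp : S_dtp) (he1 : S_est1)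
    (he2 : S_est2) (hloc : S_loc) (huni : S_uni) : ∀ c : ℝ, 0 < c →
    ∀ (H K : Type) [NormedAddCommGroup H] [InnerProductSpace ℝ H] [CompleteSpace H]
      [NormedAddCommGroup K] [InnerProductSpace ℝ K] [CompleteSpace K]
      (W : Submodule ℝ (H × K)) (m : H → K) (C ν T : ℝ) (F F1 : ℝ → K) (x0 g0 : H) (z0 : K)
      (v : ℝ → H) (y : ℝ → K), Frame W m C → Univ W m c →
      (∀ R : ℝ, TotallyBounded {v : H | ∃ z, (v, z) ∈ W ∧ ‖z‖ ≤ R}) →
      0 < ν → 0 < T → FH T F F1 → (x0, z0) ∈ W →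
      (∀ p ∈ W, ⟪F 0 - ν • z0 + m x0, p.2⟫_ℝ = ⟪g0, p.1⟫_ℝ) →
      H772R2.NSG.LH W m T (fun _ => ν) F x0 v y →
      (∃ (u u1 : ℝ → H) (z z1 : ℝ → K), Str W m ν T F u u1 z z1 ∧ ∀ t ∈ Icc 0 T, v t = u t) ∨
      ∃ τ ∈ Ioc 0 T, (∀ t ∈ Ioo 0 τ, ∃ (u u1 : ℝ → H) (z z1 : ℝ → K), Str W m ν t F u u1 z z1 ∧
          ∀ s ∈ Icc 0 t, v s = u s) ∧
        ∀ (N : ℕ) (B : H → H → K) (cq : ℝ) (q : Fin N → H × K) (ε k : ℝ), Tri W m B → 0 ≤ cq →
          (∀ j, Smo W B cq (q j)) → Orthonormal ℝ (fun j => (q j).1) → 0 < ε → ε ≤ 1 → 0 ≤ k →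
          ∀ s ∈ Ioo 0 τ, ∀ a : H, HasDerivAt v a s → ∃ Mc : ℝ, 0 < Mc ∧
            ∀ (Λ δ : ℝ → ℝ) (α : ℝ → H) (ζ : ℝ → K), (∀ t, 0 ≤ Λ t) → IntegrableOn Λ (Ioo s τ) →
            (∀ᵐ t ∂(volume.restrict (Ioo s τ)), Res W k (v t) (y t) (δ t) (α t) (ζ t) ∧
              ∀ p ∈ W, (∀ j, ⟪p.1, (q j).1⟫_ℝ = 0) →
                -⟪m p.1, ζ t⟫_ℝ ≤ (1 - ε) * ν * ‖p.2‖ ^ 2 + Λ t * ‖p.1‖ ^ 2) →
            ¬ ∀ᵐ t ∂(volume.restrict (Ioo s τ)), δ t * (Mc * Real.exp (∫ r in s..t, Λ r)) ≤ 1 := by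
  intro c hc
  obtain ⟨k0, hk0, hcrit⟩ := dcrit hit hode htp he1 he2 hloc huni c hc
  intro H K _ _ _ _ _ _ W m C ν T F F1 x0 g0 z0 v y Fr Un hcomp hν hT hF h0 hg L
  rcases hcrit H K W m C ν T F F1 x0 g0 z0 v y Fr Un hcomp hν hT hF h0 hg L with hl | hr
  · exact Or.inl hl
  refine Or.inr ?_
  obtain ⟨τ, hτ, hst, hU⟩ := hr
  refine ⟨τ, hτ, hst, ?_⟩
  intro N B cq q ε k hB hcq hq hqo hε hε1 hk s hs a ha
  have hFc : ContinuousOn F (Icc 0 T) := prim_cont hF.memLp hF.prim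
  obtain ⟨Φ, hΦ0, hΦ⟩ : ∃ Φ : ℝ, 0 ≤ Φ ∧ ∀ t ∈ Icc 0 T, ‖F t‖ ≤ Φ := by
    obtain ⟨B, hB⟩ := (isCompact_Icc.image_of_continuousOn hFc).isBounded.exists_norm_le
    exact ⟨max B 0, le_max_right _ _, fun t ht => (hB _ ⟨t, ht, rfl⟩).trans (le_max_left _ _)⟩
  obtain ⟨M0, hM0⟩ := L.bdd hν.le ⟨memLp_const _, Eventually.of_forall fun _ => le_rfl,
    H772R2.NSG.mem_cont hFc⟩
  have hF1i : IntegrableOn (fun s => ‖F1 s‖ ^ 2) (Ioc 0 T) :=
    (memLp_two_iff_integrable_sq_norm hF.memLp.aestronglyMeasurable).mp hF.memLp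
  set G : ℝ := ∫ s in (0 : ℝ)..T, ‖F1 s‖ ^ 2 with hG
  have hG0 : 0 ≤ G := intervalIntegral.integral_nonneg hT.le fun s _ => by positivity
  obtain ⟨A, κ0, hA, hκ0, hgr'⟩ := grow_res hgr (N := N) (ν := ν) (ε := ε) (cq := cq)
    (M := max M0 0) (Φ := Φ) (T0 := τ) (G := G) (c := c) (k := k) hν hε hε1 hcq (le_max_right _ _)
    hΦ0 hτ.1 hG0 hc hk
  have hν52 : 0 < ν ^ (5 / 2 : ℝ) := Real.rpow_pos_of_pos hν _
  set κ : ℝ := Real.sqrt (k0 * ν ^ (5 / 2 : ℝ) / 11) with hκ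
  have hκp : 0 < κ := Real.sqrt_pos.2 (by positivity)
  have hκ2 : 11 * κ ^ 2 = k0 * ν ^ (5 / 2 : ℝ) := by
    rw [hκ, Real.sq_sqrt (by positivity)]; ring
  set A' : ℝ := A * (1 + ‖a‖) with hA'
  have hA'0 : 0 < A' := by positivity
  refine ⟨A' / κ0, by positivity, ?_⟩
  intro Λ δ α ζ hΛ0 hΛi hres hcon
  -- the uniform bound
  set I : ℝ := ∫ r in Ioo s τ, Λ r with hI
  set Bd : ℝ := A' * Real.exp I with hBd
  have hBd0 : 0 < Bd := by positivity
  have hIle : ∀ t, s ≤ t → t < τ → ∫ r in s..t, Λ r ≤ I := by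
    intro t h1 h2
    rw [intervalIntegral.integral_of_le h1, hI]
    have hsub : Ioc s t ⊆ Ioo s τ := fun r hr => ⟨hr.1, hr.2.trans_lt h2⟩
    exact setIntegral_mono_set hΛi (Eventually.of_forall hΛ0) hsub.eventuallyLE
  -- the rate
  set d : ℝ := min (min 1 (τ - s)) ((κ / Bd) ^ 2) with hd
  have hd0 : 0 < d := lt_min (lt_min one_pos (by linarith [hs.2])) (by positivity)
  have hd1 : d ≤ 1 := (min_le_left _ _).trans (min_le_left _ _)
  have hd2 : d ≤ τ - s := (min_le_left _ _).trans (min_le_right _ _)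
  have hd3 : d ≤ (κ / Bd) ^ 2 := min_le_right _ _
  set s' := τ - d with hs'
  have hs'τ : s' < τ := by simp only [hs']; linarith
  have hss' : s ≤ s' := by simp only [hs']; linarith
  have hs'0 : 0 < s' := hs.1.trans_le hss'
  have hrate : ∀ t, s' < t → t < τ → Bd ≤ κ * (τ - t) ^ (-(3 / 4) : ℝ) := by
    intro t h1 h2
    have hp : 0 < τ - t := by linarith
    have hpd : τ - t ≤ d := by simp only [hs'] at h1; linarith
    have e1 : (τ - t) ^ (3 / 4 : ℝ) ≤ (τ - t) ^ (1 / 2 : ℝ) :=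
      Real.rpow_le_rpow_of_exponent_ge hp (hpd.trans hd1) (by norm_num)
    have e2 : (τ - t) ^ (1 / 2 : ℝ) ≤ κ / Bd := by
      rw [← Real.sqrt_eq_rpow]
      exact Real.sqrt_le_iff.2 ⟨by positivity, hpd.trans hd3⟩
    have e3 : (τ - t) ^ (3 / 4 : ℝ) ≤ κ / Bd := e1.trans e2
    have e4 : 0 < (τ - t) ^ (3 / 4 : ℝ) := Real.rpow_pos_of_pos hp _
    rw [Real.rpow_neg hp.le, ← div_eq_mul_inv, le_div_iff₀ e4]
    rw [le_div_iff₀ hBd0] at e3
    linarith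
  -- increments
  have hinc : ∀ a b, s' < a → a ≤ b → b < τ →
      ‖v b - v a‖ ≤ 4 * κ * ((τ - a) ^ (1 / 4 : ℝ) - (τ - b) ^ (1 / 4 : ℝ)) := by
    intro a1 b ha1 hab hb
    set T' := (b + τ) / 2 with hT'
    have hbT' : b < T' := by simp only [hT']; linarith
    have hT'τ : T' < τ := by simp only [hT']; linarith
    have ha10 : 0 < a1 := by linarith
    have hT'0 : 0 < T' := by linarith
    obtain ⟨u, u1, z, z1, hS, hvu⟩ := hst T' ⟨hT'0, hT'τ⟩
    have hT'T : T' ≤ T := hT'τ.le.trans hτ.2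
    have hu0 : u 0 = x0 := by
      rw [← hvu 0 ⟨le_rfl, hT'0.le⟩]; exact L.init
    obtain ⟨_, hyz⟩ := huni H K W m C ν T T' F x0 v u u1 y z z1 Fr hν hT'0 hT'T hFc L hS hu0
    have hFH : FH T' F F1 :=
      ⟨hF.memLp.mono_measure (Measure.restrict_mono (Ioc_subset_Ioc_right hT'T) le_rfl),
        fun a b ha hab hb => hF.prim a b ha hab (hb.trans hT'T)⟩
    have hsT' : s < T' := by linarith
    have hder : HasDerivAt u a s := by
      refine ha.congr_of_eventuallyEq ?_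
      filter_upwards [Ioo_mem_nhds hs.1 hsT'] with r hr
      exact (hvu r ⟨hr.1.le, hr.2.le⟩).symm
    have hsub : Ioc s T' ⊆ Ioo s τ := fun r hr => ⟨hr.1, hr.2.trans_lt hT'τ⟩
    have hres' : ∀ᵐ t ∂(volume.restrict (Ioc s T')),
        Res W k (u t) (z t) (δ t) (α t) (ζ t) ∧
        (∀ p ∈ W, (∀ j, ⟪p.1, (q j).1⟫_ℝ = 0) →
          -⟪m p.1, ζ t⟫_ℝ ≤ (1 - ε) * ν * ‖p.2‖ ^ 2 + Λ t * ‖p.1‖ ^ 2) ∧
        δ t * (A * (1 + ‖a‖) * Real.exp (∫ s in s..t, Λ s)) ≤ κ0 := by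
      have h1 := ae_mono (Measure.restrict_mono hsub le_rfl) hres
      have h2 := ae_mono (Measure.restrict_mono hsub le_rfl) hcon
      have h3 := ae_mono (Measure.restrict_mono (Ioc_subset_Ioc_left hs.1.le) le_rfl) hyz
      filter_upwards [h1, h2, h3, ae_restrict_mem measurableSet_Ioc] with t l1 l2 l3 ht
      rw [← hvu t ⟨(hs.1.trans ht.1).le, ht.2⟩, ← l3]
      refine ⟨l1.1, l1.2, ?_⟩
      have e : δ t * (A' / κ0 * Real.exp (∫ r in s..t, Λ r))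
          = δ t * (A' * Real.exp (∫ r in s..t, Λ r)) / κ0 := by ring
      rw [e, div_le_one hκ0] at l2
      exact l2
    have key := hgr' H K W m B C T' F F1 u u1 z z1 q Λ δ α ζ Fr Un hB hq hqo hT'0 hT'τ.le hFH hS
      (fun t ht => hΦ t ⟨ht.1, ht.2.trans hT'T⟩)
      (fun t ht => by
        rw [← hvu t ht]
        exact (hM0 t ⟨ht.1, ht.2.trans hT'T⟩).trans (le_max_left _ _))
      (by
        rw [hG, intervalIntegral.integral_of_le hT'0.le, intervalIntegral.integral_of_le hT.le]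
        exact setIntegral_mono_set hF1i (Eventually.of_forall fun s => by positivity)
          (Ioc_subset_Ioc_right hT'T).eventuallyLE)
      hΛ0 s ⟨hs.1, hsT'⟩ (hΛi.mono_set hsub) a hder hres'
    have hpu := hS.pu a1 b ha10.le hab hbT'.le
    rw [hvu b ⟨by linarith, hbT'.le⟩, hvu a1 ⟨ha10.le, by linarith⟩]
    refine increment hab hb hpu ?_
    have h1 := ae_mono (Measure.restrict_mono (Ioc_subset_Ioc (hss'.trans ha1.le) hbT'.le)
      le_rfl) key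
    filter_upwards [h1, ae_restrict_mem measurableSet_Ioc] with t h2 h3
    refine h2.trans ?_
    have h4 : t < τ := by linarith [h3.2]
    refine le_trans ?_ (hrate t (ha1.trans h3.1) h4)
    have h5 := hIle t (by linarith [h3.1]) h4
    simp only [hBd]
    gcongr
  obtain ⟨U, hUb⟩ := limit_state hs'τ hκp.le hinc
  -- continuity of v
  have hvc : ContinuousOn v (Ioo s' τ) := by
    intro t ht
    set T' := (t + τ) / 2 with hT'
    have hbT' : t < T' := by simp only [hT']; linarith [ht.2]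
    have hT'τ : T' < τ := by simp only [hT']; linarith [ht.2]
    have ht0' : 0 < t := by linarith [ht.1]
    obtain ⟨u, u1, z, z1, hS, hvu⟩ := hst T' ⟨by linarith, hT'τ⟩
    have huc : ContinuousOn u (Icc 0 T') := prim_cont hS.u1m hS.pu
    have h1 : ContinuousAt u t := huc.continuousAt (Icc_mem_nhds ht0' hbT')
    have h2 : ContinuousAt v t := by
      refine h1.congr ?_
      filter_upwards [Icc_mem_nhds ht0' hbT'] with r hr
      exact (hvu r hr).symm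
    exact h2.continuousWithinAt
  obtain ⟨h, hh0, hh1, hh2⟩ := hU U (τ - s') (by linarith) (by linarith)
  have h3 := int_sq hκp.le hvc hUb hh0 hh1
  rw [hκ2] at h3
  linarith

end Pool.Agent.Q62.DN
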