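import Pool.Agent.Q62.DN.OneAbs
import Pool.Agent.W795.ES.Pub

/-!
The singularity and the resolved velocity, in a domain.
-/

set_option autoImplicit false

open MeasureTheory Set Filter Topology
open scoped InnerProductSpace ENNReal ContDiff

namespace Pool.Agent.Q62.DN

open H772R2.NS H772R2.NS.Pub H772R2.NSR H772R2.NSG
open Pool.Agent.W795.TQ
open Pool.Agent.W795.ES (S_conc S_gr Tri Smo exists_basis stretch stretch_eq)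

/-- the conclusion of `one_mid` at the time `τ` -/
def Concl (Ω : Set E3) (c ν : ℝ) (u : ℝ → L2V Ω) (z : ℝ → L2M Ω) (τ : ℝ) : Prop :=
  (∀ (n : ℕ) (ψ : Fin n → E3 → E3), (∀ j, H772R2.NS.IsTest Ω (ψ j)) → ∀ ε k : ℝ, 0 < ε → 0 ≤ k →
    ∀ s ∈ Ico 0 τ, ∃ M : ℝ, ∀ (δ Λ : ℝ → ℝ) (α : ℝ → L2V Ω) (ζ : ℝ → L2M Ω),
      (∀ᵐ t ∂(volume.restrict (Ioo s τ)), Res (graphW Ω) k (u t) (z t) (δ t) (α t) (ζ t)) →
      (∀ t, 0 ≤ Λ t) → IntegrableOn Λ (Ioo s τ) →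
      (∀ᵐ t ∂(volume.restrict (Ioo s τ)), ∀ p ∈ graphW Ω,
        (∀ j, (∫ x in (show Set R3 from Ω),
          ⟪L2.fn (Ω := Ω) (E := R3) p.1 x, (ψ j : R3 → R3) x⟫_ℝ) = 0) →
        -stretch (Ω := (show Set R3 from Ω)) (ζ t) p.1
          ≤ (1 - ε) * ν * ‖p.2‖ ^ 2 + Λ t * ‖p.1‖ ^ 2) →
      ¬ ∀ᵐ t ∂(volume.restrict (Ioo s τ)), M + ∫ r in s..t, Λ r ≤ Real.log (1 / δ t)) ∧
  ∀ k : ℝ, 0 ≤ k → ∀ s ∈ Ico 0 τ, ∃ M : ℝ, ∀ δ : ℝ, 0 < δ →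
    ∀ (α : ℝ → L2V Ω) (ζ : ℝ → L2M Ω) (β : ℝ → ℝ),
      (∀ᵐ t ∂(volume.restrict (Ioo s τ)), Res (graphW Ω) k (u t) (z t) δ (α t) (ζ t)) →
      IntegrableOn β (Ioo s τ) → (∀ᵐ t ∂(volume.restrict (Ioo s τ)), ‖ζ t‖ ^ 4 ≤ β t) →
      4 / (27 * c ^ 4) * ν ^ 3 * (Real.log (1 / δ) - M) ≤ ∫ t in s..τ, β t

theorem second_of_first {Ω : Set E3} (hΩ : MeasurableSet Ω) {c ν : ℝ} (hc : 0 < c) (hν : 0 < ν)
    (U : Univ (graphW Ω) (tensL (Ω := Ω)) c) {u : ℝ → L2V Ω} {z : ℝ → L2M Ω} {τ : ℝ}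
    (h : ∀ (n : ℕ) (ψ : Fin n → E3 → E3), (∀ j, H772R2.NS.IsTest Ω (ψ j)) → ∀ ε k : ℝ, 0 < ε →
      0 ≤ k → ∀ s ∈ Ico 0 τ, ∃ M : ℝ, ∀ (δ Λ : ℝ → ℝ) (α : ℝ → L2V Ω) (ζ : ℝ → L2M Ω),
      (∀ᵐ t ∂(volume.restrict (Ioo s τ)), Res (graphW Ω) k (u t) (z t) (δ t) (α t) (ζ t)) →
      (∀ t, 0 ≤ Λ t) → IntegrableOn Λ (Ioo s τ) →
      (∀ᵐ t ∂(volume.restrict (Ioo s τ)), ∀ p ∈ graphW Ω,
        (∀ j, (∫ x in (show Set R3 from Ω),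
          ⟪L2.fn (Ω := Ω) (E := R3) p.1 x, (ψ j : R3 → R3) x⟫_ℝ) = 0) →
        -stretch (Ω := (show Set R3 from Ω)) (ζ t) p.1
          ≤ (1 - ε) * ν * ‖p.2‖ ^ 2 + Λ t * ‖p.1‖ ^ 2) →
      ¬ ∀ᵐ t ∂(volume.restrict (Ioo s τ)), M + ∫ r in s..t, Λ r ≤ Real.log (1 / δ t)) :
    ∀ k : ℝ, 0 ≤ k → ∀ s ∈ Ico 0 τ, ∃ M : ℝ, ∀ δ : ℝ, 0 < δ →
      ∀ (α : ℝ → L2V Ω) (ζ : ℝ → L2M Ω) (β : ℝ → ℝ),
      (∀ᵐ t ∂(volume.restrict (Ioo s τ)), Res (graphW Ω) k (u t) (z t) δ (α t) (ζ t)) →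
      IntegrableOn β (Ioo s τ) → (∀ᵐ t ∂(volume.restrict (Ioo s τ)), ‖ζ t‖ ^ 4 ≤ β t) →
      4 / (27 * c ^ 4) * ν ^ 3 * (Real.log (1 / δ) - M) ≤ ∫ t in s..τ, β t := by
  intro k hk s hs
  obtain ⟨M, hM⟩ := h 0 Fin.elim0 (fun j => j.elim0) (3 / 4) k (by norm_num) hk s hs
  refine ⟨M, fun δ hδ α ζ β hres hβ hb => ?_⟩
  by_contra hcon
  rw [not_le] at hcon
  set D : ℝ := 27 / 4 * c ^ 4 / ν ^ 3 with hD
  have hD0 : 0 < D := by positivity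
  set Λ : ℝ → ℝ := fun t => D * |β t| with hΛ
  have hΛi : IntegrableOn Λ (Ioo s τ) := (hβ.abs).const_mul D
  have hbe : ∀ᵐ t ∂(volume.restrict (Ioo s τ)), |β t| = β t := by
    filter_upwards [hb] with t ht
    exact abs_of_nonneg (le_trans (by positivity) ht)
  refine hM (fun _ => δ) Λ α ζ hres (fun t => by positivity) hΛi ?_ ?_
  · filter_upwards [hb] with t ht p hp _
    rw [stretch_eq hΩ (ζ t) hp]
    have h1 : -⟪tensL p.1, ζ t⟫_ℝ ≤ c * (Real.sqrt ‖p.1‖ * Real.sqrt ‖p.2‖ ^ 3) * ‖ζ t‖ := by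
      have h2 := abs_real_inner_le_norm (tensL p.1) (ζ t)
      have h3 := U.quart p hp
      have h4 : ‖tensL p.1‖ * ‖ζ t‖ ≤ c * (Real.sqrt ‖p.1‖ * Real.sqrt ‖p.2‖ ^ 3) * ‖ζ t‖ :=
        mul_le_mul_of_nonneg_right h3 (norm_nonneg _)
      linarith [neg_abs_le ⟪tensL p.1, ζ t⟫_ℝ]
    have h5 := young4 (c := c) (N := ‖ζ t‖) hν (norm_nonneg p.1) (norm_nonneg p.2)
    have h6 : 27 / 4 * c ^ 4 / ν ^ 3 * ‖ζ t‖ ^ 4 * ‖p.1‖ ^ 2 ≤ Λ t * ‖p.1‖ ^ 2 := by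
      simp only [hΛ, hD]
      have : ‖ζ t‖ ^ 4 ≤ |β t| := ht.trans (le_abs_self _)
      gcongr
    have h7 : (1 - 3 / 4 : ℝ) * ν * ‖p.2‖ ^ 2 = 1 / 4 * ν * ‖p.2‖ ^ 2 := by ring
    rw [h7]
    linarith
  · filter_upwards [ae_restrict_mem measurableSet_Ioo] with t ht
    have hsub : Ioc s t ⊆ Ioo s τ := fun r hr => ⟨hr.1, hr.2.trans_lt ht.2⟩
    have h1 : ∫ r in s..t, Λ r ≤ ∫ r in Ioo s τ, Λ r := by
      rw [intervalIntegral.integral_of_le ht.1.le]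
      exact setIntegral_mono_set hΛi (Eventually.of_forall fun r => by positivity)
        hsub.eventuallyLE
    have h2 : ∫ r in Ioo s τ, Λ r = D * ∫ r in s..τ, β r := by
      simp only [hΛ]
      rw [integral_const_mul, intervalIntegral.integral_of_le hs.2.le, integral_Ioc_eq_integral_Ioo]
      congr 1
      exact integral_congr_ae hbe
    have h3 : D * (∫ r in s..τ, β r) ≤ D * (4 / (27 * c ^ 4) * ν ^ 3 * (Real.log (1 / δ) - M)) :=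
      mul_le_mul_of_nonneg_left hcon.le hD0.le
    have h4 : D * (4 / (27 * c ^ 4) * ν ^ 3 * (Real.log (1 / δ) - M)) = Real.log (1 / δ) - M := by
      rw [hD]
      field_simp
      try ring
    linarith

theorem one_mid (hconc : S_conc) (hgr : S_gr) (hit : S_iter) (hode : S_ode) (htp : S_dtp)
    (he1 : S_est1) (he2 : S_est2) (hloc : S_loc) (huni : S_uni) (hun : S_univ) :
    ∃ c : ℝ, 0 < c ∧
    ∀ (Ω : Set E3), IsOpen Ω → Bornology.IsBounded Ω → ∀ (ν T : ℝ), 0 < ν → 0 < T →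
    ∀ (F F' : ℝ → L2M Ω), MemLp F' 2 (volume.restrict (Ioc 0 T)) →
    (∀ a b, 0 ≤ a → a ≤ b → b ≤ T → F b - F a = ∫ s in a..b, F' s) →
    ∀ (u : ℝ → L2V Ω) (z : ℝ → L2M Ω), AEStronglyMeasurable u (volume.restrict (Ioc 0 T)) →
    (∀ᵐ t ∂(volume.restrict (Ioc 0 T)), (u t, z t) ∈ graphW Ω) →
    MemLp z 2 (volume.restrict (Ioc 0 T)) →
    (∀ φ : E3 → E3, H772R2.NS.IsTest Ω φ → ∀ t ∈ Icc 0 T,
      (∫ x in (show Set R3 from Ω), ⟪L2.fn (Ω := Ω) (E := R3) (u t) x, (φ : R3 → R3) x⟫_ℝ)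
        - (∫ x in (show Set R3 from Ω), ⟪L2.fn (Ω := Ω) (E := R3) (u 0) x, (φ : R3 → R3) x⟫_ℝ)
      = ∫ s in (0 : ℝ)..t, Pub.rhs (Ω := Ω) ν (u s) (z s) (F s) φ) →
    (∀ t ∈ Icc 0 T, ‖u t‖ ^ 2 / 2 + ν * (∫ s in (0 : ℝ)..t, ‖z s‖ ^ 2)
      ≤ ‖u 0‖ ^ 2 / 2 + ∫ s in (0 : ℝ)..t, ⟪F s, z s⟫_ℝ) →
    ∀ z0 : L2M Ω, (u 0, z0) ∈ graphW Ω →
    (∃ h : L2V Ω, ∀ φ : E3 → E3, H772R2.NS.IsTest Ω φ →
      Pub.rhs (Ω := Ω) ν (u 0) z0 (F 0) φ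
        = ∫ x in (show Set R3 from Ω), ⟪L2.fn (Ω := Ω) (E := R3) h x, (φ : R3 → R3) x⟫_ℝ) →
    (∃ u' G1 G', IsStrong (show Set R3 from Ω) ν T F u u' G1 G') ∨
    ∃ τ ∈ Ioc 0 T, (∀ t ∈ Ioo 0 τ, ∃ u' G1 G', IsStrong (show Set R3 from Ω) ν t F u u' G1 G') ∧
      Concl Ω c ν u z τ := by
  obtain ⟨c, hc, hU⟩ := hun
  refine ⟨c, hc, ?_⟩
  intro Ω hΩ hb ν T hν hT F F' hF1 hF u z hmeas hmem hz2 heqn hen z0 h0 hg
  obtain ⟨B, hB, hsmo⟩ := hconc Ω hΩ hb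
  obtain ⟨C, Fr⟩ := exists_frame hΩ hb
  obtain ⟨g0, hg0⟩ := hg
  have hm : MeasurableSet Ω := hΩ.measurableSet
  have hcomp : ∀ p ∈ graphW Ω, ⟪F 0 - ν • z0 + tensL (u 0), p.2⟫_ℝ = ⟪g0, p.1⟫_ℝ := by
    refine compat_ext ?_
    rintro p ⟨φ, k1, k2, k3⟩
    rw [← pub_rhs hm ν (F 0) h0 k3, ← pub_inner (Ω := Ω) g0 k2]
    exact hg0 φ k1
  have hFc : ContinuousOn F (Icc 0 T) := prim_cont hF1 hF
  have hLH := lh_mid hΩ hFc Fr hmeas hmem hz2 heqn hen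
  rcases one_abs hgr hit hode htp he1 he2 hloc huni c hc (L2V Ω) (L2M Ω) (graphW Ω) tensL C ν T
    F F' (u 0) g0 z0 u z Fr (hU _ hΩ) (rellich_W hΩ hb) hν hT ⟨hF1, hF⟩ h0 hcomp hLH with
    ⟨w, w1, y, y1, k1, k2⟩ | ⟨τ, hτ, k1, k2⟩
  · exact Or.inl ⟨w1, y, y1, strong_of_str hΩ hT k1 k2⟩
  refine Or.inr ⟨τ, hτ, fun t ht => ?_, ?_⟩
  · obtain ⟨w, w1, y, y1, k3, k4⟩ := k1 t ht
    exact ⟨w1, y, y1, strong_of_str hΩ ht.1 k3 k4⟩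
  suffices hfirst : ∀ (n : ℕ) (ψ : Fin n → E3 → E3), (∀ j, H772R2.NS.IsTest Ω (ψ j)) →
      ∀ ε k : ℝ, 0 < ε →
      0 ≤ k → ∀ s ∈ Ico 0 τ, ∃ M : ℝ, ∀ (δ Λ : ℝ → ℝ) (α : ℝ → L2V Ω) (ζ : ℝ → L2M Ω),
      (∀ᵐ t ∂(volume.restrict (Ioo s τ)), Res (graphW Ω) k (u t) (z t) (δ t) (α t) (ζ t)) →
      (∀ t, 0 ≤ Λ t) → IntegrableOn Λ (Ioo s τ) →
      (∀ᵐ t ∂(volume.restrict (Ioo s τ)), ∀ p ∈ graphW Ω,
        (∀ j, (∫ x in (show Set R3 from Ω),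
          ⟪L2.fn (Ω := Ω) (E := R3) p.1 x, (ψ j : R3 → R3) x⟫_ℝ) = 0) →
        -stretch (Ω := (show Set R3 from Ω)) (ζ t) p.1
          ≤ (1 - ε) * ν * ‖p.2‖ ^ 2 + Λ t * ‖p.1‖ ^ 2) →
      ¬ ∀ᵐ t ∂(volume.restrict (Ioo s τ)), M + ∫ r in s..t, Λ r ≤ Real.log (1 / δ t) from
    ⟨hfirst, second_of_first hm hc hν (hU _ hΩ) hfirst⟩
  intro n ψ hψ ε k hε hk s hs
  obtain ⟨N, cq, q, hcq, hq, hqo, hqv⟩ := exists_basis hsmo n ψ hψ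
  -- a time at which `u` is differentiable
  obtain ⟨r, hr, a, ha⟩ : ∃ r ∈ Ioo s τ, ∃ a, HasDerivAt u a r := by
    have hT'0 : 0 < (s + τ) / 2 := by linarith [hs.1, hτ.1]
    have hT'τ : (s + τ) / 2 < τ := by linarith [hs.2]
    obtain ⟨w, w1, y, y1, k3, k4⟩ := k1 ((s + τ) / 2) ⟨hT'0, hT'τ⟩
    have hd := ae_deriv_of_prim hT'0 (memLp_ii hT'0.le k3.u1m) k3.pu
    have hpos : volume (Ioo s ((s + τ) / 2)) ≠ 0 := by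
      rw [Real.volume_Ioo]
      simp only [ne_eq, ENNReal.ofReal_eq_zero, not_le]
      linarith [hs.2]
    have hss : Ioo s ((s + τ) / 2) ⊆ Ioc 0 ((s + τ) / 2) :=
      fun x hx => ⟨hs.1.trans_lt hx.1, hx.2.le⟩
    have hsub : (volume.restrict (Ioo s ((s + τ) / 2)) : Measure ℝ)
        ≤ volume.restrict (Ioc 0 ((s + τ) / 2)) := Measure.restrict_mono hss le_rfl
    have h1 : ∀ᵐ x ∂(volume.restrict (Ioo s ((s + τ) / 2))), HasDerivAt w (w1 x) x :=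
      ae_mono hsub hd
    rw [ae_restrict_iff' measurableSet_Ioo] at h1
    have h2 : ∃ x ∈ Ioo s ((s + τ) / 2), HasDerivAt w (w1 x) x := by
      by_contra hcon
      push Not at hcon
      refine hpos (measure_mono_null (t := {x | ¬ (x ∈ Ioo s ((s + τ) / 2) →
        HasDerivAt w (w1 x) x)}) ?_ h1)
      intro x hx
      simp only [mem_ofPred_eq, not_forall]
      exact ⟨hx, hcon x hx⟩
    obtain ⟨x, hx, hdx⟩ := h2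
    refine ⟨x, ⟨hx.1, hx.2.trans hT'τ⟩, w1 x, hdx.congr_of_eventuallyEq ?_⟩
    filter_upwards [Ioo_mem_nhds (hs.1.trans_lt hx.1) hx.2] with x' hx'
    exact k4 x' ⟨hx'.1.le, hx'.2.le⟩
  obtain ⟨Mc, hMc0, hMc⟩ := k2 N B cq q (min ε 1) k hB hcq hq hqo (lt_min hε one_pos)
    (min_le_right _ _) hk r ⟨hs.1.trans_lt hr.1, hr.2⟩ a ha
  refine ⟨Real.log Mc, ?_⟩
  intro δ Λ α ζ hres hΛ0 hΛi hform hcon
  have hsub : Ioo r τ ⊆ Ioo s τ := Ioo_subset_Ioo_left hr.1.le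
  refine hMc Λ δ α ζ hΛ0 (hΛi.mono_set hsub) ?_ ?_
  · have h1 := ae_mono (Measure.restrict_mono hsub le_rfl) hres
    have h2 := ae_mono (Measure.restrict_mono hsub le_rfl) hform
    filter_upwards [h1, h2] with t l1 l2
    refine ⟨l1, fun p hp hpq => ?_⟩
    have h1 := l2 p hp (fun j => by
      obtain ⟨w, hw, hw1, _⟩ := exists_pair (Ω := Ω) (hψ j)
      rw [pub_inner (Ω := Ω) p.1 hw1]
      exact hqv p.1 hpq j w.1 hw1)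
    rw [stretch_eq hm (ζ t) hp] at h1
    refine h1.trans ?_
    have h3 : min ε 1 ≤ ε := min_le_left _ _
    gcongr
  · have h1 := ae_mono (Measure.restrict_mono hsub le_rfl) hcon
    have h2 := ae_mono (Measure.restrict_mono hsub le_rfl) hres
    filter_upwards [h1, h2, ae_restrict_mem measurableSet_Ioo] with t l1 l2 ht
    have hδ := l2.pos
    have hsub2 : Ioc s t ⊆ Ioo s τ := fun x hx => ⟨hx.1, hx.2.trans_lt ht.2⟩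
    have h3 : ∫ x in r..t, Λ x ≤ ∫ x in s..t, Λ x := by
      rw [intervalIntegral.integral_of_le ht.1.le,
        intervalIntegral.integral_of_le (hr.1.trans ht.1).le]
      refine setIntegral_mono_set (hΛi.mono_set hsub2) (Eventually.of_forall hΛ0)
        (Ioc_subset_Ioc_left hr.1.le).eventuallyLE
    have h4 : Real.log Mc + ∫ x in r..t, Λ x ≤ Real.log (1 / δ t) := by linarith
    have h5 : Mc * Real.exp (∫ x in r..t, Λ x) ≤ 1 / δ t := by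
      have h6 := Real.exp_le_exp.2 h4
      rwa [Real.exp_add, Real.exp_log hMc0, Real.exp_log (by positivity)] at h6
    calc δ t * (Mc * Real.exp (∫ x in r..t, Λ x)) ≤ δ t * (1 / δ t) := by gcongr
      _ = 1 := by field_simp

end Pool.Agent.Q62.DN
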