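import Pool.Agent.Q62.DN.One
import Pool.Agent.W918.ES.Gr

/-!
The Ritz projection onto a closed subspace of the energy space, and the energy inequality relative
to the Ritz projection of a strong solution.
-/

set_option autoImplicit false
set_option linter.unusedSectionVars false

open MeasureTheory Set Filter Topology
open scoped InnerProductSpace

namespace Pool.Agent.Q62.DN

open H772R2.NSR (Frame prim_cont grad_unique ae_deriv_of_prim memLp_ii)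
open H772R2.NSG (by_parts ii_of_int int_inner norm_m_le mem_cont)
open Pool.Agent.W795.TQ
open Pool.Agent.W790.TQ (toSt sq_prim)
open Pool.Agent.W918.ES (gronL1)

section

variable {H K : Type} [NormedAddCommGroup H] [InnerProductSpace ℝ H] [CompleteSpace H]
  [NormedAddCommGroup K] [InnerProductSpace ℝ K] [CompleteSpace K]
  {W E : Submodule ℝ (H × K)} {m : H → K} {C c ν : ℝ}

/-- the Ritz projection -/
theorem exists_ritz (Fr : Frame W m C) (hE : IsClosed (E : Set (H × K))) (hEW : E ≤ W) :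
    ∃ ρ : K →L[ℝ] (H × K), (∀ κ, ρ κ ∈ E) ∧ (∀ κ, ∀ e ∈ E, ⟪κ - (ρ κ).2, e.2⟫_ℝ = 0) ∧
      ∀ κ, ‖(ρ κ).2‖ ≤ ‖κ‖ := by
  have : CompleteSpace E := hE.completeSpace_coe
  set f : E →L[ℝ] K := (ContinuousLinearMap.snd ℝ H K).comp E.subtypeL with hf
  have hC := Fr.C0
  have hanti : AntilipschitzWith (Real.toNNReal (max C 1)) f := by
    refine ContinuousLinearMap.antilipschitz_of_bound f fun x => ?_
    have h1 := Fr.poinc _ (hEW x.2)
    have h2 : (0 : ℝ) ≤ max C 1 := le_max_of_le_right zero_le_one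
    rw [Real.coe_toNNReal _ h2]
    show ‖(x : H × K)‖ ≤ max C 1 * ‖(x : H × K).2‖
    rw [Prod.norm_def]
    refine max_le (h1.trans ?_) ?_
    · gcongr
      exact le_max_left _ _
    · have h3 : 1 * ‖(x : H × K).2‖ ≤ max C 1 * ‖(x : H × K).2‖ := by
        gcongr
        exact le_max_right _ _
      linarith
  have hcl : IsClosed (Set.range f) := hanti.isClosed_range f.uniformContinuous
  have hinj : Function.Injective f := hanti.injective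
  set g := f.equivRange hinj hcl with hg
  have : CompleteSpace f.range := hcl.completeSpace_coe
  set π := f.range.orthogonalProjectionOnto with hπ
  have hgf : ∀ κ, ((g.symm (π κ) : E) : H × K).2 = (π κ : K) := by
    intro κ
    have h1 : g (g.symm (π κ)) = π κ := g.apply_symm_apply _
    have h2 := congrArg (fun x : f.range => (x : K)) h1
    exact h2
  refine ⟨(E.subtypeL.comp (g.symm : _ →L[ℝ] E)).comp π, fun κ => ?_, fun κ e he => ?_, fun κ => ?_⟩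
  · exact (g.symm (π κ)).2
  · show ⟪κ - ((g.symm (π κ) : E) : H × K).2, e.2⟫_ℝ = 0
    rw [hgf]
    have h1 : e.2 ∈ f.range := ⟨⟨e, he⟩, rfl⟩
    exact Submodule.starProjection_inner_eq_zero κ e.2 h1
  · show ‖((g.symm (π κ) : E) : H × K).2‖ ≤ ‖κ‖
    rw [hgf]
    exact Submodule.norm_orthogonalProjectionOnto_apply_le _ _

/-- Galerkin solutions in the space `E`, with the energy inequality -/
structure App (E : Submodule ℝ (H × K)) (m : H → K) (ν T : ℝ) (F : ℝ → K) (v : ℝ → H)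
    (y : ℝ → K) : Prop where
  meas : AEStronglyMeasurable v (volume.restrict (Ioc 0 T))
  mmeas : AEStronglyMeasurable (fun s => m (v s)) (volume.restrict (Ioc 0 T))
  mem : ∀ᵐ s ∂(volume.restrict (Ioc 0 T)), (v s, y s) ∈ E
  z2 : MemLp y 2 (volume.restrict (Ioc 0 T))
  F2 : MemLp F 2 (volume.restrict (Ioc 0 T))
  weak : ∀ p ∈ E, ∀ t ∈ Icc 0 T, ⟪v t - v 0, p.1⟫_ℝ
    = ∫ s in (0 : ℝ)..t, ⟪F s - ν • y s + m (v s), p.2⟫_ℝ
  energy : ∀ t ∈ Icc 0 T, ‖v t‖ ^ 2 / 2 + ν * (∫ s in (0 : ℝ)..t, ‖y s‖ ^ 2)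
    ≤ ‖v 0‖ ^ 2 / 2 + ∫ s in (0 : ℝ)..t, ⟪F s, y s⟫_ℝ

variable {T : ℝ} {F F1 Fa : ℝ → K} {u u1 v : ℝ → H} {z z1 y : ℝ → K}

theorem App.mono {T' : ℝ} (L : App E m ν T Fa v y) (hT : T' ≤ T) : App E m ν T' Fa v y := by
  have hsub : (volume.restrict (Ioc 0 T') : Measure ℝ) ≤ volume.restrict (Ioc 0 T) :=
    Measure.restrict_mono (Ioc_subset_Ioc_right hT) le_rfl
  exact ⟨L.meas.mono_measure hsub, L.mmeas.mono_measure hsub, ae_mono hsub L.mem,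
    L.z2.mono_measure hsub, L.F2.mono_measure hsub,
    fun p hp t ht => L.weak p hp t ⟨ht.1, ht.2.trans hT⟩,
    fun t ht => L.energy t ⟨ht.1, ht.2.trans hT⟩⟩

theorem App.Gi (Fr : Frame W m C) (hEW : E ≤ W) (L : App E m ν T Fa v y) :
    Integrable (fun s => Fa s - ν • y s + m (v s)) (volume.restrict (Ioc 0 T)) := by
  have hzn : Integrable (fun s => ‖y s‖ ^ 2) (volume.restrict (Ioc 0 T)) :=
    (memLp_two_iff_integrable_sq_norm L.z2.aestronglyMeasurable).mp L.z2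
  have hmi : Integrable (fun s => m (v s)) (volume.restrict (Ioc 0 T)) := by
    refine (hzn.const_mul C).mono' L.mmeas ?_
    filter_upwards [L.mem] with s hs
    exact norm_m_le Fr (p := (v s, y s)) (hEW hs)
  exact ((L.F2.integrable (by norm_num)).sub ((L.z2.integrable (by norm_num)).smul ν)).add hmi

theorem App.v2 (Fr : Frame W m C) (hEW : E ≤ W) (L : App E m ν T Fa v y) :
    MemLp v 2 (volume.restrict (Ioc 0 T)) := by
  refine L.z2.of_le_mul L.meas (c := C) ?_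
  filter_upwards [L.mem] with s hs
  exact Fr.poinc _ (hEW hs)

theorem App.cross (Fr : Frame W m C) (hEW : E ≤ W) (L : App E m ν T Fa v y)
    {a a1 : ℝ → H} {ζ ζ1 : ℝ → K} (hm : ∀ t ∈ Icc 0 T, (a t, ζ t) ∈ E)
    (hm1 : ∀ᵐ s ∂(volume.restrict (Ioc 0 T)), (a1 s, ζ1 s) ∈ E)
    (ha1 : MemLp a1 2 (volume.restrict (Ioc 0 T))) (hζ1 : MemLp ζ1 2 (volume.restrict (Ioc 0 T)))
    (pa : ∀ r t, 0 ≤ r → r ≤ t → t ≤ T → a t - a r = ∫ s in r..t, a1 s)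
    (pζ : ∀ r t, 0 ≤ r → r ≤ t → t ≤ T → ζ t - ζ r = ∫ s in r..t, ζ1 s) {t : ℝ}
    (ht : t ∈ Icc 0 T) :
    ⟪v t, a t⟫_ℝ = ⟪v 0, a 0⟫_ℝ + (∫ s in (0 : ℝ)..t, ⟪Fa s - ν • y s + m (v s), ζ s⟫_ℝ)
      + ∫ s in (0 : ℝ)..t, ⟪v s, a1 s⟫_ℝ := by
  have hGi := L.Gi Fr hEW
  have hsub : (volume.restrict (Ioc 0 t) : Measure ℝ) ≤ volume.restrict (Ioc 0 T) :=
    Measure.restrict_mono (Ioc_subset_Ioc_right ht.2) le_rfl
  have hζc : ContinuousOn ζ (Icc 0 T) := prim_cont hζ1 pζ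
  have h1 := L.weak _ (hm t ht) t ht
  rw [by_parts hGi (hζ1.integrable (by norm_num)) pζ hζc ht] at h1
  have h2 : ∫ r in (0 : ℝ)..t, ⟪∫ s in (0 : ℝ)..r, (Fa s - ν • y s + m (v s)), ζ1 r⟫_ℝ
      = ∫ r in (0 : ℝ)..t, (⟪v r, a1 r⟫_ℝ - ⟪v 0, a1 r⟫_ℝ) := by
    rw [intervalIntegral.integral_of_le ht.1, intervalIntegral.integral_of_le ht.1]
    refine integral_congr_ae ?_
    filter_upwards [ae_restrict_mem measurableSet_Ioc, ae_mono hsub hm1] with r hr k1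
    have hrT : r ∈ Icc 0 T := ⟨hr.1.le, hr.2.trans ht.2⟩
    have e1 := L.weak _ k1 r hrT
    have hGr : IntegrableOn (fun s => Fa s - ν • y s + m (v s)) (Ioc 0 r) volume :=
      hGi.mono_measure (Measure.restrict_mono (Ioc_subset_Ioc_right hrT.2) le_rfl)
    have e3 : ∫ s in (0 : ℝ)..r, ⟪Fa s - ν • y s + m (v s), ζ1 r⟫_ℝ
        = ⟪∫ s in (0 : ℝ)..r, (Fa s - ν • y s + m (v s)), ζ1 r⟫_ℝ := by
      rw [intervalIntegral.integral_of_le hr.1.le, intervalIntegral.integral_of_le hr.1.le]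
      have := integral_inner (𝕜 := ℝ) hGr (ζ1 r)
      rw [real_inner_comm, ← this]
      exact integral_congr_ae (Eventually.of_forall fun s => real_inner_comm _ _)
    rw [← e3, ← e1, inner_sub_left]
  have hva : IntervalIntegrable (fun r => ⟪v r, a1 r⟫_ℝ) volume 0 t :=
    ii_of_int (T := T) (int_inner (L.v2 Fr hEW) ha1) le_rfl ht.1 ht.2
  have hxi : IntervalIntegrable (fun r => ⟪v 0, a1 r⟫_ℝ) volume 0 t :=
    ii_of_int (T := T) ((ha1.integrable (by norm_num)).const_inner _) le_rfl ht.1 ht.2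
  have h3 : ∫ r in (0 : ℝ)..t, ⟪v 0, a1 r⟫_ℝ = ⟪v 0, a t - a 0⟫_ℝ := by
    rw [pa 0 t le_rfl ht.1 ht.2, intervalIntegral.integral_of_le ht.1,
      intervalIntegral.integral_of_le ht.1]
    exact integral_inner (𝕜 := ℝ) ((ha1.integrable (by norm_num)).mono_measure hsub) (v 0)
  rw [h2, intervalIntegral.integral_sub hva hxi, h3] at h1
  simp only [inner_sub_left, inner_sub_right] at h1 ⊢
  linarith

/-- the energy inequality relative to the Ritz projection of a strong solution -/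
theorem App.rel (Fr : Frame W m C) (hEW : E ≤ W) (hT : 0 < T) (hF : FH T F F1)
    (S : Str W m ν T F u u1 z z1) (L : App E m ν T Fa v y) {ρ : K →L[ℝ] (H × K)}
    (hρE : ∀ κ, ρ κ ∈ E) (hρo : ∀ κ, ∀ e ∈ E, ⟪κ - (ρ κ).2, e.2⟫_ℝ = 0) {t : ℝ}
    (ht : t ∈ Icc 0 T) :
    IntervalIntegrable (fun s => ⟪Fa s - F s, y s - (ρ (z s)).2⟫_ℝ
        + ⟪m (v s) - m (u s), y s - (ρ (z s)).2⟫_ℝ
        + ⟪v s - (ρ (z s)).1, u1 s - (ρ (z1 s)).1⟫_ℝ - ν * ‖y s - (ρ (z s)).2‖ ^ 2) volume 0 t ∧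
    ‖v t - (ρ (z t)).1‖ ^ 2 / 2 ≤ ‖v 0 - (ρ (z 0)).1‖ ^ 2 / 2
      + ∫ s in (0 : ℝ)..t, (⟪Fa s - F s, y s - (ρ (z s)).2⟫_ℝ
        + ⟪m (v s) - m (u s), y s - (ρ (z s)).2⟫_ℝ
        + ⟪v s - (ρ (z s)).1, u1 s - (ρ (z1 s)).1⟫_ℝ - ν * ‖y s - (ρ (z s)).2‖ ^ 2) := by
  have hsub : (volume.restrict (Ioc 0 t) : Measure ℝ) ≤ volume.restrict (Ioc 0 T) :=
    Measure.restrict_mono (Ioc_subset_Ioc_right ht.2) le_rfl
  have hz1i : Integrable z1 (volume.restrict (Ioc 0 T)) := S.z1m.integrable (by norm_num)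
  set ρ1 : K →L[ℝ] H := (ContinuousLinearMap.fst ℝ H K).comp ρ with hρ1
  set ρ2 : K →L[ℝ] K := (ContinuousLinearMap.snd ℝ H K).comp ρ with hρ2
  have pr1 : ∀ r t', 0 ≤ r → r ≤ t' → t' ≤ T → ρ1 (z t') - ρ1 (z r) = ∫ s in r..t', ρ1 (z1 s) := by
    intro r t' h1 h2 h3
    rw [← map_sub, S.pz r t' h1 h2 h3]
    exact (ρ1.intervalIntegral_comp_comm (ii_of_int hz1i h1 h2 h3)).symm
  have pr2 : ∀ r t', 0 ≤ r → r ≤ t' → t' ≤ T → ρ2 (z t') - ρ2 (z r) = ∫ s in r..t', ρ2 (z1 s) := by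
    intro r t' h1 h2 h3
    rw [← map_sub, S.pz r t' h1 h2 h3]
    exact (ρ2.intervalIntegral_comp_comm (ii_of_int hz1i h1 h2 h3)).symm
  have m1 : MemLp (fun s => ρ1 (z1 s)) 2 (volume.restrict (Ioc 0 T)) := ρ1.comp_memLp' S.z1m
  have m2 : MemLp (fun s => ρ2 (z1 s)) 2 (volume.restrict (Ioc 0 T)) := ρ2.comp_memLp' S.z1m
  have c1 : ContinuousOn (fun s => ρ1 (z s)) (Icc 0 T) := prim_cont m1 pr1
  have c2 : ContinuousOn (fun s => ρ2 (z s)) (Icc 0 T) := prim_cont m2 pr2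
  have cross := L.cross Fr hEW (a := fun s => ρ1 (z s)) (a1 := fun s => ρ1 (z1 s))
    (ζ := fun s => ρ2 (z s)) (ζ1 := fun s => ρ2 (z1 s)) (fun s _ => hρE (z s))
    (Eventually.of_forall fun s => hρE (z1 s)) m1 m2 pr1 pr2 ht
  have sq := sq_prim m1 pr1 le_rfl ht.1 ht.2
  have en := L.energy t ht
  -- integrability
  have i1 : IntervalIntegrable (fun s => ⟪Fa s, y s⟫_ℝ) volume 0 t :=
    ii_of_int (T := T) (int_inner L.F2 L.z2) le_rfl ht.1 ht.2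
  have i2 : IntervalIntegrable (fun s => ‖y s‖ ^ 2) volume 0 t :=
    ii_of_int (T := T) ((memLp_two_iff_integrable_sq_norm L.z2.aestronglyMeasurable).mp L.z2)
      le_rfl ht.1 ht.2
  have i3 : IntervalIntegrable (fun s => ⟪Fa s - ν • y s + m (v s), ρ2 (z s)⟫_ℝ) volume 0 t := by
    refine ii_of_int (T := T) ?_ le_rfl ht.1 ht.2
    obtain ⟨B, hB⟩ := (isCompact_Icc.image_of_continuousOn c2).isBounded.exists_norm_le
    have hzm : AEStronglyMeasurable (fun s => ρ2 (z s)) (volume.restrict (Ioc 0 T)) :=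
      (c2.mono Ioc_subset_Icc_self).aestronglyMeasurable measurableSet_Ioc
    refine ((L.Gi Fr hEW).norm.mul_const B).mono' ((L.Gi Fr hEW).aestronglyMeasurable.inner hzm) ?_
    filter_upwards [ae_restrict_mem measurableSet_Ioc] with s hs
    refine (norm_inner_le_norm _ _).trans ?_
    gcongr
    exact hB _ ⟨s, ⟨hs.1.le, hs.2⟩, rfl⟩
  have i4 : IntervalIntegrable (fun s => ⟪v s, ρ1 (z1 s)⟫_ℝ) volume 0 t :=
    ii_of_int (T := T) (int_inner (L.v2 Fr hEW) m1) le_rfl ht.1 ht.2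
  have i5 : IntervalIntegrable (fun s => ⟪ρ1 (z1 s), ρ1 (z s)⟫_ℝ) volume 0 t :=
    ii_of_int (T := T) (int_inner m1 (mem_cont c1)) le_rfl ht.1 ht.2
  -- the integrand
  obtain ⟨Z, St1⟩ := toSt hF S
  have hpt : ∀ᵐ s ∂(volume.restrict (Ioc 0 t)),
      (⟪Fa s - F s, y s - ρ2 (z s)⟫_ℝ + ⟪m (v s) - m (u s), y s - ρ2 (z s)⟫_ℝ
        + ⟪v s - ρ1 (z s), u1 s - ρ1 (z1 s)⟫_ℝ - ν * ‖y s - ρ2 (z s)‖ ^ 2)
      = ⟪Fa s, y s⟫_ℝ - ν * ‖y s‖ ^ 2 - ⟪Fa s - ν • y s + m (v s), ρ2 (z s)⟫_ℝ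
        - ⟪v s, ρ1 (z1 s)⟫_ℝ + ⟪ρ1 (z1 s), ρ1 (z s)⟫_ℝ := by
    filter_upwards [ae_mono hsub L.mem, ae_mono hsub (St1.deriv_weak Fr hT)] with s k1 k2
    have hw : (v s - ρ1 (z s), y s - ρ2 (z s)) ∈ E := by
      exact E.sub_mem k1 (hρE (z s))
    have e1 := k2 _ (hEW hw)
    have e2 := hρo (z s) _ hw
    have e3 := Fr.ortho _ (hEW k1)
    simp only at e1 e2 e3
    have e2' : ⟪z s - ρ2 (z s), y s - ρ2 (z s)⟫_ℝ = 0 := e2
    rw [← real_inner_self_eq_norm_sq, ← real_inner_self_eq_norm_sq]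
    simp only [inner_sub_left, inner_sub_right, inner_add_left,
      real_inner_smul_left] at e1 e2' e3 ⊢
    rw [real_inner_comm (v s) (u1 s), real_inner_comm (ρ1 (z s)) (u1 s)] at e1
    rw [real_inner_comm (ρ1 (z1 s)) (ρ1 (z s)), real_inner_comm (ρ2 (z s)) (y s)]
    linear_combination e1 + e3 - ν * e2'
  have hint : ∫ s in (0 : ℝ)..t, (⟪Fa s - F s, y s - ρ2 (z s)⟫_ℝ
        + ⟪m (v s) - m (u s), y s - ρ2 (z s)⟫_ℝ
        + ⟪v s - ρ1 (z s), u1 s - ρ1 (z1 s)⟫_ℝ - ν * ‖y s - ρ2 (z s)‖ ^ 2)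
      = (∫ s in (0 : ℝ)..t, ⟪Fa s, y s⟫_ℝ) - ν * (∫ s in (0 : ℝ)..t, ‖y s‖ ^ 2)
        - (∫ s in (0 : ℝ)..t, ⟪Fa s - ν • y s + m (v s), ρ2 (z s)⟫_ℝ)
        - (∫ s in (0 : ℝ)..t, ⟪v s, ρ1 (z1 s)⟫_ℝ) + ∫ s in (0 : ℝ)..t, ⟪ρ1 (z1 s), ρ1 (z s)⟫_ℝ := by
    rw [← intervalIntegral.integral_const_mul, ← intervalIntegral.integral_sub i1 (i2.const_mul ν),
      ← intervalIntegral.integral_sub (i1.sub (i2.const_mul ν)) i3,
      ← intervalIntegral.integral_sub ((i1.sub (i2.const_mul ν)).sub i3) i4,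
      ← intervalIntegral.integral_add (((i1.sub (i2.const_mul ν)).sub i3).sub i4) i5,
      intervalIntegral.integral_of_le ht.1, intervalIntegral.integral_of_le ht.1]
    exact integral_congr_ae hpt
  refine ⟨?_, ?_⟩
  · have hi := (((i1.sub (i2.const_mul ν)).sub i3).sub i4).add i5
    refine hi.congr_ae ?_
    rw [uIoc_of_le ht.1]
    filter_upwards [hpt] with s hs
    exact hs.symm
  show ‖v t - ρ1 (z t)‖ ^ 2 / 2 ≤ ‖v 0 - ρ1 (z 0)‖ ^ 2 / 2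
      + ∫ s in (0 : ℝ)..t, (⟪Fa s - F s, y s - ρ2 (z s)⟫_ℝ
        + ⟪m (v s) - m (u s), y s - ρ2 (z s)⟫_ℝ
        + ⟪v s - ρ1 (z s), u1 s - ρ1 (z1 s)⟫_ℝ - ν * ‖y s - ρ2 (z s)‖ ^ 2)
  rw [hint, norm_sub_sq_real, norm_sub_sq_real]
  rw [intervalIntegral.integral_const_mul] at sq
  linarith

end

end Pool.Agent.Q62.DN
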